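import Pool.Agent.H82.TE.Sta
import Pool.Agent.H88.TU.Exp

/-! # [H82 TE COL] Three points near one asymptote in a short arc are collinear: `|G| ≤ h X` at the points -/

namespace Pool.Agent.H82.TE

open Finset Polynomial Pool.Agent.H8.AA Pool.Agent.H88.A2 Pool.Agent.H88.TU

private theorem tail_le (n : ℕ) (q : ℕ → ℕ → ℝ) (A S x s : ℝ) (hA : 0 ≤ A)
    (hS : 1 ≤ S) (hx : 1 ≤ |x|) (hs : |s| ≤ S) (hq : ∀ i m, m ≤ i → i ≤ n → |q i m| ≤ A) :
    |∑ i ∈ Ico 3 (n + 1), ∑ m ∈ range (i + 1), q i m * s ^ m * x ^ (n - i)| ≤ (n + 1 : ℝ) ^ 2 * (A * S ^ n) * |x| ^ (n - 3) := by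
  have hin : ∀ i ∈ Ico 3 (n + 1), |∑ m ∈ range (i + 1), q i m * s ^ m * x ^ (n - i)| ≤
      (n + 1 : ℝ) * (A * S ^ n * |x| ^ (n - 3)) := by
    intro i hi
    rw [mem_Ico] at hi
    have hterm : ∀ m ∈ range (i + 1), |q i m * s ^ m * x ^ (n - i)| ≤ A * S ^ n * |x| ^ (n - 3) := by
      intro m hm
      rw [mem_range] at hm
      rw [abs_mul, abs_mul, abs_pow, abs_pow]
      have h1 : |s| ^ m ≤ S ^ n := (pow_le_pow_left₀ (abs_nonneg _) hs m).trans (pow_le_pow_right₀ hS (by omega))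
      have h3 : |x| ^ (n - i) ≤ |x| ^ (n - 3) := pow_le_pow_right₀ hx (by omega)
      exact mul_le_mul (mul_le_mul (hq i m (by omega) (by omega)) h1 (by positivity) hA) h3 (by positivity) (by positivity)
    refine (abs_sum_le_sum_abs _ _).trans ((sum_le_sum hterm).trans ?_)
    rw [sum_const, card_range, nsmul_eq_mul]
    refine mul_le_mul_of_nonneg_right ?_ (by positivity)
    push_cast
    have : (i : ℝ) ≤ n := by exact_mod_cast (by omega : i ≤ n)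
    linarith
  refine (abs_sum_le_sum_abs _ _).trans ((sum_le_sum hin).trans ?_)
  rw [sum_const, Nat.card_Ico, nsmul_eq_mul]
  have h1 : ((n + 1 - 3 : ℕ) : ℝ) ≤ (n + 1 : ℝ) := by
    exact_mod_cast Nat.sub_le (n + 1) 3
  have h2 : 0 ≤ (n + 1 : ℝ) * (A * S ^ n * |x| ^ (n - 3)) := by positivity
  calc ((n + 1 - 3 : ℕ) : ℝ) * ((n + 1 : ℝ) * (A * S ^ n * |x| ^ (n - 3)))
      ≤ (n + 1 : ℝ) * ((n + 1 : ℝ) * (A * S ^ n * |x| ^ (n - 3))) := mul_le_mul_of_nonneg_right h1 h2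
    _ = (n + 1 : ℝ) ^ 2 * (A * S ^ n) * |x| ^ (n - 3) := by ring

/-- one point: `s = β + γ / x + r` -/
private theorem one_pt (n : ℕ) (hn : 4 ≤ n) (K A S D β q20 q21 q22 X h x s : ℝ)
    (q : ℕ → ℕ → ℝ) (hK : 2 ≤ K) (hA : 1 ≤ A) (hS : S = K ^ 2 * A)
    (hq : ∀ i m, m ≤ i → i ≤ n → |q i m| ≤ A) (hD : 1 / K ≤ |D|)
    (h00 : q 0 0 = 0) (h10 : q 1 0 = -(D * β)) (h11 : q 1 1 = D)
    (h20 : q 2 0 = q20) (h21 : q 2 1 = q21) (h22 : q 2 2 = q22) (hh : 1 ≤ h)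
    (hX : K * h ≤ X) (hx : X ≤ |x|) (hs : |s - β| ≤ K * h / X)
    (hF : |∑ i ∈ range (n + 1), ∑ m ∈ range (i + 1), q i m * s ^ m * x ^ (n - i)| ≤ h * X) :
    |β| ≤ S ∧ |s - β - (-(q20 + q21 * β + q22 * β ^ 2) / D) / x| ≤
      K * (1 + (n + 1 : ℝ) ^ 2 * (A * S ^ n) + 3 * A * K * S) * h / X ^ 2 := by
  have hX1 : 1 ≤ X := by nlinarith
  have hX0 : 0 < X := by linarith
  have hx1 : 1 ≤ |x| := by linarith
  have hxa : 0 < |x| := by linarith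
  have hx0 : x ≠ 0 := abs_pos.1 hxa
  have hD0 : 0 < |D| := lt_of_lt_of_le (by positivity) hD
  have hDne : D ≠ 0 := abs_pos.1 hD0
  have hKD : 1 ≤ K * |D| := by
    have := mul_le_mul_of_nonneg_left hD (by linarith : (0 : ℝ) ≤ K)
    rwa [mul_one_div_cancel (by linarith : K ≠ 0)] at this
  have hA0 : 0 ≤ A := by linarith
  have hS1 : 1 ≤ S := by rw [hS]; nlinarith
  have hβ1 : |β| ≤ K * A := by
    have h1 : |D| * |β| ≤ A := by
      have := hq 1 0 (by omega) (by omega)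
      rw [h10, abs_neg, abs_mul] at this
      exact this
    calc |β| ≤ (K * |D|) * |β| := by nlinarith [abs_nonneg β]
      _ = K * (|D| * |β|) := by ring
      _ ≤ K * A := mul_le_mul_of_nonneg_left h1 (by linarith)
  have hKA : 1 ≤ K * A := by nlinarith
  have hβ : |β| ≤ S := by
    refine hβ1.trans ?_
    rw [hS]
    nlinarith
  have hsb : |s - β| ≤ 1 := by
    refine hs.trans ?_
    rw [div_le_iff₀ hX0]
    linarith
  have hsS : |s| ≤ S := by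
    have h1 : |s| ≤ |s - β| + |β| := by
      have := abs_add_le (s - β) β
      rwa [sub_add_cancel] at this
    have h3 : K * A + K * A ≤ S := by
      rw [hS]
      nlinarith
    linarith
  have htail := tail_le n q A S x s hA0 hS1 hx1 hsS hq
  obtain ⟨Tl, hTl⟩ : ∃ Tl : ℝ, Tl = ∑ i ∈ Ico 3 (n + 1), ∑ m ∈ range (i + 1), q i m * s ^ m * x ^ (n - i) := ⟨_, rfl⟩
  obtain ⟨Fv, hFv⟩ : ∃ Fv : ℝ, Fv = ∑ i ∈ range (n + 1), ∑ m ∈ range (i + 1), q i m * s ^ m * x ^ (n - i) := ⟨_, rfl⟩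
  have e1 : x ^ (n - 1) = x ^ 2 * x ^ (n - 3) := by rw [← pow_add]; congr 1; omega
  have e2 : x ^ (n - 2) = x * x ^ (n - 3) := by
    rw [← pow_succ']
    congr 1
    omega
  have hsplit : Fv = (D * (s - β) * x ^ 2 + (q20 + q21 * s + q22 * s ^ 2) * x) * x ^ (n - 3) + Tl := by
    rw [hFv, hTl, range_eq_Ico, ← sum_Ico_consecutive _ (Nat.zero_le 3) (by omega : 3 ≤ n + 1)]
    congr 1
    rw [← range_eq_Ico, sum_range_succ, sum_range_succ, sum_range_one]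
    simp only [sum_range_succ, range_zero, sum_empty, zero_add, pow_zero, mul_one, pow_one, Nat.sub_zero]
    rw [h00, h10, h11, h20, h21, h22, e1, e2]
    ring
  rw [← hFv] at hF
  rw [← hTl] at htail
  obtain ⟨p, hp⟩ : ∃ p : ℝ, p = x ^ (n - 3) := ⟨_, rfl⟩
  have hpa : |p| = |x| ^ (n - 3) := by rw [hp, abs_pow]
  have hp1 : 1 ≤ |p| := by rw [hpa]; exact one_le_pow₀ hx1
  have hp0 : p ≠ 0 := abs_pos.1 (by linarith)
  rw [← hp] at hsplit
  rw [← hpa] at htail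
  have hxp : |x| ≤ |p| := by
    rw [hpa]
    exact le_self_pow₀ hx1 (by omega)
  -- the main identity
  obtain ⟨r, hr⟩ : ∃ r : ℝ, r = s - β - (-(q20 + q21 * β + q22 * β ^ 2) / D) / x := ⟨_, rfl⟩
  have hid : D * r = Fv / (x ^ 2 * p) - (q21 * (s - β) + q22 * ((s - β) * (s + β))) / x - Tl / (x ^ 2 * p) := by
    have h1 : Tl = Fv - (D * (s - β) * x ^ 2 + (q20 + q21 * s + q22 * s ^ 2) * x) * p := by linarith
    rw [hr, h1]
    field_simp
    ring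
  have hx2 : X ^ 2 ≤ |x| ^ 2 := pow_le_pow_left₀ hX0.le hx 2
  have t1 : |Fv / (x ^ 2 * p)| ≤ h / X ^ 2 := by
    rw [abs_div, abs_mul, abs_pow]
    rw [div_le_div_iff₀ (by positivity) (by positivity)]
    calc |Fv| * X ^ 2 ≤ (h * X) * X ^ 2 := mul_le_mul_of_nonneg_right hF (by positivity)
      _ = h * (X ^ 2 * X) := by ring
      _ ≤ h * (|x| ^ 2 * |p|) := by
        refine mul_le_mul_of_nonneg_left (mul_le_mul hx2 (hx.trans hxp) hX0.le (by positivity)) (by linarith)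
  have t2 : |(q21 * (s - β) + q22 * ((s - β) * (s + β))) / x| ≤ 3 * A * K * S * h / X ^ 2 := by
    rw [abs_div]
    have k1 : |q21 * (s - β) + q22 * ((s - β) * (s + β))| ≤ A * (K * h / X) * (3 * S) := by
      have a1 : |q21| ≤ A := by rw [← h21]; exact hq 2 1 (by omega) (by omega)
      have a2 : |q22| ≤ A := by rw [← h22]; exact hq 2 2 (by omega) (by omega)
      have a3 : |s + β| ≤ 2 * S := (abs_add_le _ _).trans (by linarith)
      have a4 : 0 ≤ K * h / X := by positivity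
      calc |q21 * (s - β) + q22 * ((s - β) * (s + β))| ≤ |q21 * (s - β)| + |q22 * ((s - β) * (s + β))| := abs_add_le _ _
        _ = |q21| * |s - β| + |q22| * (|s - β| * |s + β|) := by rw [abs_mul, abs_mul, abs_mul]
        _ ≤ A * (K * h / X) + A * ((K * h / X) * (2 * S)) := by gcongr
        _ ≤ A * (K * h / X) * (3 * S) := by
          have : 0 ≤ A * (K * h / X) := by positivity
          nlinarith
    rw [div_le_div_iff₀ hxa (by positivity)]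
    calc |q21 * (s - β) + q22 * ((s - β) * (s + β))| * X ^ 2 ≤ (A * (K * h / X) * (3 * S)) * X ^ 2 :=
          mul_le_mul_of_nonneg_right k1 (by positivity)
      _ = 3 * A * K * S * h * X := by
          field_simp
      _ ≤ 3 * A * K * S * h * |x| := mul_le_mul_of_nonneg_left hx (by positivity)
  have t3 : |Tl / (x ^ 2 * p)| ≤ (n + 1 : ℝ) ^ 2 * (A * S ^ n) * h / X ^ 2 := by
    rw [abs_div, abs_mul, abs_pow]
    rw [div_le_div_iff₀ (by positivity) (by positivity)]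
    have k0 : 0 ≤ (n + 1 : ℝ) ^ 2 * (A * S ^ n) := by positivity
    calc |Tl| * X ^ 2 ≤ ((n + 1 : ℝ) ^ 2 * (A * S ^ n) * |p|) * |x| ^ 2 := mul_le_mul htail hx2 (by positivity) (by positivity)
      _ = (n + 1 : ℝ) ^ 2 * (A * S ^ n) * 1 * (|x| ^ 2 * |p|) := by ring
      _ ≤ (n + 1 : ℝ) ^ 2 * (A * S ^ n) * h * (|x| ^ 2 * |p|) := by gcongr
  refine ⟨hβ, ?_⟩
  rw [← hr]
  have h5 : |D * r| ≤ h / X ^ 2 + 3 * A * K * S * h / X ^ 2 + (n + 1 : ℝ) ^ 2 * (A * S ^ n) * h / X ^ 2 := by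
    rw [hid]
    refine (abs_sub _ _).trans ?_
    have := abs_sub (Fv / (x ^ 2 * p)) ((q21 * (s - β) + q22 * ((s - β) * (s + β))) / x)
    linarith
  calc |r| = 1 * |r| := (one_mul _).symm
    _ ≤ (K * |D|) * |r| := mul_le_mul_of_nonneg_right hKD (abs_nonneg r)
    _ = K * |D * r| := by rw [abs_mul]; ring
    _ ≤ K * (h / X ^ 2 + 3 * A * K * S * h / X ^ 2 + (n + 1 : ℝ) ^ 2 * (A * S ^ n) * h / X ^ 2) :=
        mul_le_mul_of_nonneg_left h5 (by linarith)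
    _ = _ := by ring

private theorem det_small (G L X h γ β t x0 x1 x2 y0 y1 y2 : ℝ) (hG : 0 ≤ G) (hL : 16 * G ≤ L)
    (hL1 : 1 ≤ L) (hh : 1 ≤ h) (hX : L * h ≤ X) (hγ : |γ| ≤ G)
    (h0 : X ≤ |x0|) (h1 : X ≤ |x1|) (h2 : X ≤ |x2|)
    (r0 : |y0 - t * x0 - β - γ / x0| ≤ G * h / X ^ 2)
    (r1 : |y1 - t * x1 - β - γ / x1| ≤ G * h / X ^ 2)
    (r2 : |y2 - t * x2 - β - γ / x2| ≤ G * h / X ^ 2)
    (d1 : |x1 - x0| ≤ X / L) (d2 : |x2 - x0| ≤ X / L) (d3 : |x2 - x1| ≤ X / L) :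
    |(x1 - x0) * (y2 - y0) - (x2 - x0) * (y1 - y0)| < 1 := by
  have hL0 : 0 < L := by linarith
  have hX0 : 0 < X := by nlinarith
  have a0 : 0 < |x0| := by linarith
  have a1 : 0 < |x1| := by linarith
  have a2 : 0 < |x2| := by linarith
  have n0 : x0 ≠ 0 := abs_pos.1 a0
  have n1 : x1 ≠ 0 := abs_pos.1 a1
  have n2 : x2 ≠ 0 := abs_pos.1 a2
  obtain ⟨e0, he0⟩ : ∃ e0, e0 = y0 - t * x0 - β - γ / x0 := ⟨_, rfl⟩
  obtain ⟨e1, he1⟩ : ∃ e1, e1 = y1 - t * x1 - β - γ / x1 := ⟨_, rfl⟩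
  obtain ⟨e2, he2⟩ : ∃ e2, e2 = y2 - t * x2 - β - γ / x2 := ⟨_, rfl⟩
  rw [← he0] at r0
  rw [← he1] at r1
  rw [← he2] at r2
  have hid : (x1 - x0) * (y2 - y0) - (x2 - x0) * (y1 - y0) =
      γ * ((x1 - x0) * (x2 - x0) * (x2 - x1)) / (x0 * x1 * x2) + (x1 - x0) * (e2 - e0) - (x2 - x0) * (e1 - e0) := by
    have f0 : y0 = e0 + t * x0 + β + γ / x0 := by rw [he0]; ring
    have f1 : y1 = e1 + t * x1 + β + γ / x1 := by rw [he1]; ring
    have f2 : y2 = e2 + t * x2 + β + γ / x2 := by rw [he2]; ring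
    rw [f0, f1, f2]
    field_simp
    ring
  rw [hid]
  have p1 : |γ * ((x1 - x0) * (x2 - x0) * (x2 - x1)) / (x0 * x1 * x2)| ≤ 1 / 16 := by
    rw [abs_div, abs_mul, abs_mul, abs_mul, abs_mul, abs_mul, div_le_iff₀ (by positivity)]
    have k1 : |γ| * (|x1 - x0| * |x2 - x0| * |x2 - x1|) ≤ G * ((X / L) * (X / L) * (X / L)) := by gcongr
    have k2 : G * ((X / L) * (X / L) * (X / L)) ≤ 1 / 16 * (X * X * X) := by
      have k3 : G * ((X / L) * (X / L) * (X / L)) = (G / L ^ 3) * (X * X * X) := by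
        field_simp
      rw [k3]
      refine mul_le_mul_of_nonneg_right ?_ (by positivity)
      rw [div_le_iff₀ (by positivity)]
      have k4 : L ≤ L ^ 3 := le_self_pow₀ hL1 (by norm_num)
      linarith
    have k3 : X * X * X ≤ |x0| * |x1| * |x2| := by gcongr
    linarith
  have hbd : ∀ a b c : ℝ, |a| ≤ X / L → |b| ≤ G * h / X ^ 2 → |c| ≤ G * h / X ^ 2 → |a * (b - c)| ≤ 1 / 8 := by
    intro a b c ha hb hc
    rw [abs_mul]
    have k1 : |b - c| ≤ 2 * (G * h / X ^ 2) := (abs_sub _ _).trans (by linarith)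
    have k2 : |a| * |b - c| ≤ (X / L) * (2 * (G * h / X ^ 2)) := mul_le_mul ha k1 (abs_nonneg _) (by positivity)
    refine k2.trans ?_
    have k3 : (X / L) * (2 * (G * h / X ^ 2)) = 2 * G * h / (L * X) := by
      field_simp
    rw [k3, div_le_iff₀ (by positivity)]
    have k4 : 16 * G * h ≤ L * h := mul_le_mul_of_nonneg_right hL (by linarith)
    have k5 : L * h ≤ L * X := mul_le_mul_of_nonneg_left (by nlinarith) hL0.le
    linarith
  have p2 := hbd _ _ _ d1 r2 r0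
  have p3 := hbd _ _ _ d2 r1 r0
  have p4 := abs_le.1 p1
  have p5 := abs_le.1 p2
  have p6 := abs_le.1 p3
  rw [abs_lt]
  constructor <;> linarith

theorem col_ex (n κ : ℕ) (hn : 4 ≤ n) (hκ : ExpS n κ) : ColS n (2 * n + 10 + κ + (κ + 2) * n) := by
  intro K h hK hh e t hC X hX x₀ x₁ x₂ y₀ y₁ y₂ N0 N1 N2 D1 D2 D3
  obtain ⟨q, hq, h00, h10, h11, h20, h21, h22, hexp⟩ := hκ K 1 hK (le_refl _) e t hC.bs hC.t2
  have hK0 : 0 < K := by linarith
  have hK1 : 1 ≤ K := by linarith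
  obtain ⟨A, hA⟩ : ∃ A : ℝ, A = K ^ κ := ⟨_, rfl⟩
  obtain ⟨S, hS⟩ : ∃ S : ℝ, S = K ^ 2 * A := ⟨_, rfl⟩
  have hA1 : 1 ≤ A := by rw [hA]; exact one_le_pow₀ hK1
  have hS1 : 1 ≤ S := by rw [hS]; nlinarith
  have hq' : ∀ i m, m ≤ i → i ≤ n → |q i m| ≤ A := by
    intro i m h1 h2
    have h3 := hq i m h1 h2
    rw [one_pow, mul_one, ← hA] at h3
    exact h3
  obtain ⟨D, hD⟩ : ∃ D : ℝ, D = aeval t (derivative (fm e n)) := ⟨_, rfl⟩
  obtain ⟨β, hβ⟩ : ∃ β : ℝ, β = be n e t := ⟨_, rfl⟩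
  have hDd : 1 / K ≤ |D| := by rw [hD]; exact hC.dr
  have hDne : D ≠ 0 := by
    intro h0
    rw [h0, abs_zero] at hDd
    have : 0 < 1 / K := by positivity
    linarith
  have h10' : q 1 0 = -(D * β) := by
    rw [h10, hβ, hD]
    unfold be
    rw [← hD]
    field_simp
  have h00' : q 0 0 = 0 := by rw [h00]; exact hC.rt
  have h11' : q 1 1 = D := by rw [h11, hD]
  obtain ⟨G, hG⟩ : ∃ G : ℝ, G = K * (1 + (n + 1 : ℝ) ^ 2 * (A * S ^ n) + 3 * A * K * S) := ⟨_, rfl⟩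
  obtain ⟨γ, hγ⟩ : ∃ γ : ℝ, γ = -(q 2 0 + q 2 1 * β + q 2 2 * β ^ 2) / D := ⟨_, rfl⟩
  obtain ⟨L, hL⟩ : ∃ L : ℝ, L = K ^ (2 * n + 10 + κ + (κ + 2) * n) := ⟨_, rfl⟩
  rw [← hL] at hX D1 D2 D3
  -- L is large
  have hn2 : (n + 1 : ℝ) ^ 2 ≤ K ^ (2 * n) := by
    have h1 : (n + 1 : ℝ) ≤ K ^ n := by
      have h2 : n + 1 ≤ 2 ^ n := Nat.lt_two_pow_self
      calc (n + 1 : ℝ) ≤ ((2 ^ n : ℕ) : ℝ) := by exact_mod_cast h2
        _ = (2 : ℝ) ^ n := by push_cast; rfl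
        _ ≤ K ^ n := pow_le_pow_left₀ (by norm_num) hK n
    calc (n + 1 : ℝ) ^ 2 ≤ (K ^ n) ^ 2 := pow_le_pow_left₀ (by positivity) h1 2
      _ = K ^ (2 * n) := by rw [← pow_mul]; congr 1; ring
  have hSn : S ^ n = K ^ ((κ + 2) * n) := by
    rw [hS, hA, ← pow_add, ← pow_mul]
    congr 1
    ring
  have hSn1 : 1 ≤ S ^ n := one_le_pow₀ hS1
  have hSle : S ≤ S ^ n := le_self_pow₀ hS1 (by omega)
  have hK2n : 1 ≤ K ^ (2 * n) := one_le_pow₀ hK1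
  have hM : 1 + (n + 1 : ℝ) ^ 2 * (A * S ^ n) + 3 * A * K * S ≤ K ^ 3 * (K ^ (2 * n) * (A * S ^ n)) := by
    have m0 : 1 ≤ A * S ^ n := by nlinarith
    have m1 : 1 ≤ K ^ (2 * n) * (A * S ^ n) := by nlinarith
    have m2 : (n + 1 : ℝ) ^ 2 * (A * S ^ n) ≤ K ^ (2 * n) * (A * S ^ n) := mul_le_mul_of_nonneg_right hn2 (by positivity)
    have m3 : 3 * A * K * S ≤ 3 * K * (K ^ (2 * n) * (A * S ^ n)) := by
      calc 3 * A * K * S = 3 * K * (1 * (A * S)) := by ring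
        _ ≤ 3 * K * (K ^ (2 * n) * (A * S ^ n)) := by gcongr
    have m4 : 2 + 3 * K ≤ K ^ 3 := by
      have : K ^ 2 * 2 ≤ K ^ 2 * K := mul_le_mul_of_nonneg_left hK (by positivity)
      nlinarith
    have m5 : (2 + 3 * K) * (K ^ (2 * n) * (A * S ^ n)) ≤ K ^ 3 * (K ^ (2 * n) * (A * S ^ n)) :=
      mul_le_mul_of_nonneg_right m4 (by positivity)
    linarith
  have hGL : 16 * G ≤ L := by
    have m1 : L = K ^ 4 * (K ^ 2 * (K ^ 4 * (K ^ (2 * n) * (A * S ^ n)))) := by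
      rw [hL, hSn, hA, ← pow_add, ← pow_add, ← pow_add, ← pow_add, ← pow_add]
      congr 1
      ring
    have m2 : G ≤ K ^ 4 * (K ^ (2 * n) * (A * S ^ n)) := by
      rw [hG]
      calc K * (1 + (n + 1 : ℝ) ^ 2 * (A * S ^ n) + 3 * A * K * S) ≤ K * (K ^ 3 * (K ^ (2 * n) * (A * S ^ n))) :=
            mul_le_mul_of_nonneg_left hM hK0.le
        _ = _ := by ring
    have m3 : (16 : ℝ) ≤ K ^ 4 := by
      calc (16 : ℝ) = 2 ^ 4 := by norm_num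
        _ ≤ K ^ 4 := pow_le_pow_left₀ (by norm_num) hK 4
    have m4 : 1 ≤ K ^ 2 := one_le_pow₀ hK1
    have hG0 : 0 ≤ G := by rw [hG]; positivity
    rw [m1]
    calc 16 * G ≤ K ^ 4 * G := mul_le_mul_of_nonneg_right m3 hG0
      _ ≤ K ^ 4 * (K ^ 2 * (K ^ 4 * (K ^ (2 * n) * (A * S ^ n)))) := by
        refine mul_le_mul_of_nonneg_left ?_ (by positivity)
        have m5 : 0 ≤ K ^ 4 * (K ^ (2 * n) * (A * S ^ n)) := by positivity
        nlinarith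
  have hG1 : 1 ≤ G := by
    rw [hG]
    have : 0 ≤ (n + 1 : ℝ) ^ 2 * (A * S ^ n) + 3 * A * K * S := by positivity
    nlinarith
  have hL1 : 1 ≤ L := by linarith
  have hKX : K * h ≤ X := by
    refine le_trans ?_ hX
    refine mul_le_mul_of_nonneg_right ?_ (by linarith)
    rw [hL]
    exact le_self_pow₀ hK1 (by omega)
  -- the points
  have hpt : ∀ x y : ℤ, (X ≤ |(x : ℝ)| ∧ |(x : ℝ)| ≤ 2 * X ∧ |(y : ℝ) - t * x - be n e t| ≤ K * h / X ∧ |(ev n e x y : ℝ)| ≤ h * X) →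
      |β| ≤ S ∧ |(y : ℝ) - t * x - β - γ / x| ≤ G * h / X ^ 2 := by
    intro x y hN
    obtain ⟨k1, k2, k3, k4⟩ := hN
    have hev := hexp (x : ℝ) ((y : ℝ) - t * x)
    have e1 : t * (x : ℝ) + ((y : ℝ) - t * x) = y := by ring
    rw [e1, evR_cast] at hev
    rw [hev] at k4
    rw [← hβ] at k3
    have h1 := one_pt n hn K A S D β (q 2 0) (q 2 1) (q 2 2) X h x ((y : ℝ) - t * x) q hK hA1 hS hq' hDd h00' h10' h11' rfl rfl rfl
      hh hKX k1 k3 k4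
    rw [← hG, ← hγ] at h1
    exact h1
  obtain ⟨b0, r0⟩ := hpt x₀ y₀ N0
  obtain ⟨_, r1⟩ := hpt x₁ y₁ N1
  obtain ⟨_, r2⟩ := hpt x₂ y₂ N2
  have hγG : |γ| ≤ G := by
    have k1 : |q 2 0 + q 2 1 * β + q 2 2 * β ^ 2| ≤ A * (3 * S ^ 2) := by
      have a0 := hq' 2 0 (by omega) (by omega)
      have a1 := hq' 2 1 (by omega) (by omega)
      have a2 := hq' 2 2 (by omega) (by omega)
      have a3 : |β| ^ 2 ≤ S ^ 2 := pow_le_pow_left₀ (abs_nonneg _) b0 2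
      have a4 : S ≤ S ^ 2 := le_self_pow₀ hS1 (by norm_num)
      have a5 : 1 ≤ S ^ 2 := one_le_pow₀ hS1
      calc |q 2 0 + q 2 1 * β + q 2 2 * β ^ 2| ≤ |q 2 0| + |q 2 1 * β| + |q 2 2 * β ^ 2| := abs_add_three _ _ _
        _ = |q 2 0| + |q 2 1| * |β| + |q 2 2| * |β| ^ 2 := by rw [abs_mul, abs_mul, abs_pow]
        _ ≤ A + A * S + A * S ^ 2 := by gcongr
        _ ≤ A * (3 * S ^ 2) := by nlinarith
    have hD0 : 0 < |D| := abs_pos.2 hDne
    rw [hγ, abs_div, abs_neg, div_le_iff₀ hD0]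
    have k2 : A * (3 * S ^ 2) ≤ G * (1 / K) := by
      rw [hG, mul_comm K, mul_assoc, mul_one_div_cancel hK0.ne', mul_one]
      have k3 : 3 * S ^ 2 ≤ (n + 1 : ℝ) ^ 2 * S ^ n := by
        have k4 : S ^ 2 ≤ S ^ n := pow_le_pow_right₀ hS1 (by omega)
        have k5 : (4 : ℝ) ≤ n := by exact_mod_cast hn
        have k6 : (3 : ℝ) ≤ (n + 1 : ℝ) ^ 2 := by nlinarith
        exact mul_le_mul k6 k4 (by positivity) (by positivity)
      have k4 : A * (3 * S ^ 2) ≤ A * ((n + 1 : ℝ) ^ 2 * S ^ n) := mul_le_mul_of_nonneg_left k3 (by linarith)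
      have k5 : 0 ≤ 3 * A * K * S := by positivity
      linarith
    exact k1.trans (k2.trans (mul_le_mul_of_nonneg_left hDd (by linarith)))
  have hfin := det_small G L X h γ β t x₀ x₁ x₂ y₀ y₁ y₂ (by linarith) hGL hL1 hh hX hγG N0.1 N1.1 N2.1 r0 r1 r2 D1 D2 D3
  have hint : |(x₁ - x₀) * (y₂ - y₀) - (x₂ - x₀) * (y₁ - y₀)| < 1 := by exact_mod_cast hfin
  have h0 := Int.abs_lt_one_iff.1 hint
  linarith

theorem col (n : ℕ) (hn : 4 ≤ n) : ∃ κ : ℕ, ColS n κ := ⟨_, col_ex n (3 * n + 1) hn (exp_ex n (by omega))⟩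

end Pool.Agent.H82.TE
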