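import Pool.Agent.H82.TE.Mid
import Pool.Agent.H8.VX.Far
import Pool.Agent.H8.VX.Vec
import Pool.Agent.H82.TO.As4

/-! # [H82 TE FRE] The points beyond `(B H)^(2500 n^4)`, `j = 1`, explicit, by helper72's and helper8's count -/

namespace Pool.Agent.H82.TE

open Finset MvPolynomial Pool.Agent.H8.AA Pool.Agent.H88.A2 Pool.Agent.H88.TU Pool.Agent.H82.TO

private theorem co0 {k : ℕ} (c : Ix k → ℤ) {a b : ℕ} (h : k < a + b) : co c a b = 0 := by
  unfold co
  rw [dif_neg (by omega)]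

private theorem card_bd {α β : Type*} [DecidableEq β] (T : Finset α) (f : α → β) (M N : ℝ) (hM : 0 ≤ M)
    (h1 : ((T.image f).card : ℝ) ≤ N) (h2 : ∀ b ∈ T.image f, ((T.filter (fun a => f a = b)).card : ℝ) ≤ M) :
    (T.card : ℝ) ≤ N * M := by
  rw [Finset.card_eq_sum_card_image f T]
  push_cast
  calc ∑ b ∈ T.image f, ((T.filter (fun a => f a = b)).card : ℝ) ≤ ∑ b ∈ T.image f, M := Finset.sum_le_sum h2
    _ = (T.image f).card * M := by rw [Finset.sum_const, nsmul_eq_mul]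
    _ ≤ N * M := mul_le_mul_of_nonneg_right h1 hM

theorem fre (n : ℕ) (hn : 4 ≤ n) (G : MvPolynomial (Fin 2) ℤ) (h : Hyp0 n 1 G) (B H : ℕ) (hB : 2 ≤ B)
    (hGB : ∀ m, |G.coeff m| + 1 ≤ (B : ℤ)) (hH : 1 ≤ H) (T : Finset (Ix 1 → ℤ))
    (hT : ∀ c ∈ T, (∀ p, |c p| ≤ (H : ℤ)) ∧ ∃ P : Fin 2 → ℤ, eval P (G + pol c) = 0 ∧
      ∃ i, ((B * H : ℕ) : ℤ) ^ (2500 * n ^ 4) < |P i|) :
    (T.card : ℝ) ≤ 3240 * (n : ℝ) ^ 4 * ((H : ℝ) ^ 2 * (H : ℝ) ^ (1 / (n : ℝ))) := by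
  classical
  have hH' : (1 : ℝ) ≤ H := by exact_mod_cast hH
  have hir : Ir n (Pool.Agent.H88.A2.ar G) := Pool.Agent.H8.VX.ir_ar (by omega) h.irr
  have hBH : H ≤ B * H := Nat.le_mul_of_pos_left H (by omega)
  have hBH2 : 2 ≤ B * H := le_trans hB (Nat.le_mul_of_pos_right B (by omega))
  have key : ∀ c : Ix 1 → ℤ, ∃ P : ℤ × ℤ, c ∈ T → ((B * H : ℕ) : ℤ) ^ (2500 * n ^ 4) < max |P.1| |P.2| ∧
      ev n (Pool.Agent.H88.A2.ar G) P.1 P.2 + ev 1 (co c) P.1 P.2 = 0 := by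
    intro c
    by_cases hc : c ∈ T
    swap
    · exact ⟨0, fun h => absurd h hc⟩
    obtain ⟨hb, P, hP, i, hi⟩ := hT c hc
    refine ⟨(P 0, P 1), fun _ => ⟨?_, ?_⟩⟩
    · fin_cases i
      · exact lt_of_lt_of_le hi (le_max_left _ _)
      · exact lt_of_lt_of_le hi (le_max_right _ _)
    · have h5 := (zer_iff G c P).1 hP
      have h6 := ar_ev h.deg P
      have hvec : ![P 0, P 1] = P := by
        funext i
        fin_cases i <;> rfl
      show ev n (Pool.Agent.H88.A2.ar G) (P 0) (P 1) + ev 1 (co c) (P 0) (P 1) = 0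
      rw [h5, h6, hvec]
      ring
  choose Pc q using key
  obtain ⟨f, hf⟩ : ∃ f : (Ix 1 → ℤ) → (ℤ × ℤ), f = fun c => (co c 1 0, co c 0 1) := ⟨_, rfl⟩
  have hbd : ∀ c ∈ T, |co c 1 0| ≤ (H : ℤ) ∧ |co c 0 1| ≤ (H : ℤ) := by
    intro c hc
    refine ⟨?_, ?_⟩
    · rw [co_of_le c (by omega : 1 + 0 ≤ 1)]
      exact (hT c hc).1 _
    · rw [co_of_le c (by omega : 0 + 1 ≤ 1)]
      exact (hT c hc).1 _
  have hI : ((T.image f).card : ℝ) ≤ (3 * (H : ℝ)) ^ 2 := by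
    have e1 : T.image f ⊆ Finset.Icc (-(H : ℤ)) H ×ˢ Finset.Icc (-(H : ℤ)) H := by
      intro p hp
      obtain ⟨c, hc, rfl⟩ := Finset.mem_image.1 hp
      rw [hf]
      simp only [Finset.mem_product, Finset.mem_Icc]
      rw [← abs_le, ← abs_le]
      exact hbd c hc
    have e2 := Finset.card_le_card e1
    rw [Finset.card_product, Int.card_Icc] at e2
    have e3 : ((H : ℤ) + 1 - -(H : ℤ)).toNat = 2 * H + 1 := by omega
    rw [e3] at e2
    have e5 : ((T.image f).card : ℝ) ≤ (2 * (H : ℝ) + 1) * (2 * (H : ℝ) + 1) := by exact_mod_cast e2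
    refine e5.trans ?_
    nlinarith
  have hHn : (1 : ℝ) ≤ (H : ℝ) ^ (1 / (n : ℝ)) := Real.one_le_rpow hH' (by positivity)
  have hF : ∀ b ∈ T.image f, ((T.filter (fun c => f c = b)).card : ℝ) ≤ 360 * (n : ℝ) ^ 4 * (H : ℝ) ^ (1 / (n : ℝ)) := by
    intro v hv
    obtain ⟨c₀, hc₀, rfl⟩ := Finset.mem_image.1 hv
    obtain ⟨ha, hb⟩ := hbd c₀ hc₀
    obtain ⟨a, haa⟩ : ∃ a, a = co c₀ 1 0 := ⟨_, rfl⟩
    obtain ⟨b, hbb⟩ : ∃ b, b = co c₀ 0 1 := ⟨_, rfl⟩
    rw [← haa] at ha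
    rw [← hbb] at hb
    obtain ⟨U, hU⟩ : ∃ U, U = T.filter (fun c => f c = f c₀) := ⟨_, rfl⟩
    rw [← hU]
    have hUm : ∀ c ∈ U, c ∈ T ∧ co c 1 0 = a ∧ co c 0 1 = b := by
      intro c hc
      rw [hU, Finset.mem_filter, hf] at hc
      simp only [Prod.mk.injEq] at hc
      exact ⟨hc.1, by rw [haa]; exact hc.2.1, by rw [hbb]; exact hc.2.2⟩
    have hinj : Set.InjOn Pc U := by
      intro c hc c' hc' hPP
      obtain ⟨hcT, h1, h2⟩ := hUm c hc
      obtain ⟨hcT', h1', h2'⟩ := hUm c' hc'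
      have h3 := (q c hcT).2
      have h3' := (q c' hcT').2
      rw [← hPP] at h3'
      rw [ev_one] at h3 h3'
      refine ix_ext ?_ (h1.trans h1'.symm) (h2.trans h2'.symm)
      rw [h1, h2] at h3
      rw [h1', h2'] at h3'
      linarith
    rw [← Finset.card_image_of_injOn hinj]
    obtain ⟨c', hc'⟩ : ∃ c' : Ix 1 → ℤ, c' = vc 1 (fun i j => if i = 1 then a else if j = 1 then b else 0) := ⟨_, rfl⟩
    refine Pool.Agent.H8.VX.farx hn hBH2 hH hBH (ad (Pool.Agent.H88.A2.ar G) c') ?_ ?_ (U.image Pc) ?_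
    · intro i j hij
      have h1 : |co c' i j| ≤ (H : ℤ) := by
        by_cases hh : i + j ≤ 1
        · rw [hc', co_vc _ _ hh]
          show |if i = 1 then a else if j = 1 then b else 0| ≤ (H : ℤ)
          split_ifs
          · exact ha
          · exact hb
          · rw [abs_zero]; positivity
        · rw [co0 c' (by omega), abs_zero]
          positivity
      have h2 : |Pool.Agent.H88.A2.ar G i j| + 1 ≤ (B : ℤ) := hGB _
      have h3 : |ad (Pool.Agent.H88.A2.ar G) c' i j| ≤ |Pool.Agent.H88.A2.ar G i j| + |co c' i j| := abs_add_le _ _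
      have h4 : (B : ℤ) - 1 + H ≤ B * H := by
        have h5 : (2 : ℤ) ≤ B := by exact_mod_cast hB
        have h6 : (1 : ℤ) ≤ H := by exact_mod_cast hH
        nlinarith
      push_cast
      linarith
    · refine ⟨?_, ?_⟩
      · have h1 : ad (Pool.Agent.H88.A2.ar G) c' 0 n = Pool.Agent.H88.A2.ar G 0 n := by
          unfold ad
          rw [co0 c' (by omega), add_zero]
        rw [h1]
        exact hir.1
      · rw [fm_ad' _ c' (by omega : 1 < n)]
        exact hir.2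
    · intro p hp
      obtain ⟨c, hc, rfl⟩ := Finset.mem_image.1 hp
      obtain ⟨hcT, h1, h2⟩ := hUm c hc
      obtain ⟨h3, h4⟩ := q c hcT
      refine ⟨h3, ?_⟩
      rw [ev_ad' (by omega : 1 ≤ n), hc', ev_vc, ev_one]
      simp only [if_true, zero_ne_one, if_false]
      rw [ev_one, h1, h2] at h4
      have h5 : ev n (Pool.Agent.H88.A2.ar G) (Pc c).1 (Pc c).2 + (0 + a * (Pc c).1 + b * (Pc c).2) = -co c 0 0 := by linarith
      rw [h5, abs_neg, co_of_le c (by omega : 0 + 0 ≤ 1)]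
      exact (hT c hcT).1 _
  have hfin := card_bd T f _ _ (by positivity) hI hF
  refine hfin.trans (le_of_eq ?_)
  ring

end Pool.Agent.H82.TE
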