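import Pool.Agent.H82.TE.Sta
import Pool.Agent.H12.ON.Fam
import Pool.Agent.H2.AA.Sng
import Pool.Agent.H88.A2.Spr
import Pool.Agent.H88.A2.Spb

/-! # [H82 TE FRG] few lower parts with an integer zero beyond `(B H)^E`, with a constant which depends on `n` only (helper96)

The proofs of `H88.A2.lrg2` (helper88) and `H88.A2.lrgs` (helper12), with the constant in the statement. -/

namespace Pool.Agent.H82.TE.Fra

open MvPolynomial Pool.Agent.H8.AA Pool.Agent.H88.A2

private theorem xe (a b : ℕ) : ((Finsupp.single (0 : Fin 2) a + Finsupp.single 1 b : Fin 2 →₀ ℕ) 0 = a) ∧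
    ((Finsupp.single (0 : Fin 2) a + Finsupp.single 1 b : Fin 2 →₀ ℕ) 1 = b) := by
  constructor <;> simp

private theorem deg2 (m : Fin 2 →₀ ℕ) : m.degree = m 0 + m 1 := by
  rw [Finsupp.degree_eq_sum, Fin.sum_univ_two]

private theorem sum2 (m : Fin 2 →₀ ℕ) : (m.sum fun _ e => e) = m 0 + m 1 := by
  rw [Finsupp.sum_fintype _ _ (by simp), Fin.sum_univ_two]

private theorem pinj {n : ℕ} {c d : Ix n → ℤ} (h : pol c = pol d) : c = d := by
  funext p
  have h1 := congrArg (coeff (Finsupp.single 0 p.1.1.val + Finsupp.single 1 p.1.2.val)) h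
  rw [pol_coeff, pol_coeff, (xe _ _).1, (xe _ _).2, co_of_le _ p.2, co_of_le _ p.2] at h1
  exact h1

private theorem ix_eq {n a b a' b' : ℕ} {h : a + b ≤ n} {h' : a' + b' ≤ n} (he : ix a b h = ix a' b' h') :
    a = a' ∧ b = b' := by
  have h3 := congrArg (fun p : Ix n => (p.1.1.val, p.1.2.val)) he
  simpa only [ix, Prod.mk.injEq] using h3

/-- vectors which differ in one place -/
private theorem pol_one {n : ℕ} {c d : Ix n → ℤ} (a b : ℕ) (hab : a + b ≤ n)
    (h : ∀ i, i ≠ ix a b hab → d i = c i) :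
    pol d = pol c + monomial (Finsupp.single 0 a + Finsupp.single 1 b) (d (ix a b hab) - c (ix a b hab)) := by
  ext m
  rw [coeff_add, pol_coeff, pol_coeff, coeff_monomial]
  by_cases hm : Finsupp.single 0 a + Finsupp.single 1 b = m
  · rw [if_pos hm, ← hm, (xe _ _).1, (xe _ _).2, co_of_le _ hab, co_of_le _ hab]
    ring
  · rw [if_neg hm, add_zero]
    unfold co
    split_ifs with h1
    · refine h _ (fun h2 => hm ?_)
      obtain ⟨h3, h4⟩ := ix_eq h2
      ext i
      fin_cases i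
      · show (Finsupp.single (0 : Fin 2) a + Finsupp.single 1 b : Fin 2 →₀ ℕ) 0 = m 0
        rw [(xe _ _).1, h3]
      · show (Finsupp.single (0 : Fin 2) a + Finsupp.single 1 b : Fin 2 →₀ ℕ) 1 = m 1
        rw [(xe _ _).2, h4]
    · rfl

private theorem hcn {n j : ℕ} (hj : j < n) (G : MvPolynomial (Fin 2) ℤ) (c : Ix j → ℤ) :
    homogeneousComponent n (G + pol c) = homogeneousComponent n G := by
  rw [map_add, homogeneousComponent_eq_zero n (pol c) (lt_of_le_of_lt (Pool.Agent.H8.AA.pol_deg c) hj), add_zero]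

private theorem td_le {n j : ℕ} (hj : j < n) {G : MvPolynomial (Fin 2) ℤ} (hG : G.totalDegree ≤ n) (c : Ix j → ℤ) :
    (G + pol c).totalDegree ≤ n :=
  (totalDegree_add _ _).trans (max_le hG ((Pool.Agent.H8.AA.pol_deg c).trans hj.le))

private theorem cf_le {j B H : ℕ} (hB : 2 ≤ B) (hH : 1 ≤ H) {G : MvPolynomial (Fin 2) ℤ}
    (hG : ∀ m, |G.coeff m| + 1 ≤ (B : ℤ)) {c : Ix j → ℤ} (hc : ∀ p, |c p| ≤ (H : ℤ)) (m : Fin 2 →₀ ℕ) :
    |(G + pol c).coeff m| ≤ ((B * H : ℕ) : ℤ) := by
  have h1 : |(pol c).coeff m| ≤ (H : ℤ) := by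
    rw [pol_coeff]
    unfold co
    split_ifs with h
    · exact hc _
    · simp
  rw [coeff_add]
  have h2 := hG m
  have h3 := abs_add_le (G.coeff m) ((pol c).coeff m)
  have h4 : (B : ℤ) - 1 + H ≤ B * H := by
    have h5 : (2 : ℤ) ≤ B := by exact_mod_cast hB
    have h6 : (1 : ℤ) ≤ H := by exact_mod_cast hH
    nlinarith
  push_cast
  linarith

/-- some monomial of degree `n - 1 ≥ 2` is not in the span of two polynomials -/
private theorem ex_mono {n : ℕ} (hn : 3 ≤ n) (u v : MvPolynomial (Fin 2) ℚ) :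
    ∃ i < n, ∀ w₀ w₁ : ℚ, monomial (Finsupp.single 0 (n - 1 - i) + Finsupp.single 1 i) (1 : ℚ) ≠ C w₀ * u + C w₁ * v := by
  by_contra hcon
  push Not at hcon
  have h3 : ∀ i : Fin 3, ∃ w₀ w₁ : ℚ, monomial (Finsupp.single 0 (n - 1 - i) + Finsupp.single 1 (i : ℕ)) (1 : ℚ) =
      C w₀ * u + C w₁ * v := fun i => hcon i (by omega)
  choose w₀ w₁ hw using h3
  obtain ⟨W, hW⟩ : ∃ W : Submodule ℚ (MvPolynomial (Fin 2) ℚ), W = Submodule.span ℚ {u, v} := ⟨_, rfl⟩
  have hmem : ∀ i : Fin 3, monomial (Finsupp.single 0 (n - 1 - i) + Finsupp.single 1 (i : ℕ)) (1 : ℚ) ∈ W := by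
    intro i
    rw [hw i, hW, Submodule.mem_span_pair]
    exact ⟨w₀ i, w₁ i, by rw [C_mul', C_mul']⟩
  have hli : LinearIndependent ℚ (fun i : Fin 3 => (⟨_, hmem i⟩ : W)) := by
    apply LinearIndependent.of_comp W.subtype
    have h4 : LinearIndependent ℚ (fun i : Fin 3 =>
        monomial (Finsupp.single 0 (n - 1 - i) + Finsupp.single 1 (i : ℕ) : Fin 2 →₀ ℕ) (1 : ℚ)) := by
      have h5 := (basisMonomials (Fin 2) ℚ).linearIndependent.comp
        (fun i : Fin 3 => (Finsupp.single 0 (n - 1 - i) + Finsupp.single 1 (i : ℕ) : Fin 2 →₀ ℕ)) (by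
          intro a b hab
          have h6 := DFunLike.congr_fun hab 1
          simp only at h6
          rw [(xe _ _).2, (xe _ _).2] at h6
          exact Fin.ext h6)
      have h6 : (⇑(basisMonomials (Fin 2) ℚ) ∘ fun i : Fin 3 =>
          (Finsupp.single 0 (n - 1 - i) + Finsupp.single 1 (i : ℕ) : Fin 2 →₀ ℕ)) = fun i : Fin 3 =>
          monomial (Finsupp.single 0 (n - 1 - i) + Finsupp.single 1 (i : ℕ) : Fin 2 →₀ ℕ) (1 : ℚ) := by
        funext i
        rw [Function.comp_apply, coe_basisMonomials]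
      rw [h6] at h5
      exact h5
    exact h4
  have hfin : Module.Finite ℚ W := by
    rw [hW]
    exact Module.Finite.iff_fg.2 (Submodule.fg_span (by simp))
  have h5 := hli.fintype_card_le_finrank
  rw [Fintype.card_fin, hW] at h5
  have h6 : Module.finrank ℚ (Submodule.span ℚ ({u, v} : Set (MvPolynomial (Fin 2) ℚ))) ≤ 2 := by
    classical
    have h7 := finrank_span_finset_le_card (R := ℚ) ({u, v} : Finset (MvPolynomial (Fin 2) ℚ))
    unfold Set.finrank at h7
    rw [Finset.coe_pair] at h7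
    exact h7.trans Finset.card_le_two
  omega

/-- the singular ones -/
private theorem sing {n j : ℕ} {G : MvPolynomial (Fin 2) ℤ} (hG : Hyp n j G) {H : ℕ} (T : Finset (Ix j → ℤ))
    (hT : ∀ c ∈ T, (∀ p, |c p| ≤ (H : ℤ)) ∧ ¬ H12.ON.Smooth (G + pol c)) :
    T.card ≤ (2 * n) ^ 2 * (2 * H + 1) ^ (Fintype.card (Ix j) - 1) := by
  classical
  have hj := hG.hjn
  have h4 := hG.hn
  have hmain := fib ({ix 0 0 (by omega)} : Finset (Ix j)) H ((2 * n) ^ 2) T (fun c hc => (hT c hc).1) ?_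
  · rw [Finset.card_singleton] at hmain
    exact hmain
  · intro c hc S hS
    have hirr : Irreducible (map (Int.castRingHom ℚ) (homogeneousComponent n (G + pol c))) := by
      rw [hcn hj]
      exact hG.irr
    have h1 := H2.AA.sng (by omega : 2 ≤ n) (G + pol c) (td_le hj hG.deg c) hirr
    have h2 : ((S.image (fun d => d (ix 0 0 (by omega)) - c (ix 0 0 (by omega))) : Finset ℤ) : Set ℤ) ⊆
        {τ : ℤ | ∃ a b : ℂ, aeval ![a, b] (G + pol c + C τ) = 0 ∧ aeval ![a, b] (pderiv 0 (G + pol c)) = 0 ∧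
          aeval ![a, b] (pderiv 1 (G + pol c)) = 0} := by
      intro τ hτ
      rw [Finset.mem_coe, Finset.mem_image] at hτ
      obtain ⟨d, hd, rfl⟩ := hτ
      obtain ⟨hdS, hdc⟩ := hS d hd
      have hpa := pol_one (c := c) (d := d) 0 0 (by omega) (fun i hi => hdc i (by simpa using hi))
      have hC : monomial (Finsupp.single 0 0 + Finsupp.single 1 0 : Fin 2 →₀ ℕ) (d (ix 0 0 (by omega)) - c (ix 0 0 (by omega))) =
          (C (d (ix 0 0 (by omega)) - c (ix 0 0 (by omega))) : MvPolynomial (Fin 2) ℤ) := by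
        rw [Finsupp.single_zero, Finsupp.single_zero, add_zero]
        rfl
      rw [hC] at hpa
      have h3 := (hT d hdS).2
      unfold H12.ON.Smooth at h3
      push Not at h3
      obtain ⟨a, b, k1, k2, k3⟩ := h3
      rw [hpa, ← add_assoc] at k1 k2 k3
      rw [map_add (pderiv _) (G + pol c), pderiv_C, add_zero] at k2 k3
      exact ⟨a, b, k1, k2, k3⟩
    have h4 := (Set.encard_le_encard h2).trans h1
    rw [Set.encard_coe_eq_coe_finsetCard, Finset.card_image_of_injOn] at h4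
    · exact_mod_cast h4
    · intro d hd e he hde
      have h5 : d (ix 0 0 (by omega)) = e (ix 0 0 (by omega)) := by
        have : d (ix 0 0 (by omega)) - c (ix 0 0 (by omega)) = e (ix 0 0 (by omega)) - c (ix 0 0 (by omega)) := hde
        omega
      funext i
      by_cases hi : i = ix 0 0 (by omega)
      · rw [hi]
        exact h5
      · rw [(hS d hd).2 i (by simpa using hi), (hS e he).2 i (by simpa using hi)]

/-- from `family`: the smooth `G + pol d`, `d ∈ S`, near a fixed polynomial `G₀` -/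
private theorem fam_card {n E j B H : ℕ} {G G₀ : MvPolynomial (Fin 2) ℤ}
    (hE : {p : MvPolynomial (Fin 2) ℤ × (Fin 2 → ℤ) | (p.1 - G₀).totalDegree ≤ n - 2 ∧ H12.ON.Smooth p.1 ∧
      eval p.2 p.1 = 0 ∧ ∃ H : ℕ, 2 ≤ H ∧ (∀ m, |p.1.coeff m| ≤ (H : ℤ)) ∧
        ∃ i, (H : ℤ) ^ E < |p.2 i|}.encard ≤ n)
    (hB : 2 ≤ B) (hH : 1 ≤ H) (hG : ∀ m, |G.coeff m| + 1 ≤ (B : ℤ)) (S : Finset (Ix j → ℤ))
    (hS : ∀ c ∈ S, (∀ p, |c p| ≤ (H : ℤ)) ∧ H12.ON.Smooth (G + pol c) ∧ (G + pol c - G₀).totalDegree ≤ n - 2 ∧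
      ∃ P : Fin 2 → ℤ, eval P (G + pol c) = 0 ∧ ∃ i, ((B * H : ℕ) : ℤ) ^ E < |P i|) : S.card ≤ n := by
  classical
  have hex : ∀ c ∈ S, ∃ P : Fin 2 → ℤ, eval P (G + pol c) = 0 ∧ ∃ i, ((B * H : ℕ) : ℤ) ^ E < |P i| :=
    fun c hc => (hS c hc).2.2.2
  choose! P hP using hex
  have hBH : 2 ≤ B * H := by nlinarith
  have h2 : ((S.image (fun c => (G + pol c, P c)) : Finset _) : Set (MvPolynomial (Fin 2) ℤ × (Fin 2 → ℤ))) ⊆
      {p : MvPolynomial (Fin 2) ℤ × (Fin 2 → ℤ) | (p.1 - G₀).totalDegree ≤ n - 2 ∧ H12.ON.Smooth p.1 ∧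
        eval p.2 p.1 = 0 ∧ ∃ H : ℕ, 2 ≤ H ∧ (∀ m, |p.1.coeff m| ≤ (H : ℤ)) ∧
          ∃ i, (H : ℤ) ^ E < |p.2 i|} := by
    intro p hp
    rw [Finset.mem_coe, Finset.mem_image] at hp
    obtain ⟨c, hc, rfl⟩ := hp
    exact ⟨(hS c hc).2.2.1, (hS c hc).2.1, (hP c hc).1, B * H, hBH, cf_le hB hH hG (hS c hc).1, (hP c hc).2⟩
  have h3 := (Set.encard_le_encard h2).trans hE
  rw [Set.encard_coe_eq_coe_finsetCard, Finset.card_image_of_injective] at h3
  · exact_mod_cast h3
  · intro a b h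
    exact pinj (add_left_cancel (Prod.ext_iff.1 h).1)

theorem lrg2u (n : ℕ) (hn : 4 ≤ n) : ∃ E : ℕ, ∀ (j : ℕ) (G : MvPolynomial (Fin 2) ℤ), Hyp n j G →
    ∀ (B H : ℕ), 2 ≤ B → (∀ m, |G.coeff m| + 1 ≤ (B : ℤ)) → 1 ≤ H → ∀ T : Finset (Ix j → ℤ),
    (∀ c ∈ T, (∀ p, |c p| ≤ (H : ℤ)) ∧ ∃ P : Fin 2 → ℤ, eval P (G + pol c) = 0 ∧ ∃ i, ((B * H : ℕ) : ℤ) ^ E < |P i|) →
    (T.card : ℝ) ≤ (((2 * n) ^ 2 + (n + 1) : ℕ) : ℝ) * (2 * (H : ℝ) + 1) ^ (Fintype.card (Ix j) - 1) := by
  classical
  obtain ⟨E, hE⟩ := H12.ON.family n hn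
  refine ⟨E, fun j G hG => ?_⟩
  intro B H hB hGB hH T hT
  have hj := hG.hjn
  have hirr : ∀ c : Ix j → ℤ, Irreducible (map (Int.castRingHom ℚ) (homogeneousComponent n (G + pol c))) := by
    intro c
    rw [hcn hj]
    exact hG.irr
  obtain ⟨T₁, hT₁⟩ : ∃ T₁, T₁ = T.filter (fun c => ¬ H12.ON.Smooth (G + pol c)) := ⟨_, rfl⟩
  obtain ⟨T₂, hT₂⟩ : ∃ T₂, T₂ = T.filter (fun c => H12.ON.Smooth (G + pol c)) := ⟨_, rfl⟩
  have hsum : T.card = T₂.card + T₁.card := by
    rw [hT₁, hT₂]
    exact (Finset.card_filter_add_card_filter_not _).symm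
  have c1 : T₁.card ≤ (2 * n) ^ 2 * (2 * H + 1) ^ (Fintype.card (Ix j) - 1) := by
    refine sing hG T₁ (fun c hc => ?_)
    rw [hT₁] at hc
    obtain ⟨h1, h2⟩ := Finset.mem_filter.1 hc
    exact ⟨(hT c h1).1, h2⟩
  have h2T : ∀ c ∈ T₂, (∀ p, |c p| ≤ (H : ℤ)) ∧ H12.ON.Smooth (G + pol c) ∧
      ∃ P : Fin 2 → ℤ, eval P (G + pol c) = 0 ∧ ∃ i, ((B * H : ℕ) : ℤ) ^ E < |P i| := by
    intro c hc
    rw [hT₂] at hc
    obtain ⟨h1, h2⟩ := Finset.mem_filter.1 hc
    exact ⟨(hT c h1).1, h2, (hT c h1).2⟩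
  have hpos : 1 ≤ (2 * H + 1) ^ (Fintype.card (Ix j) - 1) := Nat.one_le_pow _ _ (by omega)
  have c2 : T₂.card ≤ (n + 1) * (2 * H + 1) ^ (Fintype.card (Ix j) - 1) := by
    rcases Nat.lt_or_ge (j + 1) n with hjn | hjn
    · -- `j + 2 ≤ n`
      have h1 : T₂.card ≤ n := by
        refine fam_card (hE G hG.deg hG.irr (hG.span (by omega))) hB hH hGB T₂ (fun c hc => ?_)
        obtain ⟨k1, k2, k3⟩ := h2T c hc
        refine ⟨k1, k2, ?_, k3⟩
        rw [add_sub_cancel_left]
        exact (Pool.Agent.H8.AA.pol_deg c).trans (by omega)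
      nlinarith
    · -- `j = n - 1`
      have hjn' : j + 1 = n := by omega
      obtain ⟨f, hf⟩ : ∃ f, f = map (Int.castRingHom ℚ) (homogeneousComponent n G) := ⟨_, rfl⟩
      obtain ⟨i, hi, hmono⟩ := ex_mono (n := n) (by omega) (pderiv 0 f) (pderiv 1 f)
      have hij : (n - 1 - i) + i ≤ j := by omega
      obtain ⟨Ta, hTa⟩ : ∃ Ta, Ta = T₂.filter (fun c => ∃ w : Fin 2 → ℚ,
        map (Int.castRingHom ℚ) (homogeneousComponent (n - 1) (G + pol c)) = ∑ i, C (w i) * pderiv i f) := ⟨_, rfl⟩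
      obtain ⟨Tb, hTb⟩ : ∃ Tb, Tb = T₂.filter (fun c => ¬ ∃ w : Fin 2 → ℚ,
        map (Int.castRingHom ℚ) (homogeneousComponent (n - 1) (G + pol c)) = ∑ i, C (w i) * pderiv i f) := ⟨_, rfl⟩
      have hsum2 : T₂.card = Ta.card + Tb.card := by
        rw [hTa, hTb]
        exact (Finset.card_filter_add_card_filter_not _).symm
      have ca : Ta.card ≤ 1 * (2 * H + 1) ^ (Fintype.card (Ix j) - 1) := by
        have hmain := fib ({ix (n - 1 - i) i hij} : Finset (Ix j)) H 1 Ta (fun c hc => ?_) ?_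
        · rw [Finset.card_singleton] at hmain
          exact hmain
        · rw [hTa] at hc
          exact (h2T c (Finset.mem_filter.1 hc).1).1
        · intro c hc S hS
          have hcS : ∀ d ∈ S, d = c := by
            intro d hd
            obtain ⟨hdT, hdc⟩ := hS d hd
            rw [hTa] at hc hdT
            obtain ⟨w, hw⟩ := (Finset.mem_filter.1 hc).2
            obtain ⟨w', hw'⟩ := (Finset.mem_filter.1 hdT).2
            have hpa := pol_one (c := c) (d := d) (n - 1 - i) i hij (fun p hp => hdc p (by simpa using hp))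
            obtain ⟨δ, hδ⟩ : ∃ δ, δ = d (ix (n - 1 - i) i hij) - c (ix (n - 1 - i) i hij) := ⟨_, rfl⟩
            rw [← hδ] at hpa
            have h7 : δ = 0 := by
              by_contra hne
              have h8 : homogeneousComponent (n - 1) (monomial (Finsupp.single 0 (n - 1 - i) + Finsupp.single 1 i : Fin 2 →₀ ℕ) δ) =
                  monomial (Finsupp.single 0 (n - 1 - i) + Finsupp.single 1 i) δ := by
                ext m
                rw [coeff_homogeneousComponent]
                by_cases hm : Finsupp.single 0 (n - 1 - i) + Finsupp.single 1 i = m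
                · rw [if_pos]
                  rw [← hm, deg2, (xe _ _).1, (xe _ _).2]
                  omega
                · rw [coeff_monomial, if_neg hm]
                  simp
              rw [hpa, ← add_assoc, map_add, h8, map_add, hw, map_monomial, Fin.sum_univ_two, Fin.sum_univ_two] at hw'
              have h9 : (Int.castRingHom ℚ) δ = (δ : ℚ) := rfl
              rw [h9] at hw'
              have hq : (δ : ℚ) ≠ 0 := by exact_mod_cast hne
              refine hmono ((w' 0 - w 0) / δ) ((w' 1 - w 1) / δ) ?_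
              have e1 : monomial (Finsupp.single 0 (n - 1 - i) + Finsupp.single 1 i : Fin 2 →₀ ℕ) (1 : ℚ) =
                  C ((δ : ℚ)⁻¹) * monomial (Finsupp.single 0 (n - 1 - i) + Finsupp.single 1 i) (δ : ℚ) := by
                rw [C_mul_monomial, inv_mul_cancel₀ hq]
              have e2 : monomial (Finsupp.single 0 (n - 1 - i) + Finsupp.single 1 i : Fin 2 →₀ ℕ) (δ : ℚ) =
                  (C (w' 0) - C (w 0)) * pderiv 0 f + (C (w' 1) - C (w 1)) * pderiv 1 f := by
                linear_combination hw'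
              rw [e1, e2, div_eq_inv_mul, div_eq_inv_mul, C_mul, C_mul, C_sub, C_sub]
              ring
            funext p
            by_cases hp : p = ix (n - 1 - i) i hij
            · rw [hp]
              rw [h7] at hδ
              omega
            · exact hdc p (by simpa using hp)
          exact Finset.card_le_one.2 (fun a ha b hb => by rw [hcS a ha, hcS b hb])
      have cb : Tb.card ≤ n * (2 * H + 1) ^ (Fintype.card (Ix j) - 1) := by
        obtain ⟨J, hJ⟩ : ∃ J : Finset (Ix j), J = Finset.univ.filter fun p => p.1.1.val + p.1.2.val ≤ n - 2 := ⟨_, rfl⟩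
        have hJ1 : 1 ≤ J.card := by
          rw [Nat.one_le_iff_ne_zero, Finset.card_ne_zero]
          exact ⟨ix 0 0 (by omega), by simp [hJ, ix]⟩
        have hmain := fib J H n Tb (fun c hc => ?_) ?_
        · refine hmain.trans (Nat.mul_le_mul_left _ (Nat.pow_le_pow_right (by omega) (by omega)))
        · rw [hTb] at hc
          exact (h2T c (Finset.mem_filter.1 hc).1).1
        · intro c hc S hS
          rw [hTb] at hc
          obtain ⟨hc1, hc2⟩ := Finset.mem_filter.1 hc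
          have hspan : ∀ w : Fin 2 → ℚ, map (Int.castRingHom ℚ) (homogeneousComponent (n - 1) (G + pol c)) ≠
              ∑ i, C (w i) * pderiv i (map (Int.castRingHom ℚ) (homogeneousComponent n (G + pol c))) := by
            intro w hw
            rw [hcn hj, ← hf] at hw
            exact hc2 ⟨w, hw⟩
          refine fam_card (hE (G + pol c) (td_le hj hG.deg c) (hirr c) hspan) hB hH hGB S (fun d hd => ?_)
          obtain ⟨hdT, hdc⟩ := hS d hd
          rw [hTb] at hdT
          obtain ⟨k1, k2, k3⟩ := h2T d (Finset.mem_filter.1 hdT).1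
          refine ⟨k1, k2, ?_, k3⟩
          rw [add_sub_add_left_eq_sub]
          unfold totalDegree
          refine Finset.sup_le fun m hm => ?_
          rw [mem_support_iff, coeff_sub, pol_coeff, pol_coeff] at hm
          rw [sum2]
          by_contra h8
          apply hm
          by_cases h9 : m 0 + m 1 ≤ j
          · rw [co_of_le _ h9, co_of_le _ h9, hdc (ix (m 0) (m 1) h9), sub_self]
            intro h10
            rw [hJ, Finset.mem_filter] at h10
            exact h8 h10.2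
          · unfold co
            rw [dif_neg h9, dif_neg h9, sub_self]
      calc T₂.card = Ta.card + Tb.card := hsum2
        _ ≤ 1 * (2 * H + 1) ^ (Fintype.card (Ix j) - 1) + n * (2 * H + 1) ^ (Fintype.card (Ix j) - 1) := Nat.add_le_add ca cb
        _ = (n + 1) * (2 * H + 1) ^ (Fintype.card (Ix j) - 1) := by ring
  have h9 : T.card ≤ ((2 * n) ^ 2 + (n + 1)) * (2 * H + 1) ^ (Fintype.card (Ix j) - 1) := by
    rw [hsum, add_mul, add_comm]
    exact Nat.add_le_add c1 c2
  exact_mod_cast h9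

end Pool.Agent.H82.TE.Fra

namespace Pool.Agent.H82.TE.Frb

open MvPolynomial Pool.Agent.H8.AA Pool.Agent.H88.A2

private theorem s_xe (a b : ℕ) : ((Finsupp.single (0 : Fin 2) a + Finsupp.single 1 b : Fin 2 →₀ ℕ) 0 = a) ∧
    ((Finsupp.single (0 : Fin 2) a + Finsupp.single 1 b : Fin 2 →₀ ℕ) 1 = b) := by
  constructor <;> simp

private theorem s_ix_eq {n a b a' b' : ℕ} {h : a + b ≤ n} {h' : a' + b' ≤ n} (he : ix a b h = ix a' b' h') :
    a = a' ∧ b = b' := by
  have h3 := congrArg (fun p : Ix n => (p.1.1.val, p.1.2.val)) he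
  simpa only [ix, Prod.mk.injEq] using h3

/-- vectors which differ in one place -/
private theorem s_pol_one {n : ℕ} {c d : Ix n → ℤ} (a b : ℕ) (hab : a + b ≤ n)
    (h : ∀ i, i ≠ ix a b hab → d i = c i) :
    pol d = pol c + monomial (Finsupp.single 0 a + Finsupp.single 1 b) (d (ix a b hab) - c (ix a b hab)) := by
  ext m
  rw [coeff_add, pol_coeff, pol_coeff, coeff_monomial]
  by_cases hm : Finsupp.single 0 a + Finsupp.single 1 b = m
  · rw [if_pos hm, ← hm, (s_xe _ _).1, (s_xe _ _).2, co_of_le _ hab, co_of_le _ hab]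
    ring
  · rw [if_neg hm, add_zero]
    unfold co
    split_ifs with h1
    · refine h _ (fun h2 => hm ?_)
      obtain ⟨h3, h4⟩ := s_ix_eq h2
      rw [← h3, ← h4]
      ext i
      fin_cases i
      · exact (s_xe _ _).1
      · exact (s_xe _ _).2
    · rfl

private theorem s_hcn {n j k : ℕ} (hj : j < k) (G : MvPolynomial (Fin 2) ℤ) (c : Ix j → ℤ) :
    homogeneousComponent k (G + pol c) = homogeneousComponent k G := by
  rw [map_add, homogeneousComponent_eq_zero k (pol c) (lt_of_le_of_lt (Pool.Agent.H8.AA.pol_deg c) hj), add_zero]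

private theorem s_td_le {n j : ℕ} (hj : j < n) {G : MvPolynomial (Fin 2) ℤ} (hG : G.totalDegree ≤ n) (c : Ix j → ℤ) :
    (G + pol c).totalDegree ≤ n :=
  (totalDegree_add _ _).trans (max_le hG ((Pool.Agent.H8.AA.pol_deg c).trans hj.le))

private theorem s_cf_le {j B H : ℕ} (hB : 2 ≤ B) (hH : 1 ≤ H) {G : MvPolynomial (Fin 2) ℤ}
    (hG : ∀ m, |G.coeff m| + 1 ≤ (B : ℤ)) {c : Ix j → ℤ} (hc : ∀ p, |c p| ≤ (H : ℤ)) (m : Fin 2 →₀ ℕ) :
    |(G + pol c).coeff m| ≤ ((B * H : ℕ) : ℤ) := by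
  have h1 : |(pol c).coeff m| ≤ (H : ℤ) := by
    rw [pol_coeff]
    unfold co
    split_ifs with h
    · exact hc _
    · simp
  rw [coeff_add]
  have h2 := hG m
  have h3 := abs_add_le (G.coeff m) ((pol c).coeff m)
  have h4 : (B : ℤ) - 1 + H ≤ B * H := by
    have hB' : (2 : ℤ) ≤ B := by exact_mod_cast hB
    have hH' : (1 : ℤ) ≤ H := by exact_mod_cast hH
    nlinarith
  push_cast
  linarith

/-- the constant -/
private theorem s_const {j : ℕ} {G : MvPolynomial (Fin 2) ℤ} {c d : Ix j → ℤ} (h : ∀ i, i ≠ ix 0 0 (by omega) → d i = c i) :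
    G + pol d = G + pol c + C (d (ix 0 0 (by omega)) - c (ix 0 0 (by omega))) := by
  have hpa := s_pol_one (c := c) (d := d) 0 0 (by omega) h
  have hC : monomial (Finsupp.single 0 0 + Finsupp.single 1 0 : Fin 2 →₀ ℕ) (d (ix 0 0 (by omega)) - c (ix 0 0 (by omega))) =
      (C (d (ix 0 0 (by omega)) - c (ix 0 0 (by omega))) : MvPolynomial (Fin 2) ℤ) := by
    rw [Finsupp.single_zero, Finsupp.single_zero, add_zero]
    rfl
  rw [hpa, hC, add_assoc]

private theorem s_eq {j : ℕ} {c d : Ix j → ℤ} (h : ∀ i, i ≠ ix 0 0 (by omega) → d i = c i)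
    (h0 : d (ix 0 0 (by omega)) = c (ix 0 0 (by omega))) : d = c := by
  funext i
  by_cases hi : i = ix 0 0 (by omega)
  · rw [hi]
    exact h0
  · exact h i hi

private theorem s_sing {n j : ℕ} (hn : 4 ≤ n) (hj : j < n) {G : MvPolynomial (Fin 2) ℤ} (hd : G.totalDegree ≤ n)
    (hi : Irreducible (map (Int.castRingHom ℚ) (homogeneousComponent n G))) {H : ℕ} (T : Finset (Ix j → ℤ))
    (hT : ∀ c ∈ T, (∀ p, |c p| ≤ (H : ℤ)) ∧ ¬ H12.ON.Smooth (G + pol c)) :
    T.card ≤ (2 * n) ^ 2 * (2 * H + 1) ^ (Fintype.card (Ix j) - 1) := by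
  classical
  have hmain := fib ({ix 0 0 (by omega)} : Finset (Ix j)) H ((2 * n) ^ 2) T (fun c hc => (hT c hc).1) ?_
  · rw [Finset.card_singleton] at hmain
    exact hmain
  · intro c hc S hS
    have hirr : Irreducible (map (Int.castRingHom ℚ) (homogeneousComponent n (G + pol c))) := by
      rw [s_hcn (n := n) hj]
      exact hi
    have h1 := H2.AA.sng (by omega : 2 ≤ n) (G + pol c) (s_td_le hj hd c) hirr
    have h2 : ((S.image (fun d => d (ix 0 0 (by omega)) - c (ix 0 0 (by omega))) : Finset ℤ) : Set ℤ) ⊆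
        {τ : ℤ | ∃ a b : ℂ, aeval ![a, b] (G + pol c + C τ) = 0 ∧ aeval ![a, b] (pderiv 0 (G + pol c)) = 0 ∧
          aeval ![a, b] (pderiv 1 (G + pol c)) = 0} := by
      intro τ hτ
      rw [Finset.mem_coe, Finset.mem_image] at hτ
      obtain ⟨d, hd, rfl⟩ := hτ
      obtain ⟨hdS, hdc⟩ := hS d hd
      have hpa := s_const (G := G) (c := c) (d := d) (fun i hi => hdc i (by simpa using hi))
      have h3 := (hT d hdS).2
      unfold H12.ON.Smooth at h3
      push Not at h3
      obtain ⟨a, b, k1, k2, k3⟩ := h3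
      rw [hpa] at k1 k2 k3
      rw [map_add (pderiv _) (G + pol c), pderiv_C, add_zero] at k2 k3
      exact ⟨a, b, k1, k2, k3⟩
    have h4 := (Set.encard_le_encard h2).trans h1
    rw [Set.encard_coe_eq_coe_finsetCard, Finset.card_image_of_injOn] at h4
    · exact_mod_cast h4
    · intro d hd e he hde
      have h5 : d (ix 0 0 (by omega)) = e (ix 0 0 (by omega)) := by
        have : d (ix 0 0 (by omega)) - c (ix 0 0 (by omega)) = e (ix 0 0 (by omega)) - c (ix 0 0 (by omega)) := hde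
        omega
      funext i
      by_cases hi : i = ix 0 0 (by omega)
      · rw [hi]
        exact h5
      · rw [(hS d hd).2 i (by simpa using hi), (hS e he).2 i (by simpa using hi)]

/-- `F(-v) = 0` -/
private theorem s_val {j : ℕ} {G : MvPolynomial (Fin 2) ℤ} (v : Fin 2 → ℚ) {H : ℕ} (T : Finset (Ix j → ℤ))
    (hT : ∀ c ∈ T, (∀ p, |c p| ≤ (H : ℤ)) ∧ aeval (fun i => - v i) (G + pol c) = (0 : ℚ)) :
    T.card ≤ (2 * H + 1) ^ (Fintype.card (Ix j) - 1) := by
  classical
  have hmain := fib ({ix 0 0 (by omega)} : Finset (Ix j)) H 1 T (fun c hc => (hT c hc).1) ?_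
  · rw [Finset.card_singleton, one_mul] at hmain
    exact hmain
  · intro c hc S hS
    rw [Finset.card_le_one]
    have key : ∀ d ∈ S, d = c := by
      intro d hd
      have h1 := (hS d hd).2
      have h2 : ∀ i, i ≠ ix 0 0 (by omega) → d i = c i := fun i hi => h1 i (by simpa using hi)
      refine s_eq h2 ?_
      have h3 := (hT d (hS d hd).1).2
      rw [s_const h2, map_add, (hT c hc).2, zero_add, aeval_C] at h3
      have h4 : ((d (ix 0 0 (by omega)) - c (ix 0 0 (by omega)) : ℤ) : ℚ) = 0 := h3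
      have h5 := Int.cast_eq_zero.1 h4
      omega
    intro d hd e he
    rw [key d hd, key e he]

/-- `F_x(-v) = 0` -/
private theorem s_der {j : ℕ} (hj : 1 ≤ j) {G : MvPolynomial (Fin 2) ℤ} (v : Fin 2 → ℚ) {H : ℕ} (T : Finset (Ix j → ℤ))
    (hT : ∀ c ∈ T, (∀ p, |c p| ≤ (H : ℤ)) ∧ aeval (fun i => - v i) (pderiv 0 (G + pol c)) = (0 : ℚ)) :
    T.card ≤ (2 * H + 1) ^ (Fintype.card (Ix j) - 1) := by
  classical
  have hmain := fib ({ix 1 0 (by omega)} : Finset (Ix j)) H 1 T (fun c hc => (hT c hc).1) ?_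
  · rw [Finset.card_singleton, one_mul] at hmain
    exact hmain
  · intro c hc S hS
    rw [Finset.card_le_one]
    have key : ∀ d ∈ S, d = c := by
      intro d hd
      have h1 := (hS d hd).2
      have h2 : ∀ i, i ≠ ix 1 0 (by omega) → d i = c i := fun i hi => h1 i (by simpa using hi)
      have h3 := (hT d (hS d hd).1).2
      have h4 := s_pol_one (c := c) (d := d) 1 0 (by omega) h2
      have h5 : pderiv 0 (G + pol d) = pderiv 0 (G + pol c) + C (d (ix 1 0 (by omega)) - c (ix 1 0 (by omega))) := by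
        rw [h4, ← add_assoc, map_add, pderiv_monomial]
        congr 1
        simp
      rw [h5, map_add, (hT c hc).2, zero_add, aeval_C] at h3
      have h6 : ((d (ix 1 0 (by omega)) - c (ix 1 0 (by omega)) : ℤ) : ℚ) = 0 := h3
      have h7 := Int.cast_eq_zero.1 h6
      funext i
      by_cases hi : i = ix 1 0 (by omega)
      · rw [hi]
        omega
      · exact h2 i hi
    intro d hd e he
    rw [key d hd, key e he]

theorem lrgsu (n : ℕ) (hn : 4 ≤ n) : ∃ E : ℕ, ∀ (j : ℕ) (G : MvPolynomial (Fin 2) ℤ), 1 ≤ j → j + 2 ≤ n →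
    G.totalDegree ≤ n → Irreducible (map (Int.castRingHom ℚ) (homogeneousComponent n G)) →
    (∃ v : Fin 2 → ℚ, map (Int.castRingHom ℚ) (homogeneousComponent (n - 1) G) =
      ∑ i, C (v i) * pderiv i (map (Int.castRingHom ℚ) (homogeneousComponent n G))) →
    ∀ (B H : ℕ), 2 ≤ B → (∀ m, |G.coeff m| + 1 ≤ (B : ℤ)) → 1 ≤ H → ∀ T : Finset (Ix j → ℤ),
    (∀ c ∈ T, (∀ p, |c p| ≤ (H : ℤ)) ∧ ∃ P : Fin 2 → ℤ, eval P (G + pol c) = 0 ∧ ∃ i, ((B * H : ℕ) : ℤ) ^ E < |P i|) →
    (T.card : ℝ) ≤ (((2 * n) ^ 2 + (2 + 2 * n) : ℕ) : ℝ) * (2 * (H : ℝ) + 1) ^ (Fintype.card (Ix j) - 1) := by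
  classical
  obtain ⟨E1, hE1⟩ := H12.ON.near_exists n (by omega)
  obtain ⟨E2, hE2⟩ := homr n hn
  refine ⟨E1 + E2, ?_⟩
  intro j G hj hjn hd hirr ⟨v, hv⟩
  intro B H hB hGB hH T hT
  have hBH : 2 ≤ B * H := by nlinarith
  have hpow : ∀ {h : ℕ} {a b : ℕ} {z : ℤ}, 2 ≤ h → a ≤ b → (h : ℤ) ^ b < z → (h : ℤ) ^ a < z := by
    intro h a b z hh hab hz
    have hh1 : (1 : ℤ) ≤ (h : ℤ) := by exact_mod_cast (by omega : 1 ≤ h)
    exact lt_of_le_of_lt (pow_le_pow_right₀ hh1 hab) hz
  have hcn : ∀ c : Ix j → ℤ, homogeneousComponent n (G + pol c) = homogeneousComponent n G :=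
    fun c => s_hcn (n := n) (by omega) G c
  have hcn1 : ∀ c : Ix j → ℤ, homogeneousComponent (n - 1) (G + pol c) = homogeneousComponent (n - 1) G :=
    fun c => s_hcn (n := n) (by omega) G c
  have hdc : ∀ c : Ix j → ℤ, (G + pol c).totalDegree ≤ n := fun c => s_td_le (by omega) hd c
  have hdG : ∀ c : Ix j → ℤ, (G + pol c - G).totalDegree ≤ n - 2 := by
    intro c
    rw [add_sub_cancel_left]
    exact (Pool.Agent.H8.AA.pol_deg c).trans (by omega)
  set T1 := T.filter (fun c => ¬ H12.ON.Smooth (G + pol c)) with hT1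
  set T2 := T.filter (fun c => aeval (fun i => - v i) (G + pol c) = (0 : ℚ)) with hT2
  set T3 := T.filter (fun c => aeval (fun i => - v i) (pderiv 0 (G + pol c)) = (0 : ℚ)) with hT3
  set T4 := T.filter (fun c => H12.ON.Smooth (G + pol c) ∧ aeval (fun i => - v i) (G + pol c) ≠ (0 : ℚ) ∧
    aeval (fun i => - v i) (pderiv 0 (G + pol c)) ≠ (0 : ℚ)) with hT4
  have c1 : T1.card ≤ (2 * n) ^ 2 * (2 * H + 1) ^ (Fintype.card (Ix j) - 1) := by
    refine s_sing hn (by omega) hd hirr T1 fun c hc => ?_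
    have := Finset.mem_filter.1 hc
    exact ⟨(hT c this.1).1, this.2⟩
  have c2 : T2.card ≤ (2 * H + 1) ^ (Fintype.card (Ix j) - 1) := by
    refine s_val (G := G) v T2 fun c hc => ?_
    have := Finset.mem_filter.1 hc
    exact ⟨(hT c this.1).1, this.2⟩
  have c3 : T3.card ≤ (2 * H + 1) ^ (Fintype.card (Ix j) - 1) := by
    refine s_der hj (G := G) v T3 fun c hc => ?_
    have := Finset.mem_filter.1 hc
    exact ⟨(hT c this.1).1, this.2⟩
  have c4 : T4.card ≤ 2 * n * (2 * H + 1) ^ (Fintype.card (Ix j) - 1) := by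
    have hmain := fib ({ix 0 0 (by omega)} : Finset (Ix j)) H (2 * n) T4
      (fun c hc => (hT c (Finset.mem_filter.1 hc).1).1) ?_
    · rw [Finset.card_singleton] at hmain
      exact hmain
    intro c hc S hS
    -- the data of an element
    have key : ∀ d ∈ S, ∃ (θ : ℝ) (P : Fin 2 → ℤ), Polynomial.aeval θ (H12.ON.ftop n G) = 0 ∧ H12.ON.Near θ (P 0) (P 1) ∧
        H12.ON.Good n (G + pol d) ∧ aeval ![P 0, P 1] (G + pol d) = (0 : ℤ) ∧
        ((B * H : ℕ) : ℤ) ^ E2 < max |P 0| |P 1| := by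
      intro d hdS
      obtain ⟨hd4, hdd⟩ := hS d hdS
      obtain ⟨hdT, hsm, hv0, hv1⟩ := Finset.mem_filter.1 hd4
      obtain ⟨hbox, P, hP0, i, hPi⟩ := hT d hdT
      have h8 : ((B * H : ℕ) : ℤ) ^ (E1 + E2) < max |P 0| |P 1| := by
        refine lt_of_lt_of_le hPi ?_
        fin_cases i
        · exact le_max_left _ _
        · exact le_max_right _ _
      have h9 : aeval ![P 0, P 1] (G + pol d) = (0 : ℤ) := by
        have h10 : (![P 0, P 1] : Fin 2 → ℤ) = P := by
          funext j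
          fin_cases j <;> rfl
        have h13 : aeval P (G + pol d) = eval P (G + pol d) := by
          rw [← coe_aeval_eq_eval]
          rfl
        rw [h10, h13]
        exact hP0
      have hl : Irreducible (map (Int.castRingHom ℚ) (homogeneousComponent n (G + pol d))) := by
        rw [hcn]
        exact hirr
      have hvd : map (Int.castRingHom ℚ) (homogeneousComponent (n - 1) (G + pol d)) =
          ∑ i, C (v i) * pderiv i (map (Int.castRingHom ℚ) (homogeneousComponent n (G + pol d))) := by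
        rw [hcn1, hcn]
        exact hv
      have h7 : H12.ON.Good n (G + pol d) :=
        ⟨hdc d, hl, H12.ON.irr_of_smooth (by omega) (hdc d) hl hsm, hsm,
          fun w z hz e => nohs (by omega) (hdc d) hl v hvd hv0 hv1 w z hz e⟩
      obtain ⟨-, -, θ, h11, h12⟩ := hE1 (G + pol d) (B * H) h7.deg h7.lead hBH (fun m => s_cf_le hB hH hGB hbox m)
        (P 0) (P 1) h9 (hpow hBH (by omega) h8)
      have h14 : H12.ON.ftop n (G + pol d) = H12.ON.ftop n G := by
        rw [← H12.ON.deh_hom n (G + pol d), ← H12.ON.deh_hom n G, hcn]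
      rw [h14] at h11
      exact ⟨θ, P, h11, h12, h7, h9, hpow hBH (by omega) h8⟩
    choose! th P k1 k2 k3 k4 k5 using key
    have hg0 : (H12.ON.ftop n G) ≠ 0 := by
      intro h0
      have h1 : homogeneousComponent n (map (Int.castRingHom ℚ) G) = map (Int.castRingHom ℚ) (homogeneousComponent n G) := by
        ext m
        rw [coeff_homogeneousComponent, coeff_map, coeff_map, coeff_homogeneousComponent]
        split_ifs
        · rfl
        · rw [map_zero]
      obtain ⟨-, hirrQ⟩ := H12.ON.deh (by omega : 2 ≤ n) (h1.symm ▸ hirr)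
      have h2 : H12.ON.ftop n (map (Int.castRingHom ℚ) G) = (H12.ON.ftop n G).map (Int.castRingHom ℚ) := by
        unfold H12.ON.ftop
        rw [Polynomial.map_sum]
        refine Finset.sum_congr rfl fun j _ => ?_
        rw [Polynomial.map_monomial, coeff_map]
      rw [h2, h0, Polynomial.map_zero] at hirrQ
      exact hirrQ.ne_zero rfl
    have hinjR : Function.Injective (Int.castRingHom ℝ) := Int.cast_injective
    set R : Finset ℝ := ((H12.ON.ftop n G).map (Int.castRingHom ℝ)).roots.toFinset with hR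
    have hRn : R.card ≤ n := by
      refine (Multiset.toFinset_card_le _).trans ((Polynomial.card_roots' _).trans ?_)
      refine Polynomial.natDegree_map_le.trans ?_
      rw [Polynomial.natDegree_le_iff_coeff_eq_zero]
      intro i hi
      unfold H12.ON.ftop
      rw [Polynomial.finsetSum_coeff]
      simp only [Polynomial.coeff_monomial]
      refine Finset.sum_eq_zero fun x hx => ?_
      rw [if_neg]
      have := Finset.mem_range.1 hx
      omega
    have hmaps : ∀ d ∈ S, th d ∈ R := by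
      intro d hd
      rw [hR, Multiset.mem_toFinset, Polynomial.mem_roots
        ((Polynomial.map_ne_zero_iff hinjR).2 hg0), Polynomial.IsRoot.def, Polynomial.eval_map]
      exact k1 d hd
    have hfib : ∀ θ ∈ S.image th, (S.filter fun d => th d = θ).card ≤ 2 := by
      intro θ _
      by_contra hcon
      push Not at hcon
      obtain ⟨a, ha, b, hb, c', hc', hab, hac, hbc⟩ := Finset.two_lt_card.1 hcon
      rw [Finset.mem_filter] at ha hb hc'
      have hrel : ∀ d e : Ix j → ℤ, d ∈ S → e ∈ S → th d = th e → d ≠ e →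
          (aeval (fun i => - v i) (G + pol e) : ℚ) = - aeval (fun i => - v i) (G + pol d) := by
        intro d e hdS heS hth hde
        have hbd : ∀ d ∈ S, ∀ p, |d p| ≤ (H : ℤ) := fun d hd => (hT d (Finset.mem_filter.1 (hS d hd).1).1).1
        obtain ⟨a, c, w, ha, he⟩ := hE2 G hd hirr (G + pol d) (G + pol e) (B * H) (B * H) (th e) (P d 0) (P d 1)
          (P e 0) (P e 1) (k3 d hdS) (k3 e heS) (hdG d) (hdG e) hBH le_rfl
          (fun m => s_cf_le hB hH hGB (hbd d hdS) m) (fun m => s_cf_le hB hH hGB (hbd e heS) m)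
          (k1 e heS) (hth ▸ k2 d hdS) (k2 e heS) (k4 d hdS) (k4 e heS) (k5 d hdS) (k5 e heS)
        have h2 : ∀ i, i ≠ ix 0 0 (by omega) → e i = d i := by
          intro i hi
          rw [(hS e heS).2 i (by simpa using hi), (hS d hdS).2 i (by simpa using hi)]
        have hl : Irreducible (map (Int.castRingHom ℚ) (homogeneousComponent n (G + pol d))) := by
          rw [hcn]
          exact hirr
        have hvd : map (Int.castRingHom ℚ) (homogeneousComponent (n - 1) (G + pol d)) =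
            ∑ i, C (v i) * pderiv i (map (Int.castRingHom ℚ) (homogeneousComponent n (G + pol d))) := by
          rw [hcn1, hcn]
          exact hv
        rcases penc (by omega : 3 ≤ n) (s_const (G := G) h2) (hdc d) hl v hvd
          (Finset.mem_filter.1 (hS d hdS).1).2.2.2 ha he with h3 | h3
        · exfalso
          rw [s_const (G := G) h2] at h3
          have h4 := left_eq_add.1 h3
          rw [C_eq_zero] at h4
          exact hde (s_eq h2 (by omega)).symm
        · exact h3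
      have r1 := hrel a b ha.1 hb.1 (ha.2.trans hb.2.symm) hab
      have r2 := hrel a c' ha.1 hc'.1 (ha.2.trans hc'.2.symm) hac
      have h2 : ∀ i, i ≠ ix 0 0 (by omega) → c' i = b i := by
        intro i hi
        rw [(hS c' hc'.1).2 i (by simpa using hi), (hS b hb.1).2 i (by simpa using hi)]
      rw [← r1, s_const (G := G) h2, map_add, aeval_C] at r2
      have h4 : ((c' (ix 0 0 (by omega)) - b (ix 0 0 (by omega)) : ℤ) : ℚ) = 0 := by
        have h5 := add_eq_left.1 r2
        exact h5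
      have h5 := Int.cast_eq_zero.1 h4
      exact hbc (s_eq h2 (by omega)).symm
    have h1 := Finset.card_le_mul_card_image S 2 hfib
    have h2 : (S.image th).card ≤ R.card := by
      refine Finset.card_le_card ?_
      intro θ hθ
      obtain ⟨d, hd, rfl⟩ := Finset.mem_image.1 hθ
      exact hmaps d hd
    calc S.card ≤ 2 * (S.image th).card := h1
      _ ≤ 2 * n := Nat.mul_le_mul_left _ (h2.trans hRn)
  have hsub : T ⊆ T1 ∪ T2 ∪ (T3 ∪ T4) := by
    intro c hc
    rw [Finset.mem_union, Finset.mem_union, Finset.mem_union]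
    by_cases s1 : H12.ON.Smooth (G + pol c)
    · by_cases s2 : aeval (fun i => - v i) (G + pol c) = (0 : ℚ)
      · exact Or.inl (Or.inr (Finset.mem_filter.2 ⟨hc, s2⟩))
      · by_cases s3 : aeval (fun i => - v i) (pderiv 0 (G + pol c)) = (0 : ℚ)
        · exact Or.inr (Or.inl (Finset.mem_filter.2 ⟨hc, s3⟩))
        · exact Or.inr (Or.inr (Finset.mem_filter.2 ⟨hc, s1, s2, s3⟩))
    · exact Or.inl (Or.inl (Finset.mem_filter.2 ⟨hc, s1⟩))
  have hcard : T.card ≤ ((2 * n) ^ 2 + (2 + 2 * n)) * (2 * H + 1) ^ (Fintype.card (Ix j) - 1) := by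
    have h1 := Finset.card_le_card hsub
    have h2 := Finset.card_union_le (T1 ∪ T2) (T3 ∪ T4)
    have h3 := Finset.card_union_le T1 T2
    have h4 := Finset.card_union_le T3 T4
    calc T.card ≤ T1.card + T2.card + (T3.card + T4.card) := by omega
      _ ≤ (2 * n) ^ 2 * (2 * H + 1) ^ (Fintype.card (Ix j) - 1) + (2 * H + 1) ^ (Fintype.card (Ix j) - 1) +
          ((2 * H + 1) ^ (Fintype.card (Ix j) - 1) + 2 * n * (2 * H + 1) ^ (Fintype.card (Ix j) - 1)) := by
          exact Nat.add_le_add (Nat.add_le_add c1 c2) (Nat.add_le_add c3 c4)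
      _ = _ := by ring
  exact_mod_cast hcard

end Pool.Agent.H82.TE.Frb

namespace Pool.Agent.H82.TE

open MvPolynomial Pool.Agent.H8.AA Pool.Agent.H88.A2 Pool.Agent.H88.TU

theorem far (n : ℕ) (hn : 4 ≤ n) : ∃ E κ : ℕ, FarS n E κ := by
  obtain ⟨E1, hE1⟩ := Fra.lrg2u n hn
  obtain ⟨E2, hE2⟩ := Frb.lrgsu n hn
  refine ⟨E1 + E2, ((2 * n) ^ 2 + (n + 1)) + ((2 * n) ^ 2 + (2 + 2 * n)), ?_⟩
  intro j G h B H hB hG hH T hT
  have hp : (0 : ℝ) ≤ (2 * (H : ℝ) + 1) ^ (Fintype.card (Ix j) - 1) := by positivity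
  have hBH : (1 : ℤ) ≤ ((B * H : ℕ) : ℤ) := by
    exact_mod_cast Nat.mul_pos (by omega) hH
  have hpow : ∀ {a b : ℕ} {z : ℤ}, a ≤ b → ((B * H : ℕ) : ℤ) ^ b < z → ((B * H : ℕ) : ℤ) ^ a < z :=
    fun hab hz => lt_of_le_of_lt (pow_le_pow_right₀ hBH hab) hz
  by_cases hs : j + 2 ≤ n ∧ ∃ v : Fin 2 → ℚ, map (Int.castRingHom ℚ) (homogeneousComponent (n - 1) G) =
      ∑ i, C (v i) * pderiv i (map (Int.castRingHom ℚ) (homogeneousComponent n G))
  · have h1 := hE2 j G h.hj hs.1 h.deg h.irr hs.2 B H hB hG hH T (fun c hc => by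
      obtain ⟨k1, P, k2, i, k3⟩ := hT c hc
      exact ⟨k1, P, k2, i, hpow (by omega) k3⟩)
    refine h1.trans (mul_le_mul_of_nonneg_right ?_ hp)
    exact_mod_cast Nat.le_add_left _ _
  · have h1 := hE1 j G ⟨h.hn, h.hj, h.hjn, h.deg, h.irr, fun h2 w hw => hs ⟨h2, w, hw⟩⟩ B H hB hG hH T (fun c hc => by
      obtain ⟨k1, P, k2, i, k3⟩ := hT c hc
      exact ⟨k1, P, k2, i, hpow (by omega) k3⟩)
    refine h1.trans (mul_le_mul_of_nonneg_right ?_ hp)
    exact_mod_cast Nat.le_add_right _ _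

end Pool.Agent.H82.TE
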