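import Pool.Agent.H82.TE.Mid

/-! # [H82 TE MIDE] The points between `B^κ₁ H` and `(B H)^E`, one chart, `j = 1`, explicit exponents -/

namespace Pool.Agent.H82.TE

open Finset Polynomial Pool.Agent.H8.AA Pool.Agent.H88.A2 Pool.Agent.H88.TU Pool.Agent.H82.TO

private theorem co0 {k : ℕ} (c : Ix k → ℤ) {a b : ℕ} (h : k < a + b) : co c a b = 0 := by
  unfold co
  rw [dif_neg (by omega)]

private theorem card_bd {α β : Type*} [DecidableEq β] (T : Finset α) (f : α → β) (M N : ℝ) (hM : 0 ≤ M)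
    (h1 : ((T.image f).card : ℝ) ≤ N) (h2 : ∀ b ∈ T.image f, ((T.filter (fun a => f a = b)).card : ℝ) ≤ M) :
    (T.card : ℝ) ≤ N * M := by
  rw [Finset.card_eq_sum_card_image f T]
  push_cast
  calc ∑ b ∈ T.image f, ((T.filter (fun a => f a = b)).card : ℝ) ≤ ∑ b ∈ T.image f, M := Finset.sum_le_sum h2
    _ = (T.image f).card * M := by rw [Finset.sum_const, nsmul_eq_mul]
    _ ≤ N * M := mul_le_mul_of_nonneg_right h1 hM

/-- one class -/
private theorem one_class (n : ℕ) (hn : 4 ≤ n) (e : ℕ → ℕ → ℤ) (hnz : Nz n e) (H : ℕ) (hH : 1 ≤ H) (U : Finset (Ix 1 → ℤ))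
    (P : (Ix 1 → ℤ) → ℤ × ℤ) (a b : ℤ)
    (hU : ∀ c ∈ U, (∀ p, |c p| ≤ (H : ℤ)) ∧ co c 1 0 = a ∧ co c 0 1 = b ∧ ev n e (P c).1 (P c).2 + ev 1 (co c) (P c).1 (P c).2 = 0)
    (hcol : ∀ c ∈ U, ∀ c' ∈ U, ∀ c'' ∈ U, ((P c').1 - (P c).1) * ((P c'').2 - (P c).2) = ((P c'').1 - (P c).1) * ((P c').2 - (P c).2)) :
    (U.card : ℝ) ≤ n * (2 * (H : ℝ) ^ (1 / (n : ℝ)) + 1) := by
  classical
  have hH' : (1 : ℝ) ≤ H := by exact_mod_cast hH
  have hinj : Set.InjOn P U := by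
    intro c hc c' hc' hPP
    obtain ⟨_, h1, h2, h3⟩ := hU c hc
    obtain ⟨_, h1', h2', h3'⟩ := hU c' hc'
    rw [← hPP] at h3'
    rw [ev_one] at h3 h3'
    refine ix_ext ?_ (h1.trans h1'.symm) (h2.trans h2'.symm)
    rw [h1, h2] at h3
    rw [h1', h2'] at h3'
    linarith
  rw [← Finset.card_image_of_injOn hinj]
  obtain ⟨c', hc'⟩ : ∃ c' : Ix 1 → ℤ, c' = vc 1 (fun i j => if i = 1 then a else if j = 1 then b else 0) := ⟨_, rfl⟩
  refine cls2 n (by omega) (ad e c') (nz_ad (by omega) hnz c') H hH' (U.image P) ?_ ?_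
  · intro p hp q hq r hr
    obtain ⟨c, hc, rfl⟩ := Finset.mem_image.1 hp
    obtain ⟨d, hd, rfl⟩ := Finset.mem_image.1 hq
    obtain ⟨f, hf, rfl⟩ := Finset.mem_image.1 hr
    exact hcol c hc d hd f hf
  · intro p hp
    obtain ⟨c, hc, rfl⟩ := Finset.mem_image.1 hp
    obtain ⟨hb, h1, h2, h3⟩ := hU c hc
    rw [ev_ad' (by omega : 1 ≤ n), hc', ev_vc, ev_one]
    simp only [if_true, zero_ne_one, if_false]
    rw [ev_one, h1, h2] at h3
    have h4 : ev n e (P c).1 (P c).2 + (0 + a * (P c).1 + b * (P c).2) = -co c 0 0 := by linarith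
    rw [h4]
    push_cast
    rw [abs_neg]
    rw [co_of_le c (by omega : 0 + 0 ≤ 1)]
    exact_mod_cast hb _

theorem mid_ex (n E κn κc κw : ℕ) (hn : 4 ≤ n) (hκn1 : 1 ≤ κn) (hnex : NexS n κn) (hcol : ColS n κc)
    (hw : 108 * (n : ℝ) ^ 2 * (E + 1) ≤ 2 ^ κw) (B : ℕ) (hB : 2 ≤ B) (e : ℕ → ℕ → ℤ) (he : Bas n B e) (hnz : Nz n e) (H : ℕ) (hH : 1 ≤ H)
    (T : Finset (Ix 1 → ℤ)) (hT : ∀ c ∈ T, (∀ p, |c p| ≤ (H : ℤ)) ∧ ∃ x y : ℤ, |y| ≤ |x| ∧
      (B : ℝ) ^ (2 * (κn * κc) + 2 * κn + 4) * H ≤ |(x : ℝ)| ∧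
      |(x : ℝ)| ≤ ((B * H : ℕ) : ℝ) ^ E ∧ ev n e x y + ev 1 (co c) x y = 0) :
    (T.card : ℝ) ≤ (B : ℝ) ^ (κw + 2 * (κn * κc) + 1) * ((H : ℝ) ^ 2 * (H : ℝ) ^ (1 / (n : ℝ)) * (1 + Real.log H)) := by
  classical
  have hκw : ∀ B : ℕ, 2 ≤ B → 108 * (n : ℝ) ^ 2 * (E + 1) ≤ (B : ℝ) ^ κw := by
    intro B hB
    have hBr : (2 : ℝ) ≤ B := by exact_mod_cast hB
    exact hw.trans (pow_le_pow_left₀ (by norm_num) hBr _)
  have hBr : (2 : ℝ) ≤ B := by exact_mod_cast hB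
  have hB1 : (1 : ℝ) ≤ B := by linarith
  have hB0 : (0 : ℝ) < B := by linarith
  have hH' : (1 : ℝ) ≤ H := by exact_mod_cast hH
  have hH0 : (0 : ℝ) < H := by linarith
  have hs1 : 1 ≤ √(H : ℝ) := Real.one_le_sqrt.2 hH'
  have hsH : √(H : ℝ) ≤ H := by
    rw [Real.sqrt_le_left (by linarith)]
    nlinarith
  have hsq : √(H : ℝ) ^ 2 = H := Real.sq_sqrt (by linarith)
  obtain ⟨K, hK⟩ : ∃ K : ℕ, K = (2 * B) ^ κn := ⟨_, rfl⟩
  have hK2B : 2 * B ≤ K := by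
    rw [hK]
    exact Nat.le_self_pow (by omega) _
  have hK2Br : 2 * (B : ℝ) ≤ K := by exact_mod_cast hK2B
  have hK2 : (2 : ℝ) ≤ K := by linarith
  have hKr : (K : ℝ) = ((2 * B : ℕ) : ℝ) ^ κn := by rw [hK]; push_cast; rfl
  have hKle : (K : ℝ) ≤ (B : ℝ) ^ (2 * κn) := by
    rw [hKr, pow_mul]
    refine pow_le_pow_left₀ (by positivity) ?_ _
    push_cast
    nlinarith
  obtain ⟨L, hL⟩ : ∃ L : ℝ, L = (K : ℝ) ^ κc := ⟨_, rfl⟩
  have hL1 : 1 ≤ L := by rw [hL]; exact one_le_pow₀ (by linarith)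
  have hLle : L ≤ (B : ℝ) ^ (2 * (κn * κc)) := by
    rw [hL]
    calc (K : ℝ) ^ κc ≤ ((B : ℝ) ^ (2 * κn)) ^ κc := pow_le_pow_left₀ (by positivity) hKle _
      _ = _ := by rw [← pow_mul]; congr 1; ring
  obtain ⟨M, hM⟩ : ∃ M : ℕ, M = 2 * K ^ κc := ⟨_, rfl⟩
  have hML : (M : ℝ) = 2 * L := by rw [hM, hL]; push_cast; rfl
  have hM2 : 2 ≤ M := by
    have : (2 : ℝ) ≤ M := by rw [hML]; linarith
    exact_mod_cast this
  have hM0 : (0 : ℝ) < M := by rw [hML]; linarith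
  have hlogH : 0 ≤ Real.log H := Real.log_nonneg hH'
  -- one vector
  have key : ∀ c : Ix 1 → ℤ, ∃ (t : ℝ) (k : ℕ) (P : ℤ × ℤ), c ∈ T → Ct n (K : ℝ) 1 e t ∧ (k : ℝ) ≤ (M : ℝ) * (E * (B * (1 + Real.log H))) ∧
      Real.exp ((k : ℝ) / M) ≤ |(P.1 : ℝ)| ∧ |(P.1 : ℝ)| ≤ Real.exp ((k : ℝ) / M) * (1 + 2 / M) ∧ (K : ℝ) ^ κc * (6 * H) ≤ Real.exp ((k : ℝ) / M) ∧
      |(P.2 : ℝ) - t * P.1 - be n e t| ≤ K * (6 * H) / Real.exp ((k : ℝ) / M) ∧ |(ev n e P.1 P.2 : ℝ)| ≤ 6 * H * Real.exp ((k : ℝ) / M) ∧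
      ev n e P.1 P.2 + ev 1 (co c) P.1 P.2 = 0 := by
    intro c
    by_cases hc : c ∈ T
    swap
    · exact ⟨0, 0, 0, fun h => absurd h hc⟩
    obtain ⟨hb, x, y, hxy, hx1, hx2, hev⟩ := hT c hc
    have hxK : (K : ℝ) * (12 * L) * H ≤ |(x : ℝ)| := by
      refine le_trans ?_ hx1
      refine mul_le_mul_of_nonneg_right ?_ hH0.le
      have e1 : (12 : ℝ) ≤ (B : ℝ) ^ 4 := by
        calc (12 : ℝ) ≤ 2 ^ 4 := by norm_num
          _ ≤ (B : ℝ) ^ 4 := pow_le_pow_left₀ (by norm_num) hBr 4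
      calc (K : ℝ) * (12 * L) ≤ (B : ℝ) ^ (2 * κn) * ((B : ℝ) ^ 4 * (B : ℝ) ^ (2 * (κn * κc))) := by gcongr
        _ = _ := by rw [← pow_add, ← pow_add]; congr 1; ring
    have hLH : 1 ≤ 12 * L * H := by nlinarith
    have hKx : (K : ℝ) * H ≤ |(x : ℝ)| := by
      refine le_trans ?_ hxK
      have : 1 ≤ 12 * L := by linarith
      have e1 : 0 ≤ (K : ℝ) * H := by positivity
      nlinarith
    have h12 : 12 * L * H ≤ |(x : ℝ)| := by
      refine le_trans ?_ hxK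
      have e1 : 0 ≤ 12 * L * H := by positivity
      nlinarith
    have hx1' : 1 ≤ |(x : ℝ)| := by linarith
    have hx0 : 0 < |(x : ℝ)| := by linarith
    have hfn : fm (ad e c) n = fm e n := fm_ad' e c (by omega)
    have hfn1 : fm (ad e c) (n - 1) = fm e (n - 1) := fm_ad' e c (by omega)
    have hgd : Gd n (1 / (((2 * B : ℕ) : ℕ) : ℝ)) (ad e c) := by
      intro t ht
      rw [hfn]
      have e1 : 1 / (((2 * B : ℕ) : ℕ) : ℝ) ≤ 1 / (B : ℝ) := by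
        push_cast
        exact one_div_le_one_div_of_le hB0 (by linarith)
      rcases he.gd t ht with h | h
      · exact Or.inl (lt_of_le_of_lt e1 h)
      · exact Or.inr (lt_of_le_of_lt e1 h)
    obtain ⟨t, hCt, hnear⟩ := hnex (2 * B) (by omega) (ad e c) (√(H : ℝ)) hs1 (bs_ad hn hB hH he.bd hb) hgd x y hxy
      (by
        rw [← hKr]
        exact (mul_le_mul_of_nonneg_left hsH (by positivity)).trans hKx)
      (by rw [ev_ad' (by omega : 1 ≤ n)]; exact hev)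
    rw [← hKr] at hCt hnear
    have hbe : be n (ad e c) t = be n e t := by
      unfold be
      rw [hfn, hfn1]
    rw [hbe, hsq] at hnear
    obtain ⟨g1, g2⟩ := geo_cl M hM2 |(x : ℝ)| hx1'
    obtain ⟨k, hk⟩ : ∃ k : ℕ, k = ⌊(M : ℝ) * Real.log |(x : ℝ)|⌋₊ := ⟨_, rfl⟩
    rw [← hk] at g1 g2
    obtain ⟨X, hX⟩ : ∃ X : ℝ, X = Real.exp ((k : ℝ) / M) := ⟨_, rfl⟩
    have hX0 : 0 < X := by rw [hX]; exact Real.exp_pos _
    have h2M : (2 : ℝ) / M ≤ 1 := by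
      rw [div_le_one hM0]
      exact_mod_cast hM2
    rw [← hX] at g1 g2
    have hx2X : |(x : ℝ)| ≤ 2 * X := by
      refine g2.trans ?_
      nlinarith
    refine ⟨t, k, (x, y), fun _ => ⟨⟨?_, hCt.t2, ?_, ?_⟩, ?_, ?_, ?_, ?_, ?_, ?_, hev⟩⟩
    · intro a b hab
      rw [one_pow, mul_one]
      have h2 := he.bd a b hab
      have h3 : |e a b| ≤ (B : ℤ) := by linarith
      have h4 : |(e a b : ℝ)| ≤ B := by exact_mod_cast h3
      linarith
    · have := hCt.rt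
      rwa [hfn] at this
    · have := hCt.dr
      rwa [hfn] at this
    · have e1 : (k : ℝ) ≤ (M : ℝ) * Real.log |(x : ℝ)| := by
        rw [hk]
        refine Nat.floor_le ?_
        have := Real.log_nonneg hx1'
        positivity
      refine e1.trans (mul_le_mul_of_nonneg_left ?_ hM0.le)
      have e2 : Real.log |(x : ℝ)| ≤ Real.log (((B * H : ℕ) : ℝ) ^ E) := Real.log_le_log hx0 hx2
      refine e2.trans ?_
      rw [Real.log_pow]
      push_cast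
      rw [Real.log_mul hB0.ne' hH0.ne']
      refine mul_le_mul_of_nonneg_left ?_ (Nat.cast_nonneg _)
      have e3 : Real.log B ≤ B := (Real.log_le_sub_one_of_pos hB0).trans (by linarith)
      nlinarith
    · rw [← hX]; exact g1
    · rw [← hX]; exact g2
    · rw [← hX, ← hL]
      linarith
    · rw [← hX]
      refine hnear.trans ?_
      rw [div_le_div_iff₀ hx0 hX0]
      have e1 : (K : ℝ) * H * X ≤ K * H * |(x : ℝ)| := mul_le_mul_of_nonneg_left g1 (by positivity)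
      have e2 : 0 ≤ (K : ℝ) * H * |(x : ℝ)| := by positivity
      nlinarith
    · rw [← hX]
      have e1 : ev n e x y = -ev 1 (co c) x y := by linarith
      rw [e1, ev_one]
      push_cast
      rw [abs_neg]
      have b0 : |(co c 0 0 : ℝ)| ≤ H := by rw [co_of_le c (by omega : 0 + 0 ≤ 1)]; exact_mod_cast hb _
      have b1 : |(co c 1 0 : ℝ)| ≤ H := by rw [co_of_le c (by omega : 1 + 0 ≤ 1)]; exact_mod_cast hb _
      have b2 : |(co c 0 1 : ℝ)| ≤ H := by rw [co_of_le c (by omega : 0 + 1 ≤ 1)]; exact_mod_cast hb _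
      have hy : |(y : ℝ)| ≤ |(x : ℝ)| := by exact_mod_cast hxy
      calc |(co c 0 0 : ℝ) + co c 1 0 * x + co c 0 1 * y| ≤ |(co c 0 0 : ℝ)| + |(co c 1 0 : ℝ) * x| + |(co c 0 1 : ℝ) * y| := abs_add_three _ _ _
        _ = |(co c 0 0 : ℝ)| + |(co c 1 0 : ℝ)| * |(x : ℝ)| + |(co c 0 1 : ℝ)| * |(y : ℝ)| := by rw [abs_mul, abs_mul]
        _ ≤ H * |(x : ℝ)| + H * |(x : ℝ)| + H * |(x : ℝ)| := by
          have e2 : |(co c 0 0 : ℝ)| ≤ H * |(x : ℝ)| := by nlinarith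
          gcongr
        _ = 3 * H * |(x : ℝ)| := by ring
        _ ≤ 3 * H * (2 * X) := mul_le_mul_of_nonneg_left hx2X (by positivity)
        _ = _ := by ring
  choose tc kc Pc q using key
  have hf0 : fm e n ≠ 0 := by
    intro h0
    have := he.deg
    rw [h0, natDegree_zero] at this
    omega
  have hR : ((fm e n).aroots ℝ).toFinset.card ≤ n := by
    refine (Multiset.toFinset_card_le _).trans ?_
    refine (Polynomial.card_roots' _).trans ?_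
    refine Polynomial.natDegree_map_le.trans ?_
    rw [he.deg]
  obtain ⟨W, hW⟩ : ∃ W : ℝ, W = (M : ℝ) * (E * (B * (1 + Real.log H))) := ⟨_, rfl⟩
  have hW0 : 0 ≤ W := by rw [hW]; positivity
  obtain ⟨f, hf⟩ : ∃ f : (Ix 1 → ℤ) → (ℝ × ℕ) × (Bool × (ℤ × ℤ)),
      f = fun c => ((tc c, kc c), (decide (0 ≤ (Pc c).1), (co c 1 0, co c 0 1))) := ⟨_, rfl⟩
  have hI : ((T.image f).card : ℝ) ≤ (n * (W + 1)) * (2 * (3 * (H : ℝ)) ^ 2) := by
    have e1 : T.image f ⊆ (((fm e n).aroots ℝ).toFinset ×ˢ range (⌊W⌋₊ + 1)) ×ˢ ((Finset.univ : Finset Bool) ×ˢ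
        (Finset.Icc (-(H : ℤ)) H ×ˢ Finset.Icc (-(H : ℤ)) H)) := by
      intro p hp
      obtain ⟨c, hc, rfl⟩ := Finset.mem_image.1 hp
      obtain ⟨q1, q2, -⟩ := q c hc
      have hb := (hT c hc).1
      rw [hf]
      simp only [Finset.mem_product, Finset.mem_univ, true_and, Finset.mem_Icc]
      refine ⟨⟨?_, ?_⟩, ?_, ?_⟩
      · rw [Multiset.mem_toFinset, Polynomial.mem_aroots]
        exact ⟨hf0, q1.rt⟩
      · rw [Finset.mem_range, Nat.lt_succ_iff]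
        refine Nat.le_floor ?_
        rw [hW]
        exact q2
      · rw [← abs_le, co_of_le c (by omega : 1 + 0 ≤ 1)]
        exact hb _
      · rw [← abs_le, co_of_le c (by omega : 0 + 1 ≤ 1)]
        exact hb _
    have e2 := Finset.card_le_card e1
    rw [Finset.card_product, Finset.card_product, Finset.card_product, Finset.card_product, Finset.card_range, Int.card_Icc] at e2
    have e3 : ((H : ℤ) + 1 - -(H : ℤ)).toNat = 2 * H + 1 := by omega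
    rw [e3] at e2
    have e4 : (Finset.univ : Finset Bool).card = 2 := rfl
    rw [e4] at e2
    have e5 : ((T.image f).card : ℝ) ≤ ((((fm e n).aroots ℝ).toFinset.card : ℝ) * ((⌊W⌋₊ : ℝ) + 1)) * (2 * ((2 * (H : ℝ) + 1) * (2 * (H : ℝ) + 1))) := by
      exact_mod_cast e2
    refine e5.trans ?_
    have e6 : ((⌊W⌋₊ : ℕ) : ℝ) ≤ W := Nat.floor_le hW0
    have e7 : (((fm e n).aroots ℝ).toFinset.card : ℝ) ≤ n := by exact_mod_cast hR
    have e8 : (2 * (H : ℝ) + 1) * (2 * (H : ℝ) + 1) ≤ (3 * (H : ℝ)) ^ 2 := by nlinarith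
    gcongr
  obtain ⟨S, hS⟩ : ∃ S : ℝ, S = (H : ℝ) ^ (1 / (n : ℝ)) := ⟨_, rfl⟩
  have hS1 : 1 ≤ S := by rw [hS]; exact Real.one_le_rpow hH' (by positivity)
  have hF : ∀ b ∈ T.image f, ((T.filter (fun c => f c = b)).card : ℝ) ≤ n * (3 * S) := by
    rintro ⟨⟨t, k⟩, sg, a, b⟩ -
    have h1 := one_class n hn e hnz H hH (T.filter (fun c => f c = ((t, k), (sg, (a, b))))) Pc a b ?_ ?_
    · refine h1.trans ?_
      rw [← hS]
      refine mul_le_mul_of_nonneg_left ?_ (Nat.cast_nonneg _)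
      linarith
    · intro c hc
      obtain ⟨hcT, hfc⟩ := Finset.mem_filter.1 hc
      rw [hf] at hfc
      simp only [Prod.mk.injEq] at hfc
      obtain ⟨-, -, -, -, -, -, -, q8⟩ := q c hcT
      exact ⟨(hT c hcT).1, hfc.2.2.1, hfc.2.2.2, q8⟩
    · -- collinear
      have hcl : ∀ c ∈ T.filter (fun c => f c = ((t, k), (sg, (a, b)))), Ct n (K : ℝ) 1 e t ∧ (K : ℝ) ^ κc * (6 * H) ≤ Real.exp ((k : ℝ) / M) ∧
          decide (0 ≤ (Pc c).1) = sg ∧ |((Pc c).1 : ℝ)| ≤ Real.exp ((k : ℝ) / M) * (1 + 2 / M) ∧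
          (Real.exp ((k : ℝ) / M) ≤ |((Pc c).1 : ℝ)| ∧ |((Pc c).1 : ℝ)| ≤ 2 * Real.exp ((k : ℝ) / M) ∧
          |((Pc c).2 : ℝ) - t * (Pc c).1 - be n e t| ≤ K * (6 * H) / Real.exp ((k : ℝ) / M) ∧
          |(ev n e (Pc c).1 (Pc c).2 : ℝ)| ≤ 6 * H * Real.exp ((k : ℝ) / M)) := by
        intro c hc
        obtain ⟨hcT, hfc⟩ := Finset.mem_filter.1 hc
        rw [hf] at hfc
        simp only [Prod.mk.injEq] at hfc
        obtain ⟨⟨ht, hk⟩, hsg, ha, hb⟩ := hfc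
        obtain ⟨q1, q2, q3, q4, q5, q6, q7, q8⟩ := q c hcT
        rw [ht] at q1 q6
        rw [hk] at q3 q4 q5 q6 q7
        refine ⟨q1, q5, hsg, q4, q3, ?_, q6, q7⟩
        refine q4.trans ?_
        have h2M : (2 : ℝ) / M ≤ 1 := by
          rw [div_le_one hM0]
          exact_mod_cast hM2
        have := (Real.exp_pos ((k : ℝ) / M)).le
        nlinarith
      have hdist : ∀ c ∈ T.filter (fun c => f c = ((t, k), (sg, (a, b)))), ∀ c' ∈ T.filter (fun c => f c = ((t, k), (sg, (a, b)))),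
          |((Pc c').1 : ℝ) - (Pc c).1| ≤ Real.exp ((k : ℝ) / M) / (K : ℝ) ^ κc := by
        intro c hc c' hc'
        obtain ⟨-, -, s1, u1, l1, -⟩ := hcl c hc
        obtain ⟨-, -, s2, u2, l2, -⟩ := hcl c' hc'
        have hXp := Real.exp_pos ((k : ℝ) / M)
        obtain ⟨X, hX⟩ : ∃ X : ℝ, X = Real.exp ((k : ℝ) / M) := ⟨_, rfl⟩
        rw [← hX] at u1 l1 u2 l2 hXp ⊢
        have e1 : X * (1 + 2 / M) = X + X / L := by
          rw [hML]
          field_simp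
        rw [e1] at u1 u2
        rw [← hL]
        have hsame : (0 ≤ (Pc c).1 ↔ 0 ≤ (Pc c').1) := by
          have := s1.trans s2.symm
          exact decide_eq_decide.1 this
        by_cases h0 : 0 ≤ (Pc c).1
        · have h0' := hsame.1 h0
          have g0 : (0 : ℝ) ≤ (Pc c).1 := by exact_mod_cast h0
          have g0' : (0 : ℝ) ≤ (Pc c').1 := by exact_mod_cast h0'
          rw [abs_of_nonneg g0] at u1 l1
          rw [abs_of_nonneg g0'] at u2 l2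
          rw [abs_le]
          constructor <;> linarith
        · have h0' : ¬ 0 ≤ (Pc c').1 := fun h => h0 (hsame.2 h)
          have g0 : ((Pc c).1 : ℝ) ≤ 0 := by
            have : (Pc c).1 ≤ 0 := by omega
            exact_mod_cast this
          have g0' : ((Pc c').1 : ℝ) ≤ 0 := by
            have : (Pc c').1 ≤ 0 := by omega
            exact_mod_cast this
          rw [abs_of_nonpos g0] at u1 l1
          rw [abs_of_nonpos g0'] at u2 l2
          rw [abs_le]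
          constructor <;> linarith
      intro c hc c' hc' c'' hc''
      obtain ⟨q1, q5, -, -, N0⟩ := hcl c hc
      obtain ⟨-, -, -, -, N1⟩ := hcl c' hc'
      obtain ⟨-, -, -, -, N2⟩ := hcl c'' hc''
      exact hcol K (6 * H) hK2 (by linarith) e t q1 (Real.exp ((k : ℝ) / M)) q5 _ _ _ _ _ _ N0 N1 N2
        (hdist c hc c' hc') (hdist c hc c'' hc'') (hdist c' hc' c'' hc'')
  have hfin := card_bd T f _ _ (by positivity) hI hF
  refine hfin.trans ?_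
  have hlog1 : 1 ≤ 1 + Real.log H := by linarith
  have hW1 : W + 1 ≤ 2 * (B : ℝ) ^ (2 * (κn * κc)) * (E + 1) * (B * (1 + Real.log H)) := by
    have e1 : 1 ≤ (B : ℝ) * (1 + Real.log H) := by nlinarith
    have e2 : (M : ℝ) ≤ 2 * (B : ℝ) ^ (2 * (κn * κc)) := by rw [hML]; linarith
    have e3 : 1 ≤ (B : ℝ) ^ (2 * (κn * κc)) := one_le_pow₀ hB1
    calc W + 1 ≤ (2 * (B : ℝ) ^ (2 * (κn * κc))) * (E * (B * (1 + Real.log H))) + (2 * (B : ℝ) ^ (2 * (κn * κc))) * (1 * (B * (1 + Real.log H))) := by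
          rw [hW]
          refine add_le_add (mul_le_mul_of_nonneg_right e2 (by positivity)) ?_
          nlinarith
      _ = _ := by ring
  calc n * (W + 1) * (2 * (3 * (H : ℝ)) ^ 2) * (n * (3 * S))
      = 54 * (n : ℝ) ^ 2 * ((W + 1) * ((H : ℝ) ^ 2 * S)) := by ring
    _ ≤ 54 * (n : ℝ) ^ 2 * ((2 * (B : ℝ) ^ (2 * (κn * κc)) * (E + 1) * (B * (1 + Real.log H))) * ((H : ℝ) ^ 2 * S)) := by gcongr
    _ = (108 * (n : ℝ) ^ 2 * (E + 1)) * ((B : ℝ) ^ (2 * (κn * κc)) * B * ((H : ℝ) ^ 2 * S * (1 + Real.log H))) := by ring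
    _ ≤ (B : ℝ) ^ κw * ((B : ℝ) ^ (2 * (κn * κc)) * B * ((H : ℝ) ^ 2 * S * (1 + Real.log H))) := by
      refine mul_le_mul_of_nonneg_right (hκw B hB) ?_
      positivity
    _ = _ := by
      rw [hS, pow_add, pow_add]
      ring

end Pool.Agent.H82.TE
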