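import Pool.Agent.H82.TE.Sta
import Pool.Agent.H88.TS.Dig
import Pool.Agent.H82.TO.As3
import Pool.Agent.H82.TO.Uq1

/-! # [H82 TE MOM] The first moment over a box, `j = 1` -/

namespace Pool.Agent.H82.TE

open Finset MvPolynomial Pool.Agent.H8.AA Pool.Agent.H88.A2 Pool.Agent.H88.TU Pool.Agent.H82.TO

theorem mom : ∃ κ : ℕ, MomS κ := by
  classical
  obtain ⟨C, hC, hdig⟩ := Pool.Agent.H88.TS.dig 1 le_rfl
  refine ⟨⌈27 * C + 9⌉₊, ?_⟩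
  intro H R hH hR v
  have hH1 : (1 : ℝ) ≤ (H : ℝ) := by exact_mod_cast hH
  have hR1 : (1 : ℝ) ≤ (R : ℝ) := by exact_mod_cast hR
  have h0mem : (0 : ℤ × ℤ) ∈ bp R := by
    rw [mem_bp]
    simp
  have hcard : Fintype.card (Ix 1) = 3 := by decide
  -- the origin
  have h0 : (An 1 H (0 : ℤ × ℤ).1 (0 : ℤ × ℤ).2 (v 0) : ℝ) ≤ 9 * (H : ℝ) ^ 2 := by
    have h1 := An_triv 1 H (0 : ℤ × ℤ).1 (0 : ℤ × ℤ).2 (v 0)
    have h2 : (1 + 1) * (1 + 2) / 2 - 1 = 2 := by norm_num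
    rw [h2] at h1
    refine h1.trans ?_
    nlinarith
  -- the other points
  have h1 : ∀ P ∈ (bp R).erase 0, (An 1 H P.1 P.2 (v P) : ℝ) ≤ 3 * C * H * (H * (1 / mx P) + 1) := by
    intro P hP
    have hP0 : P ≠ 0 := (mem_erase.1 hP).1
    have hne : P.1 ≠ 0 ∨ P.2 ≠ 0 := by
      by_contra hcon
      push Not at hcon
      exact hP0 (Prod.ext hcon.1 hcon.2)
    have h2 := hdig H hH P.1 P.2 (v P) hne ((box 1 H).filter fun c => ev 1 (co c) P.1 P.2 = v P) (by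
      intro c hc
      rw [mem_filter, mem_box] at hc
      exact hc)
    rw [hcard] at h2
    have h3 : (3 - (1 + 1) : ℕ) = 1 := by norm_num
    rw [h3, pow_one, pow_one] at h2
    have hmx : 0 ≤ mx P := le_max_of_le_left (abs_nonneg _)
    have h4 : (H : ℝ) / max |(P.1 : ℝ)| |(P.2 : ℝ)| = H * (1 / mx P) := by
      unfold mx
      rw [mul_one_div]
    rw [h4] at h2
    have h5 : 0 ≤ (H : ℝ) * (1 / mx P) + 1 := by positivity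
    calc (An 1 H P.1 P.2 (v P) : ℝ) ≤ C * (H * (1 / mx P) + 1) * (2 * (H : ℝ) + 1) := h2
      _ ≤ C * (H * (1 / mx P) + 1) * (3 * H) := mul_le_mul_of_nonneg_left (by linarith) (mul_nonneg hC h5)
      _ = 3 * C * H * (H * (1 / mx P) + 1) := by ring
  have h2 : ∑ P ∈ (bp R).erase 0, (An 1 H P.1 P.2 (v P) : ℝ) ≤ 3 * C * H * (H * (8 * R) + 9 * (R : ℝ) ^ 2) := by
    refine (sum_le_sum h1).trans ?_
    rw [← mul_sum, sum_add_distrib, ← mul_sum, sum_const, nsmul_eq_mul, mul_one]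
    refine mul_le_mul_of_nonneg_left ?_ (by positivity)
    have h3 := inv_sum R
    have h4 : (((bp R).erase 0).card : ℝ) ≤ 9 * (R : ℝ) ^ 2 := by
      have h5 : ((bp R).erase 0).card ≤ (bp R).card := card_le_card (erase_subset _ _)
      rw [card_bp] at h5
      have h6 : (((bp R).erase 0).card : ℝ) ≤ (2 * (R : ℝ) + 1) ^ 2 := by exact_mod_cast h5
      nlinarith
    have h5 : (H : ℝ) * ∑ w ∈ (bp R).erase 0, 1 / mx w ≤ H * (8 * R) := mul_le_mul_of_nonneg_left h3 (by linarith)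
    linarith
  have hκ : 27 * C + 9 ≤ ((⌈27 * C + 9⌉₊ : ℕ) : ℝ) := Nat.le_ceil _
  have hnn : 0 ≤ (H : ℝ) * ((H : ℝ) * R + (R : ℝ) ^ 2) := by positivity
  rw [← add_sum_erase _ _ h0mem]
  have h3 : (9 : ℝ) * (H : ℝ) ^ 2 ≤ 9 * ((H : ℝ) * ((H : ℝ) * R + (R : ℝ) ^ 2)) := by
    have h4 : (H : ℝ) ^ 2 * 1 ≤ (H : ℝ) ^ 2 * R := mul_le_mul_of_nonneg_left hR1 (by positivity)
    have h5 : 0 ≤ (H : ℝ) * (R : ℝ) ^ 2 := by positivity
    nlinarith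
  have h4 : 3 * C * H * (H * (8 * R) + 9 * (R : ℝ) ^ 2) ≤ 27 * C * ((H : ℝ) * ((H : ℝ) * R + (R : ℝ) ^ 2)) := by
    have h5 : 0 ≤ C * ((H : ℝ) * ((H : ℝ) * R)) := by positivity
    nlinarith
  calc (An 1 H (0 : ℤ × ℤ).1 (0 : ℤ × ℤ).2 (v 0) : ℝ) + ∑ P ∈ (bp R).erase 0, (An 1 H P.1 P.2 (v P) : ℝ)
      ≤ (27 * C + 9) * ((H : ℝ) * ((H : ℝ) * R + (R : ℝ) ^ 2)) := by linarith
    _ ≤ (⌈27 * C + 9⌉₊ : ℕ) * ((H : ℝ) * ((H : ℝ) * R + (R : ℝ) ^ 2)) := mul_le_mul_of_nonneg_right hκ hnn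
    _ = (⌈27 * C + 9⌉₊ : ℕ) * (H : ℝ) * ((H : ℝ) * R + (R : ℝ) ^ 2) := by ring

end Pool.Agent.H82.TE
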