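import Pool.Agent.H88.TU.Sta
import Pool.Agent.H82.TO.As12
import Pool.Agent.H82.A3.Fin

/-! # [H82 TE STA] The stratum `j = 1`, effective and uniform in `G`: statements of the parts -/

namespace Pool.Agent.H82.TE

open Finset MvPolynomial Pool.Agent.H8.AA Pool.Agent.H88.A2 Pool.Agent.H88.TU

/-- the points beyond `(B H)^E`, uniform in `G` -/
def FarS (n E κ : ℕ) : Prop :=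
    ∀ (j : ℕ) (G : MvPolynomial (Fin 2) ℤ), Hyp0 n j G → ∀ (B H : ℕ), 2 ≤ B → (∀ m, |G.coeff m| + 1 ≤ (B : ℤ)) → 1 ≤ H →
    ∀ T : Finset (Ix j → ℤ), (∀ c ∈ T, (∀ p, |c p| ≤ (H : ℤ)) ∧
      ∃ P : Fin 2 → ℤ, eval P (G + pol c) = 0 ∧ ∃ i, ((B * H : ℕ) : ℤ) ^ E < |P i|) →
    (T.card : ℝ) ≤ κ * (2 * (H : ℝ) + 1) ^ (Fintype.card (Ix j) - 1)

/-- the points between `T₀ S` and `B^κ₁ H`, one chart, `j = 1` -/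
def NeaS (n κ₀ κ₁ κ : ℕ) : Prop :=
    ∀ B : ℕ, 2 ≤ B → ∀ e : ℕ → ℕ → ℤ, Bas n B e → ∀ (H : ℕ) (S T₀ : ℝ), 1 ≤ H → 1 ≤ S → S ^ (n - 1) = H → (B : ℝ) ^ κ₀ ≤ T₀ →
    ∀ T : Finset (Ix 1 → ℤ), (∀ c ∈ T, (∀ p, |c p| ≤ (H : ℤ)) ∧ ∃ x y : ℤ, |y| ≤ |x| ∧ T₀ * S ≤ |(x : ℝ)| ∧
      |(x : ℝ)| ≤ (B : ℝ) ^ κ₁ * H ∧ ev n e x y + ev 1 (co c) x y = 0) →
    (T.card : ℝ) ≤ (B : ℝ) ^ κ * ((H : ℝ) ^ 2 * S / T₀ + (H : ℝ) ^ 2 * (1 + Real.log H))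

/-- the points between `B^κ₁ H` and `(B H)^E`, one chart, `j = 1` -/
def MidS (n E κ₁ κ : ℕ) : Prop :=
    ∀ B : ℕ, 2 ≤ B → ∀ e : ℕ → ℕ → ℤ, Bas n B e → ∀ H : ℕ, 1 ≤ H →
    ∀ T : Finset (Ix 1 → ℤ), (∀ c ∈ T, (∀ p, |c p| ≤ (H : ℤ)) ∧ ∃ x y : ℤ, |y| ≤ |x| ∧ (B : ℝ) ^ κ₁ * H ≤ |(x : ℝ)| ∧
      |(x : ℝ)| ≤ ((B * H : ℕ) : ℝ) ^ E ∧ ev n e x y + ev 1 (co c) x y = 0) →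
    (T.card : ℝ) ≤ (B : ℝ) ^ κ * ((H : ℝ) ^ 2 * (H : ℝ) ^ (1 / (n : ℝ)) * (1 + Real.log H))

/-- the first moment over a box, `j = 1` -/
def MomS (κ : ℕ) : Prop :=
    ∀ (H R : ℕ), 1 ≤ H → 1 ≤ R → ∀ v : ℤ × ℤ → ℤ,
    ∑ P ∈ Pool.Agent.H82.TO.bp R, (Pool.Agent.H82.TO.An 1 H P.1 P.2 (v P) : ℝ) ≤ κ * (H : ℝ) * ((H : ℝ) * R + (R : ℝ) ^ 2)

/-- three points near one asymptote in a short arc are collinear: `|G| ≤ h X` at the points -/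
def ColS (n κ : ℕ) : Prop :=
    ∀ K h : ℝ, 2 ≤ K → 1 ≤ h → ∀ (e : ℕ → ℕ → ℤ) (t : ℝ), Ct n K 1 e t → ∀ X : ℝ, K ^ κ * h ≤ X →
    ∀ x₀ x₁ x₂ y₀ y₁ y₂ : ℤ,
      (X ≤ |(x₀ : ℝ)| ∧ |(x₀ : ℝ)| ≤ 2 * X ∧ |(y₀ : ℝ) - t * x₀ - be n e t| ≤ K * h / X ∧ |(ev n e x₀ y₀ : ℝ)| ≤ h * X) →
      (X ≤ |(x₁ : ℝ)| ∧ |(x₁ : ℝ)| ≤ 2 * X ∧ |(y₁ : ℝ) - t * x₁ - be n e t| ≤ K * h / X ∧ |(ev n e x₁ y₁ : ℝ)| ≤ h * X) →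
      (X ≤ |(x₂ : ℝ)| ∧ |(x₂ : ℝ)| ≤ 2 * X ∧ |(y₂ : ℝ) - t * x₂ - be n e t| ≤ K * h / X ∧ |(ev n e x₂ y₂ : ℝ)| ≤ h * X) →
      |(x₁ : ℝ) - x₀| ≤ X / K ^ κ → |(x₂ : ℝ) - x₀| ≤ X / K ^ κ → |(x₂ : ℝ) - x₁| ≤ X / K ^ κ →
      (x₁ - x₀) * (y₂ - y₀) = (x₂ - x₀) * (y₁ - y₀)

end Pool.Agent.H82.TE
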