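import Pool.Agent.H82.TE.Sta
import Pool.Agent.H88.TU.Nex

/-! # [H82 TE NEA] The points between `T₀ S` and `B^κ₁ H`, one chart, `j = 1` (helper12) -/

namespace Pool.Agent.H82.TE

open Finset Polynomial Pool.Agent.H8.AA Pool.Agent.H88.A2 Pool.Agent.H88.TU

private theorem cnt_y (a w : ℝ) (hw : 0 ≤ w) (S : Finset ℤ) (h : ∀ y ∈ S, |(y : ℝ) - a| ≤ w) :
    (S.card : ℝ) ≤ 2 * w + 1 := by
  have hsub : S ⊆ Finset.Icc ⌈a - w⌉ ⌊a + w⌋ := by
    intro y hy
    have h1 := abs_le.1 (h y hy)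
    rw [Finset.mem_Icc]
    exact ⟨Int.ceil_le.2 (by linarith), Int.le_floor.2 (by linarith)⟩
  have h1 := Finset.card_le_card hsub
  rw [Int.card_Icc] at h1
  have h2 : ((⌊a + w⌋ + 1 - ⌈a - w⌉).toNat : ℝ) ≤ 2 * w + 1 := by
    rcases le_total 0 (⌊a + w⌋ + 1 - ⌈a - w⌉) with h3 | h3
    · have h4 : (((⌊a + w⌋ + 1 - ⌈a - w⌉).toNat : ℤ) : ℝ) = ((⌊a + w⌋ + 1 - ⌈a - w⌉ : ℤ) : ℝ) := by
        rw [Int.toNat_of_nonneg h3]
      have h5 := Int.floor_le (a + w)
      have h6 := Int.le_ceil (a - w)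
      rw [Int.cast_natCast] at h4
      rw [h4]
      push_cast
      linarith
    · rw [Int.toNat_of_nonpos h3, Nat.cast_zero]
      linarith
  have h3 : (S.card : ℝ) ≤ ((⌊a + w⌋ + 1 - ⌈a - w⌉).toNat : ℝ) := by exact_mod_cast h1
  exact h3.trans h2

private theorem fm_ad {k m : ℕ} (e : ℕ → ℕ → ℤ) (c : Ix k → ℤ) (h : k < m) : fm (ad e c) m = fm e m := by
  unfold fm
  refine Finset.sum_congr rfl fun j hj => ?_
  have := Finset.mem_range.1 hj
  have e1 : ad e c (m - j) j = e (m - j) j := by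
    unfold ad co
    rw [dif_neg (by omega), add_zero]
  rw [e1]

private theorem ev_co {n k : ℕ} (hk : k ≤ n) (c : Ix k → ℤ) (x y : ℤ) : ev n (co c) x y = ev k (co c) x y := by
  unfold ev
  symm
  refine Finset.sum_subset (Finset.range_subset_range.2 (by omega)) fun m _ hm' => ?_
  have h1 : k < m := by
    have := mt Finset.mem_range.2 hm'
    omega
  refine Finset.sum_eq_zero fun j hj => ?_
  have := Finset.mem_range.1 hj
  have h2 : co c (m - j) j = 0 := by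
    unfold co
    rw [dif_neg (by omega)]
  rw [h2, zero_mul]

private theorem ev_ad {n k : ℕ} (hk : k ≤ n) (e : ℕ → ℕ → ℤ) (c : Ix k → ℤ) (x y : ℤ) :
    ev n (ad e c) x y = ev n e x y + ev k (co c) x y := by
  rw [← ev_co hk c]
  unfold ev ad
  rw [← Finset.sum_add_distrib]
  refine Finset.sum_congr rfl fun m _ => ?_
  rw [← Finset.sum_add_distrib]
  refine Finset.sum_congr rfl fun j _ => ?_
  ring

/-- sums over integers through the absolute value -/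
private theorem sum_abs_le (X : Finset ℤ) (M N : ℕ) (hX : ∀ x ∈ X, M ≤ x.natAbs ∧ x.natAbs ≤ N) (g : ℕ → ℝ)
    (hg : ∀ m, 0 ≤ g m) : ∑ x ∈ X, g x.natAbs ≤ 2 * ∑ m ∈ Icc M N, g m := by
  classical
  rw [← Finset.sum_fiberwise_of_maps_to (s := X) (t := Icc M N) (g := Int.natAbs)
    (fun x hx => Finset.mem_Icc.2 (hX x hx)), Finset.mul_sum]
  refine Finset.sum_le_sum fun m _ => ?_
  have h1 : ∀ x ∈ X.filter (fun x => x.natAbs = m), g x.natAbs ≤ g m := by
    intro x hx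
    rw [(Finset.mem_filter.1 hx).2]
  refine (Finset.sum_le_card_nsmul _ _ _ h1).trans ?_
  rw [nsmul_eq_mul]
  refine mul_le_mul_of_nonneg_right ?_ (hg m)
  have h2 : X.filter (fun x => x.natAbs = m) ⊆ {(m : ℤ), -(m : ℤ)} := by
    intro x hx
    have h3 := (Finset.mem_filter.1 hx).2
    rw [Finset.mem_insert, Finset.mem_singleton]
    omega
  have h3 := (Finset.card_le_card h2).trans Finset.card_le_two
  exact_mod_cast h3

private theorem sum_sq (M N : ℕ) (hM : 1 ≤ M) : ∑ m ∈ Icc M N, 1 / (m : ℝ) ^ 2 ≤ 2 / (M : ℝ) := by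
  have h1 := sum_Ioo_inv_sq_le (α := ℝ) (M - 1) (N + 1)
  have h2 : Ioo (M - 1) (N + 1) = Icc M N := by
    ext m
    rw [Finset.mem_Ioo, Finset.mem_Icc]
    omega
  rw [h2] at h1
  have h3 : ((M - 1 : ℕ) : ℝ) + 1 = M := by
    have : ((M - 1 + 1 : ℕ) : ℝ) = M := by
      congr 1
      omega
    push_cast at this
    exact this
  rw [h3] at h1
  simpa [one_div] using h1

private theorem sum_inv (M N : ℕ) (hM : 1 ≤ M) : ∑ m ∈ Icc M N, 1 / (m : ℝ) ≤ 1 + Real.log N := by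
  have h1 := harmonic_le_one_add_log N
  rw [harmonic_eq_sum_Icc] at h1
  push_cast at h1
  refine le_trans ?_ h1
  simp only [one_div]
  refine Finset.sum_le_sum_of_subset_of_nonneg (Finset.Icc_subset_Icc hM le_rfl) fun m _ _ => ?_
  positivity

/-- the sum over the values of `x` -/
private theorem sum_x (H : ℝ) (hH : 0 ≤ H) (W : ℝ) (hW : 0 ≤ W) (M N : ℕ) (hM : 1 ≤ M) :
    ∑ m ∈ Icc M N, (2 * W / (m : ℝ) + 1) * (H / m + 1) ≤ 4 * W * H / M + (2 * W + H) * (1 + Real.log N) + N := by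
  have h1 : ∀ m ∈ Icc M N, (2 * W / (m : ℝ) + 1) * (H / m + 1) =
      2 * W * H * (1 / (m : ℝ) ^ 2) + (2 * W + H) * (1 / (m : ℝ)) + 1 := by
    intro m hm
    have hm0 : (m : ℝ) ≠ 0 := by
      have := (Finset.mem_Icc.1 hm).1
      have h2 : m ≠ 0 := by omega
      exact_mod_cast h2
    field_simp
    ring
  rw [Finset.sum_congr rfl h1, Finset.sum_add_distrib, Finset.sum_add_distrib, ← Finset.mul_sum, ← Finset.mul_sum]
  have h2 := mul_le_mul_of_nonneg_left (sum_sq M N hM) (by positivity : 0 ≤ 2 * W * H)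
  have h3 := mul_le_mul_of_nonneg_left (sum_inv M N hM) (by positivity : 0 ≤ 2 * W + H)
  have h4 : ∑ _m ∈ Icc M N, (1 : ℝ) ≤ N := by
    rw [Finset.sum_const, Nat.card_Icc, nsmul_eq_mul, mul_one]
    exact_mod_cast (by omega : N + 1 - M ≤ N)
  have h5 : 2 * W * H * (2 / (M : ℝ)) = 4 * W * H / M := by ring
  linarith

theorem nea (n κ₁ : ℕ) (hn : 4 ≤ n) : ∃ κ₀ κ : ℕ, NeaS n κ₀ κ₁ κ := by
  classical
  obtain ⟨Cd, hCd, hdig⟩ := Pool.Agent.H88.TS.dig 1 le_rfl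
  obtain ⟨k, hk⟩ : ∃ k, k = 10 * n + 11 := ⟨_, rfl⟩
  have hnex := nex_ex n (by omega)
  rw [← hk] at hnex
  obtain ⟨k₁, hk₁⟩ := pow_unbounded_of_one_lt (Cd * 6 * n * (4 + 3 * (1 + κ₁) + 1)) (by norm_num : (1 : ℝ) < 2)
  refine ⟨2 * k, k₁ + (2 * k + κ₁ + 1), ?_⟩
  intro B hB e he H S T₀ hH hS hSH hT₀ T hT
  obtain ⟨b, hb⟩ : ∃ b : ℝ, b = (B : ℝ) := ⟨_, rfl⟩
  have hb2 : (2 : ℝ) ≤ b := by rw [hb]; exact_mod_cast hB
  have hb1 : (1 : ℝ) ≤ b := by linarith
  have hb0 : (0 : ℝ) < b := by linarith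
  rw [← hb] at hT₀ hT ⊢
  have hH1 : (1 : ℝ) ≤ H := by exact_mod_cast hH
  have hH0 : (0 : ℝ) < H := by linarith
  have hS0 : (0 : ℝ) < S := by linarith
  have hT₀1 : 1 ≤ T₀ := (one_le_pow₀ hb1).trans hT₀
  have hT₀0 : 0 < T₀ := by linarith
  have h2b : ((2 * B : ℕ) : ℝ) ^ k ≤ b ^ (2 * k) := by
    rw [pow_mul]
    refine pow_le_pow_left₀ (by positivity) ?_ _
    push_cast
    rw [← hb]
    nlinarith
  have hH2 : S ^ 2 ≤ H := by
    rw [← hSH]
    exact pow_le_pow_right₀ hS (by omega)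
  -- the roots
  have hφ0 : fm e n ≠ 0 := by
    intro h0
    have h1 := he.deg
    rw [h0, natDegree_zero] at h1
    omega
  obtain ⟨Z, hZ⟩ : ∃ Z : Finset ℝ, Z = (((fm e n).map (Int.castRingHom ℝ)).roots).toFinset := ⟨_, rfl⟩
  have hφR : (fm e n).map (Int.castRingHom ℝ) ≠ 0 := by
    rw [Ne, Polynomial.map_eq_zero_iff (RingHom.injective_int _)]
    exact hφ0
  have hZc : Z.card ≤ n := by
    rw [hZ]
    refine (Multiset.toFinset_card_le _).trans ((card_roots' _).trans ?_)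
    exact natDegree_map_le.trans he.deg.le
  have hZm : ∀ t : ℝ, aeval t (fm e n) = 0 → t ∈ Z := by
    intro t ht
    rw [hZ, Multiset.mem_toFinset, mem_roots hφR, IsRoot.def, eval_map, ← ht]
    rfl
  obtain ⟨W, hW⟩ : ∃ W : ℝ, W = b ^ (2 * k) * S ^ 2 := ⟨_, rfl⟩
  have hW0 : 0 < W := by rw [hW]; positivity
  -- the points
  have hpt : ∀ c ∈ T, ∃ P : ℤ × ℤ, |P.2| ≤ |P.1| ∧ T₀ * S ≤ |(P.1 : ℝ)| ∧ |(P.1 : ℝ)| ≤ b ^ κ₁ * H ∧
      ev 1 (co c) P.1 P.2 = -ev n e P.1 P.2 ∧ ∃ t ∈ Z, |(P.2 : ℝ) - (t * P.1 + be n e t)| ≤ W / |(P.1 : ℝ)| := by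
    intro c hc
    obtain ⟨hcH, x, y, hyx, hx1, hx2, hev⟩ := hT c hc
    refine ⟨(x, y), hyx, hx1, hx2, by linarith, ?_⟩
    have hbs : Bs n ((2 * B : ℕ) : ℝ) S (ad e c) := by
      intro a b' hab
      have h1 : |e a b'| + 1 ≤ (B : ℤ) := he.bd a b' hab
      have h2 : |(e a b' : ℝ)| + 1 ≤ (B : ℝ) := by exact_mod_cast h1
      have h3 : (1 : ℝ) ≤ S ^ (n - a - b') := one_le_pow₀ hS
      have h4 : |(co c a b' : ℝ)| ≤ S ^ (n - a - b') := by
        by_cases h : a + b' ≤ 1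
        · have h5 : |co c a b'| ≤ (H : ℤ) := by
            rw [co_of_le c h]
            exact hcH _
          have h6 : |(co c a b' : ℝ)| ≤ (H : ℝ) := by exact_mod_cast h5
          refine h6.trans ?_
          rw [← hSH]
          exact pow_le_pow_right₀ hS (by omega)
        · have h5 : co c a b' = 0 := by
            unfold co
            rw [dif_neg h]
          rw [h5, Int.cast_zero, abs_zero]
          linarith
      have h5 : (ad e c a b' : ℝ) = (e a b' : ℝ) + (co c a b' : ℝ) := by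
        unfold ad
        push_cast
        rfl
      rw [h5]
      have h7 : (2 : ℝ) ≤ B := by exact_mod_cast hB
      calc |(e a b' : ℝ) + (co c a b' : ℝ)| ≤ |(e a b' : ℝ)| + |(co c a b' : ℝ)| := abs_add_le _ _
        _ ≤ B * S ^ (n - a - b') + S ^ (n - a - b') := by nlinarith
        _ ≤ ((2 * B : ℕ) : ℝ) * S ^ (n - a - b') := by
            push_cast
            nlinarith
    have hgd : Gd n (1 / ((2 * B : ℕ) : ℝ)) (ad e c) := by
      intro t ht
      rw [fm_ad e c (by omega : 1 < n)]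
      have h1 : 1 / ((2 * B : ℕ) : ℝ) ≤ 1 / (B : ℝ) := by
        have h7 : (0 : ℝ) < B := by rw [← hb]; exact hb0
        apply one_div_le_one_div_of_le h7
        push_cast
        linarith
      rcases he.gd t ht with h | h
      · exact Or.inl (lt_of_le_of_lt h1 h)
      · exact Or.inr (lt_of_le_of_lt h1 h)
    have hevF : ev n (ad e c) x y = 0 := by
      rw [ev_ad (by omega : 1 ≤ n)]
      exact hev
    have hx3 : ((2 * B : ℕ) : ℝ) ^ k * S ≤ |(x : ℝ)| :=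
      (mul_le_mul_of_nonneg_right (h2b.trans hT₀) hS0.le).trans hx1
    obtain ⟨t, hct, hnear⟩ := hnex (2 * B) (by omega) (ad e c) S hS hbs hgd x y hyx hx3 hevF
    have hrt := hct.rt
    rw [fm_ad e c (by omega : 1 < n)] at hrt
    refine ⟨t, hZm t hrt, ?_⟩
    have hbe : be n (ad e c) t = be n e t := by
      unfold be
      rw [fm_ad e c (by omega : 1 < n), fm_ad e c (by omega : 1 < n - 1)]
    rw [hbe] at hnear
    have h1 : (y : ℝ) - (t * x + be n e t) = (y : ℝ) - t * x - be n e t := by ring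
    show |(y : ℝ) - (t * x + be n e t)| ≤ W / |(x : ℝ)|
    rw [h1, hW]
    refine hnear.trans ?_
    gcongr
  choose! p hp using hpt
  obtain ⟨PP, hPP⟩ : ∃ PP : Finset (ℤ × ℤ), PP = T.image p := ⟨_, rfl⟩
  have hPPm : ∀ P ∈ PP, |P.2| ≤ |P.1| ∧ T₀ * S ≤ |(P.1 : ℝ)| ∧ |(P.1 : ℝ)| ≤ b ^ κ₁ * H ∧
      ∃ t ∈ Z, |(P.2 : ℝ) - (t * P.1 + be n e t)| ≤ W / |(P.1 : ℝ)| := by
    intro P hP
    rw [hPP] at hP
    obtain ⟨c, hc, rfl⟩ := Finset.mem_image.1 hP
    obtain ⟨h1, h2, h3, _, h5⟩ := hp c hc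
    exact ⟨h1, h2, h3, h5⟩
  have hpos : ∀ P ∈ PP, 0 < |(P.1 : ℝ)| := fun P hP =>
    lt_of_lt_of_le (by positivity) (hPPm P hP).2.1
  have hcard : Fintype.card (Ix 1) - (1 + 1) = 1 := by decide
  have hfib : ∀ P ∈ PP, ((T.filter fun c => p c = P).card : ℝ) ≤ Cd * 3 * H * ((H : ℝ) / |(P.1 : ℝ)| + 1) := by
    intro P hP
    have h1 := hdig H hH P.1 P.2 (-ev n e P.1 P.2) (Or.inl (by
      have := hpos P hP
      rw [abs_pos] at this
      exact_mod_cast this)) (T.filter fun c => p c = P) (by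
        intro c hc
        obtain ⟨hcT, hcp⟩ := Finset.mem_filter.1 hc
        refine ⟨(hT c hcT).1, ?_⟩
        rw [← hcp]
        exact (hp c hcT).2.2.2.1)
    have h2 : max |(P.1 : ℝ)| |(P.2 : ℝ)| = |(P.1 : ℝ)| := by
      refine max_eq_left ?_
      exact_mod_cast (hPPm P hP).1
    rw [h2, hcard, pow_one, pow_one] at h1
    refine h1.trans ?_
    have h3 : 2 * (H : ℝ) + 1 ≤ 3 * H := by linarith
    have h4 : 0 ≤ Cd * ((H : ℝ) / |(P.1 : ℝ)| + 1) := by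
      have := hpos P hP
      positivity
    have h5 := mul_le_mul_of_nonneg_left h3 h4
    linarith
  have hTc : (T.card : ℝ) ≤ Cd * 3 * H * ∑ P ∈ PP, ((H : ℝ) / |(P.1 : ℝ)| + 1) := by
    rw [Finset.card_eq_sum_card_image p T, ← hPP, Finset.mul_sum]
    push_cast
    exact Finset.sum_le_sum hfib
  -- the sum over `x`
  obtain ⟨XX, hXX⟩ : ∃ XX : Finset ℤ, XX = PP.image Prod.fst := ⟨_, rfl⟩
  have hXXm : ∀ x ∈ XX, T₀ * S ≤ |(x : ℝ)| ∧ |(x : ℝ)| ≤ b ^ κ₁ * H := by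
    intro x hx
    rw [hXX] at hx
    obtain ⟨P, hP, rfl⟩ := Finset.mem_image.1 hx
    exact ⟨(hPPm P hP).2.1, (hPPm P hP).2.2.1⟩
  have hfx : ∀ x ∈ XX, ((PP.filter fun P => P.1 = x).card : ℝ) ≤ n * (2 * W / |(x : ℝ)| + 1) := by
    intro x hx
    have hx0 : 0 < |(x : ℝ)| := lt_of_lt_of_le (by positivity) (hXXm x hx).1
    have hsub : (PP.filter fun P => P.1 = x).image Prod.snd ⊆
        Z.biUnion fun t => ((PP.filter fun P => P.1 = x).image Prod.snd).filter fun y =>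
          |(y : ℝ) - (t * x + be n e t)| ≤ W / |(x : ℝ)| := by
      intro y hy
      obtain ⟨P, hP, rfl⟩ := Finset.mem_image.1 hy
      obtain ⟨hP1, hP2⟩ := Finset.mem_filter.1 hP
      obtain ⟨_, _, _, t, ht, ht2⟩ := hPPm P hP1
      refine Finset.mem_biUnion.2 ⟨t, ht, Finset.mem_filter.2 ⟨hy, ?_⟩⟩
      rw [← hP2]
      exact ht2
    have hinj : ((PP.filter fun P => P.1 = x).image Prod.snd).card = (PP.filter fun P => P.1 = x).card := by
      refine Finset.card_image_of_injOn ?_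
      intro P hP Q hQ hPQ
      have hP' := (Finset.mem_filter.1 (Finset.mem_coe.1 hP)).2
      have hQ' := (Finset.mem_filter.1 (Finset.mem_coe.1 hQ)).2
      exact Prod.ext (hP'.trans hQ'.symm) hPQ
    have h1 : ((PP.filter fun P => P.1 = x).card : ℝ) ≤ ∑ _t ∈ Z, (2 * (W / |(x : ℝ)|) + 1) := by
      rw [← hinj]
      have h2 := (Finset.card_le_card hsub).trans Finset.card_biUnion_le
      have h3 : (((PP.filter fun P => P.1 = x).image Prod.snd).card : ℝ) ≤ ((∑ t ∈ Z,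
          (((PP.filter fun P => P.1 = x).image Prod.snd).filter fun y : ℤ =>
            |(y : ℝ) - (t * x + be n e t)| ≤ W / |(x : ℝ)|).card : ℕ) : ℝ) := by exact_mod_cast h2
      refine h3.trans ?_
      push_cast
      refine Finset.sum_le_sum fun t _ => ?_
      exact cnt_y (t * x + be n e t) (W / |(x : ℝ)|) (by positivity) _ fun y hy => (Finset.mem_filter.1 hy).2
    refine h1.trans ?_
    rw [Finset.sum_const, nsmul_eq_mul, mul_div_assoc]
    refine mul_le_mul_of_nonneg_right ?_ (by positivity)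
    exact_mod_cast hZc
  have hsum1 : ∑ P ∈ PP, ((H : ℝ) / |(P.1 : ℝ)| + 1) ≤ ∑ x ∈ XX, n * (2 * W / |(x : ℝ)| + 1) * ((H : ℝ) / |(x : ℝ)| + 1) := by
    rw [← Finset.sum_fiberwise_of_maps_to (s := PP) (t := XX) (g := Prod.fst) (fun P hP => by
      rw [hXX]
      exact Finset.mem_image_of_mem _ hP)]
    refine Finset.sum_le_sum fun x hx => ?_
    have hx0 : 0 < |(x : ℝ)| := lt_of_lt_of_le (by positivity) (hXXm x hx).1
    have h1 : ∀ P ∈ PP.filter (fun P => P.1 = x), (H : ℝ) / |(P.1 : ℝ)| + 1 ≤ (H : ℝ) / |(x : ℝ)| + 1 := by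
      intro P hP
      rw [(Finset.mem_filter.1 hP).2]
    refine (Finset.sum_le_card_nsmul _ _ _ h1).trans ?_
    rw [nsmul_eq_mul]
    exact mul_le_mul_of_nonneg_right (hfx x hx) (by positivity)
  obtain ⟨M, hM⟩ : ∃ M : ℕ, M = ⌈T₀ * S⌉₊ := ⟨_, rfl⟩
  obtain ⟨N, hN⟩ : ∃ N : ℕ, N = ⌊b ^ κ₁ * H⌋₊ := ⟨_, rfl⟩
  have hMS : T₀ * S ≤ M := by rw [hM]; exact Nat.le_ceil _
  have hM1 : 1 ≤ M := by
    have : (0 : ℝ) < M := lt_of_lt_of_le (by positivity) hMS
    exact_mod_cast this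
  have hNH : (N : ℝ) ≤ b ^ κ₁ * H := by rw [hN]; exact Nat.floor_le (by positivity)
  have hXX2 : ∀ x ∈ XX, M ≤ x.natAbs ∧ x.natAbs ≤ N := by
    intro x hx
    obtain ⟨h1, h2⟩ := hXXm x hx
    have h3 : ((x.natAbs : ℕ) : ℝ) = |(x : ℝ)| := by
      rw [Nat.cast_natAbs, Int.cast_abs]
    rw [← h3] at h1 h2
    exact ⟨by rw [hM]; exact Nat.ceil_le.2 h1, by rw [hN]; exact Nat.le_floor h2⟩
  have hsum2 : ∑ x ∈ XX, n * (2 * W / |(x : ℝ)| + 1) * ((H : ℝ) / |(x : ℝ)| + 1) ≤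
      n * (2 * (4 * W * H / M + (2 * W + H) * (1 + Real.log N) + N)) := by
    have h1 : ∑ x ∈ XX, n * (2 * W / |(x : ℝ)| + 1) * ((H : ℝ) / |(x : ℝ)| + 1) =
        n * ∑ x ∈ XX, (fun m : ℕ => (2 * W / (m : ℝ) + 1) * ((H : ℝ) / m + 1)) x.natAbs := by
      rw [Finset.mul_sum]
      refine Finset.sum_congr rfl fun x _ => ?_
      have h3 : ((x.natAbs : ℕ) : ℝ) = |(x : ℝ)| := by
        rw [Nat.cast_natAbs, Int.cast_abs]
      simp only [h3]
      ring
    rw [h1]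
    refine mul_le_mul_of_nonneg_left ?_ (Nat.cast_nonneg n)
    refine (sum_abs_le XX M N hXX2 (fun m : ℕ => (2 * W / (m : ℝ) + 1) * ((H : ℝ) / m + 1)) fun m => by positivity).trans ?_
    exact mul_le_mul_of_nonneg_left (sum_x H hH0.le W hW0.le M N hM1) (by norm_num)
  -- bounds
  have hlogH : 0 ≤ Real.log H := Real.log_nonneg hH1
  obtain ⟨A, hA⟩ : ∃ A : ℝ, A = (H : ℝ) ^ 2 * S / T₀ + (H : ℝ) ^ 2 * (1 + Real.log H) := ⟨_, rfl⟩
  rw [← hA]
  have hA1 : (H : ℝ) ^ 2 * S / T₀ ≤ A := by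
    rw [hA]
    have : 0 ≤ (H : ℝ) ^ 2 * (1 + Real.log H) := by positivity
    linarith
  have hA2 : (H : ℝ) ^ 2 * (1 + Real.log H) ≤ A := by
    rw [hA]
    have : 0 ≤ (H : ℝ) ^ 2 * S / T₀ := by positivity
    linarith
  have hA0 : 0 ≤ A := le_trans (by positivity) hA1
  have hbk : ∀ {i j : ℕ}, i ≤ j → b ^ i ≤ b ^ j := fun h => pow_le_pow_right₀ hb1 h
  obtain ⟨D, hD⟩ : ∃ D : ℝ, D = b ^ (2 * k + κ₁ + 1) := ⟨_, rfl⟩
  have hD0 : 0 < D := by rw [hD]; positivity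
  have q1 : H * (4 * W * H / M) ≤ 4 * D * A := by
    have h1 : 4 * W * H / M ≤ 4 * W * H / (T₀ * S) := by
      apply div_le_div_of_nonneg_left (by positivity) (by positivity) hMS
    have h2 : H * (4 * W * H / (T₀ * S)) = 4 * b ^ (2 * k) * ((H : ℝ) ^ 2 * S / T₀) := by
      rw [hW]
      field_simp
    calc H * (4 * W * H / M) ≤ H * (4 * W * H / (T₀ * S)) := mul_le_mul_of_nonneg_left h1 hH0.le
      _ = 4 * b ^ (2 * k) * ((H : ℝ) ^ 2 * S / T₀) := h2
      _ ≤ 4 * D * A := by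
          have h3 : b ^ (2 * k) ≤ D := by rw [hD]; exact hbk (by omega)
          have h4 : 4 * b ^ (2 * k) ≤ 4 * D := by linarith
          exact mul_le_mul h4 hA1 (by positivity) (by positivity)
  have hlogN : 1 + Real.log N ≤ (1 + κ₁) * b * (1 + Real.log H) := by
    have h0 : (0 : ℝ) ≤ κ₁ := Nat.cast_nonneg _
    rcases Nat.eq_zero_or_pos N with h | h
    · rw [h, Nat.cast_zero, Real.log_zero, add_zero]
      have h1 : 1 ≤ (1 + (κ₁ : ℝ)) * b := by nlinarith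
      nlinarith
    · have h1 : Real.log N ≤ Real.log (b ^ κ₁ * H) := Real.log_le_log (by exact_mod_cast h) hNH
      rw [Real.log_mul (by positivity) (by positivity), Real.log_pow] at h1
      have h2 : Real.log b ≤ b := (Real.log_le_sub_one_of_pos hb0).trans (by linarith)
      have h3 : (κ₁ : ℝ) * Real.log b ≤ κ₁ * b := mul_le_mul_of_nonneg_left h2 h0
      have h4 : 0 ≤ (κ₁ : ℝ) * b := by positivity
      have h5 : 0 ≤ (κ₁ : ℝ) * b * Real.log H := by positivity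
      have h6 : Real.log H ≤ b * Real.log H := by nlinarith
      nlinarith
  have q2 : H * ((2 * W + H) * (1 + Real.log N)) ≤ 3 * (1 + κ₁) * D * A := by
    have h0 : (0 : ℝ) ≤ κ₁ := Nat.cast_nonneg _
    have h1 : 2 * W + H ≤ 3 * b ^ (2 * k) * H := by
      have h2 : W ≤ b ^ (2 * k) * H := by rw [hW]; gcongr
      have h3 : (1 : ℝ) ≤ b ^ (2 * k) := one_le_pow₀ hb1
      nlinarith
    have hlN : 0 ≤ 1 + Real.log (N : ℝ) := by
      have : 0 ≤ Real.log (N : ℝ) := Real.log_natCast_nonneg N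
      linarith
    calc H * ((2 * W + H) * (1 + Real.log N)) ≤ H * ((3 * b ^ (2 * k) * H) * ((1 + κ₁) * b * (1 + Real.log H))) := by
          refine mul_le_mul_of_nonneg_left ?_ hH0.le
          exact mul_le_mul h1 hlogN hlN (by positivity)
      _ = 3 * (1 + κ₁) * b ^ (2 * k + 1) * ((H : ℝ) ^ 2 * (1 + Real.log H)) := by ring
      _ ≤ 3 * (1 + κ₁) * D * A := by
          have h3 : b ^ (2 * k + 1) ≤ D := by rw [hD]; exact hbk (by omega)
          have h4 : 3 * (1 + (κ₁ : ℝ)) * b ^ (2 * k + 1) ≤ 3 * (1 + κ₁) * D := mul_le_mul_of_nonneg_left h3 (by positivity)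
          exact mul_le_mul h4 hA2 (by positivity) (by positivity)
  have q3 : H * (N : ℝ) ≤ 1 * D * A := by
    calc H * (N : ℝ) ≤ H * (b ^ κ₁ * H) := mul_le_mul_of_nonneg_left hNH hH0.le
      _ = b ^ κ₁ * ((H : ℝ) ^ 2 * 1) := by ring
      _ ≤ b ^ κ₁ * ((H : ℝ) ^ 2 * (1 + Real.log H)) := by gcongr; linarith
      _ ≤ D * A := by
          have h3 : b ^ κ₁ ≤ D := by rw [hD]; exact hbk (by omega)
          exact mul_le_mul h3 hA2 (by positivity) (by positivity)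
      _ = 1 * D * A := by ring
  have hfin : (T.card : ℝ) ≤ (Cd * 6 * n * (4 + 3 * (1 + κ₁) + 1)) * (D * A) := by
    refine hTc.trans ?_
    have h1 := hsum1.trans hsum2
    have h2 := mul_le_mul_of_nonneg_left h1 (by positivity : 0 ≤ Cd * 3 * (H : ℝ))
    refine h2.trans ?_
    have h3 : Cd * 3 * (H : ℝ) * (n * (2 * (4 * W * H / M + (2 * W + H) * (1 + Real.log N) + N))) =
        Cd * 6 * n * (H * (4 * W * H / M) + H * ((2 * W + H) * (1 + Real.log N)) + H * (N : ℝ)) := by ring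
    rw [h3]
    have h4 : H * (4 * W * H / M) + H * ((2 * W + H) * (1 + Real.log N)) + H * (N : ℝ) ≤
        (4 + 3 * (1 + κ₁) + 1) * (D * A) := by
      have : (4 + 3 * (1 + (κ₁ : ℝ)) + 1) * (D * A) = 4 * D * A + 3 * (1 + κ₁) * D * A + 1 * D * A := by ring
      rw [this]
      linarith
    have h5 := mul_le_mul_of_nonneg_left h4 (by positivity : 0 ≤ Cd * 6 * (n : ℝ))
    refine h5.trans (le_of_eq ?_)
    ring
  have hC2 : Cd * 6 * n * (4 + 3 * (1 + κ₁) + 1) ≤ b ^ k₁ :=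
    hk₁.le.trans (pow_le_pow_left₀ (by norm_num) hb2 _)
  calc (T.card : ℝ) ≤ (Cd * 6 * n * (4 + 3 * (1 + κ₁) + 1)) * (D * A) := hfin
    _ ≤ b ^ k₁ * (D * A) := mul_le_mul_of_nonneg_right hC2 (by positivity)
    _ = b ^ (k₁ + (2 * k + κ₁ + 1)) * A := by
        rw [hD, pow_add b k₁]
        ring

end Pool.Agent.H82.TE
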