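import Pool.Agent.H82.TE.Te1b
import Pool.Agent.H82.TE.Frg

/-! # [H82 TE TE1] THEOREM TE1: the stratum `j = 1`, every `n ≥ 4`, every fixed upper part, effective and uniform in `G` -/

namespace Pool.Agent.H82.TE

open Finset MvPolynomial Pool.Agent.H8.AA Pool.Agent.H88.A2 Pool.Agent.H88.TU Pool.Agent.H82.TO Pool.Agent.H82.A3

theorem te1 (n : ℕ) (hn : 4 ≤ n) : ∃ κ : ℕ, ∀ B : ℕ, 2 ≤ B → ∀ G : MvPolynomial (Fin 2) ℤ,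
    Hyp0 n 1 G → (∀ m, |G.coeff m| + 1 ≤ (B : ℤ)) → ∀ H : ℕ, 1 ≤ H →
    (cnt 1 G H : ℝ) ≤ (B : ℝ) ^ κ * (H : ℝ) ^ (2 + 1 / ((n - 1 : ℕ) : ℝ)) ∧
    ((B : ℝ) ^ κ ≤ H → (H : ℝ) ^ (2 + 1 / ((n - 1 : ℕ) : ℝ)) ≤ (B : ℝ) ^ κ * cnt 1 G H) ∧
    ∀ T : ℝ, 1 ≤ T → (bad 1 G H (T * (H : ℝ) ^ (1 / ((n - 1 : ℕ) : ℝ))) : ℝ) ≤
      (B : ℝ) ^ κ * (1 / T + T ^ 4 * (H : ℝ) ^ (-(1 / (4 * (n : ℝ) ^ 2)))) * (H : ℝ) ^ (2 + 1 / ((n - 1 : ℕ) : ℝ)) :=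
  te1_of n hn (far n hn)

/-- for `T ≥ 1` no condition `T` small against `H`: error `1/T + 1/(1 + log H)` -/
theorem te1_log (n : ℕ) (hn : 4 ≤ n) : ∃ κ : ℕ, ∀ B : ℕ, 2 ≤ B → ∀ G : MvPolynomial (Fin 2) ℤ,
    Hyp0 n 1 G → (∀ m, |G.coeff m| + 1 ≤ (B : ℤ)) → ∀ H : ℕ, 1 ≤ H → ∀ T : ℝ, 1 ≤ T →
    (bad 1 G H (T * (H : ℝ) ^ (1 / ((n - 1 : ℕ) : ℝ))) : ℝ) ≤
      (B : ℝ) ^ κ * (1 / T + (H : ℝ) ^ (-(1 / (40 * (n : ℝ) ^ 2)))) * (H : ℝ) ^ (2 + 1 / ((n - 1 : ℕ) : ℝ)) := by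
  obtain ⟨κ, hκ⟩ := te1 n hn
  refine ⟨κ + 1, ?_⟩
  intro B hB G h hGB H hH T hT
  have hBr : (2 : ℝ) ≤ B := by exact_mod_cast hB
  have hB1 : (1 : ℝ) ≤ B := by linarith
  have hH' : (1 : ℝ) ≤ (H : ℝ) := by exact_mod_cast hH
  have hH0 : (0 : ℝ) < (H : ℝ) := by linarith
  have hn4 : (4 : ℝ) ≤ n := by exact_mod_cast hn
  have hT0 : (0 : ℝ) < T := by linarith
  obtain ⟨-, -, h3⟩ := hκ B hB G h hGB H hH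
  obtain ⟨Y, hY⟩ : ∃ Y : ℝ, Y = (H : ℝ) ^ (2 + 1 / ((n - 1 : ℕ) : ℝ)) := ⟨_, rfl⟩
  have hY0 : 0 < Y := by rw [hY]; exact Real.rpow_pos_of_pos hH0 _
  obtain ⟨S, hS⟩ : ∃ S : ℝ, S = (H : ℝ) ^ (1 / ((n - 1 : ℕ) : ℝ)) := ⟨_, rfl⟩
  have hS0 : 0 ≤ S := by rw [hS]; exact Real.rpow_nonneg hH0.le _
  rw [← hY, ← hS] at h3 ⊢
  -- `T' = min T (H^(1/(40 n²)))`
  obtain ⟨t, ht⟩ : ∃ t : ℝ, t = (H : ℝ) ^ (1 / (40 * (n : ℝ) ^ 2)) := ⟨_, rfl⟩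
  have ht1 : 1 ≤ t := by rw [ht]; exact Real.one_le_rpow hH' (by positivity)
  have ht0 : 0 < t := by linarith
  have htinv : (H : ℝ) ^ (-(1 / (40 * (n : ℝ) ^ 2))) = 1 / t := by
    rw [Real.rpow_neg hH0.le, ← ht]
    exact (one_div _).symm
  have h10 : (H : ℝ) ^ (-(1 / (4 * (n : ℝ) ^ 2))) = 1 / t ^ 10 := by
    have e1 : t ^ 10 = (H : ℝ) ^ (1 / (4 * (n : ℝ) ^ 2)) := by
      rw [ht, ← Real.rpow_natCast, ← Real.rpow_mul hH0.le]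
      congr 1
      push_cast
      field_simp
      norm_num
    rw [e1, Real.rpow_neg hH0.le]
    exact (one_div _).symm
  rw [htinv]
  rw [h10] at h3
  obtain ⟨m, hm⟩ : ∃ m : ℝ, m = min T t := ⟨_, rfl⟩
  have hm1 : 1 ≤ m := by rw [hm]; exact le_min hT ht1
  have hm0 : 0 < m := by linarith
  have hmT : m ≤ T := by rw [hm]; exact min_le_left _ _
  have hmt : m ≤ t := by rw [hm]; exact min_le_right _ _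
  have h4 := h3 m hm1
  have h5 : (bad 1 G H (T * S) : ℝ) ≤ (bad 1 G H (m * S) : ℝ) := by
    exact_mod_cast bad_mono 1 G H (mul_le_mul_of_nonneg_right hmT hS0)
  have h6 : 1 / m ≤ 1 / T + 1 / t := by
    have e1 : 0 ≤ 1 / T := by positivity
    have e2 : 0 ≤ 1 / t := by positivity
    rcases min_choice T t with e | e
    · rw [hm, e]; linarith
    · rw [hm, e]; linarith
  have h7 : m ^ 4 * (1 / t ^ 10) ≤ 1 / T + 1 / t := by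
    have e1 : m ^ 4 * (1 / t ^ 10) ≤ t ^ 4 * (1 / t ^ 10) := by gcongr
    have e2 : t ^ 4 * (1 / t ^ 10) ≤ 1 / t := by
      rw [mul_one_div, div_le_div_iff₀ (by positivity) ht0]
      have e3 : t ^ 5 ≤ t ^ 10 := pow_le_pow_right₀ ht1 (by norm_num)
      nlinarith
    have e3 : 0 ≤ 1 / T := by positivity
    linarith
  refine h5.trans (h4.trans ?_)
  have h8 : 1 / m + m ^ 4 * (1 / t ^ 10) ≤ 2 * (1 / T + 1 / t) := by linarith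
  calc (B : ℝ) ^ κ * (1 / m + m ^ 4 * (1 / t ^ 10)) * Y ≤ (B : ℝ) ^ κ * (2 * (1 / T + 1 / t)) * Y := by gcongr
    _ = (B : ℝ) ^ κ * 2 * (1 / T + 1 / t) * Y := by ring
    _ ≤ (B : ℝ) ^ κ * B * (1 / T + 1 / t) * Y := by gcongr
    _ = _ := by rw [pow_succ]

end Pool.Agent.H82.TE
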