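import Pool.Agent.H82.TE.Mid
import Pool.Agent.H82.TE.Nea
import Pool.Agent.H82.TE.Mom
import Pool.Agent.H88.TU.Gdx
import Pool.Agent.H82.TO.Uq

/-! # [H82 TE TE1A] The points beyond `T₀ S`, both charts, `j = 1`, uniform in `G` -/

namespace Pool.Agent.H82.TE

open Finset MvPolynomial Pool.Agent.H8.AA Pool.Agent.H88.A2 Pool.Agent.H88.TU Pool.Agent.H82.TO Pool.Agent.H82.A3

/-- the points beyond `T₀ S` -/
def BigS (n κ₀ κ : ℕ) : Prop :=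
    ∀ B : ℕ, 2 ≤ B → ∀ G : MvPolynomial (Fin 2) ℤ, Hyp0 n 1 G → (∀ m, |G.coeff m| + 1 ≤ (B : ℤ)) →
    ∀ (H : ℕ) (S T₀ : ℝ), 1 ≤ H → 1 ≤ S → S ^ (n - 1) = H → (B : ℝ) ^ κ₀ ≤ T₀ → ∀ T : Finset (Ix 1 → ℤ),
    (∀ c ∈ T, (∀ p, |c p| ≤ (H : ℤ)) ∧ ∃ P : Fin 2 → ℤ, eval P (G + pol c) = 0 ∧ T₀ * S ≤ max |(P 0 : ℝ)| |(P 1 : ℝ)|) →
    (T.card : ℝ) ≤ (B : ℝ) ^ κ * ((H : ℝ) ^ 2 * S / T₀ + (H : ℝ) ^ 2 * (H : ℝ) ^ (1 / (n : ℝ)) * (1 + Real.log H))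

theorem bigx (n : ℕ) (hn : 4 ≤ n) (hfar : ∃ E κ : ℕ, FarS n E κ) : ∃ κ₀ κ : ℕ, BigS n κ₀ κ := by
  classical
  obtain ⟨E, κf, hf⟩ := hfar
  obtain ⟨κ₁, κm, hmid⟩ := mid n E hn
  obtain ⟨κ₀, κe, hnea⟩ := nea n κ₁ hn
  obtain ⟨κw, hκw⟩ := pw (9 * (κf : ℝ) + 6)
  refine ⟨10 * n ^ 2 * κ₀, κw + 10 * n ^ 2 * κe + 10 * n ^ 2 * κm, ?_⟩
  intro B hB G h hGB H S T₀ hH hS hSH hT₀ T hT
  have hBr : (2 : ℝ) ≤ B := by exact_mod_cast hB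
  have hB1 : (1 : ℝ) ≤ B := by linarith
  have hB0 : (0 : ℝ) < B := by linarith
  have hH' : (1 : ℝ) ≤ H := by exact_mod_cast hH
  have hH0 : (0 : ℝ) < H := by linarith
  obtain ⟨D, hD⟩ : ∃ D : ℕ, D = B ^ (10 * n ^ 2) := ⟨_, rfl⟩
  have hDr : (D : ℝ) = (B : ℝ) ^ (10 * n ^ 2) := by rw [hD]; push_cast; rfl
  have hBD : B ≤ D := by
    rw [hD]
    exact Nat.le_self_pow (by positivity) _
  have hD2 : 2 ≤ D := by omega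
  obtain ⟨hb1, hb2⟩ := gdx_ex n (by omega) B hB G h.deg h.irr hGB D (le_of_eq hD.symm)
  have hz := nz_of (by omega : 2 ≤ n) h.irr
  have hz2 := nz_sw hz
  have hlog : 0 ≤ Real.log H := Real.log_nonneg hH'
  have hT₀1 : 1 ≤ T₀ := le_trans (one_le_pow₀ hB1) hT₀
  have hT₀0 : 0 < T₀ := by linarith
  have hT₀D : (D : ℝ) ^ κ₀ ≤ T₀ := by
    rw [hDr, ← pow_mul]
    exact hT₀
  obtain ⟨U, hU⟩ : ∃ U : ℝ, U = ((D * H : ℕ) : ℝ) ^ E := ⟨_, rfl⟩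
  obtain ⟨V1, hV1⟩ : ∃ V1 : ℝ, V1 = (D : ℝ) ^ κe * ((H : ℝ) ^ 2 * S / T₀ + (H : ℝ) ^ 2 * (1 + Real.log H)) := ⟨_, rfl⟩
  obtain ⟨V2, hV2⟩ : ∃ V2 : ℝ, V2 = (D : ℝ) ^ κm * ((H : ℝ) ^ 2 * (H : ℝ) ^ (1 / (n : ℝ)) * (1 + Real.log H)) := ⟨_, rfl⟩
  -- one chart
  have one : ∀ e : ℕ → ℕ → ℤ, Bas n D e → Nz n e → ∀ Z : Finset (Ix 1 → ℤ), (∀ c ∈ Z, (∀ p, |c p| ≤ (H : ℤ)) ∧
      ∃ x y : ℤ, |y| ≤ |x| ∧ T₀ * S ≤ |(x : ℝ)| ∧ |(x : ℝ)| ≤ U ∧ ev n e x y + ev 1 (co c) x y = 0) → (Z.card : ℝ) ≤ V1 + V2 := by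
    intro e he hze Z hZ
    obtain ⟨Z1, hZ1⟩ : ∃ Z1, Z1 = Z.filter (fun c => ∃ x y : ℤ, |y| ≤ |x| ∧ T₀ * S ≤ |(x : ℝ)| ∧
      |(x : ℝ)| ≤ (D : ℝ) ^ κ₁ * H ∧ ev n e x y + ev 1 (co c) x y = 0) := ⟨_, rfl⟩
    obtain ⟨Z2, hZ2⟩ : ∃ Z2, Z2 = Z.filter (fun c => ∃ x y : ℤ, |y| ≤ |x| ∧ (D : ℝ) ^ κ₁ * H ≤ |(x : ℝ)| ∧
      |(x : ℝ)| ≤ ((D * H : ℕ) : ℝ) ^ E ∧ ev n e x y + ev 1 (co c) x y = 0) := ⟨_, rfl⟩
    have h1 := hnea D hD2 e he H S T₀ hH hS hSH hT₀D Z1 (by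
      intro c hc
      rw [hZ1, mem_filter] at hc
      exact ⟨(hZ c hc.1).1, hc.2⟩)
    have h2 := hmid D hD2 e he hze H hH Z2 (by
      intro c hc
      rw [hZ2, mem_filter] at hc
      exact ⟨(hZ c hc.1).1, hc.2⟩)
    rw [← hV1] at h1
    rw [← hV2] at h2
    have h3 : Z ⊆ Z1 ∪ Z2 := by
      intro c hc
      obtain ⟨hbx, x, y, q1, q2, q3, q4⟩ := hZ c hc
      rw [mem_union, hZ1, hZ2, mem_filter, mem_filter]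
      rcases le_total |(x : ℝ)| ((D : ℝ) ^ κ₁ * H) with q | q
      · exact Or.inl ⟨hc, x, y, q1, q2, q, q4⟩
      · exact Or.inr ⟨hc, x, y, q1, q, by rw [← hU]; exact q3, q4⟩
    have h4 : (Z.card : ℝ) ≤ Z1.card + Z2.card := by exact_mod_cast (card_le_card h3).trans (card_union_le Z1 Z2)
    linarith
  -- the splitting
  obtain ⟨U1, hU1⟩ : ∃ U1, U1 = T.filter (fun c => ∃ x y : ℤ, |y| ≤ |x| ∧ T₀ * S ≤ |(x : ℝ)| ∧ |(x : ℝ)| ≤ U ∧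
    ev n (ar G) x y + ev 1 (co c) x y = 0) := ⟨_, rfl⟩
  obtain ⟨U2, hU2⟩ : ∃ U2, U2 = T.filter (fun c => ∃ x y : ℤ, |y| ≤ |x| ∧ T₀ * S ≤ |(x : ℝ)| ∧ |(x : ℝ)| ≤ U ∧
    ev n (ar G) y x + ev 1 (co c) y x = 0) := ⟨_, rfl⟩
  obtain ⟨U3, hU3⟩ : ∃ U3, U3 = T.filter (fun c => ∃ P : Fin 2 → ℤ, eval P (G + pol c) = 0 ∧
      ∃ i, ((B * H : ℕ) : ℤ) ^ E < |P i|) := ⟨_, rfl⟩
  have hsub : T ⊆ U1 ∪ U2 ∪ U3 := by
    intro c hc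
    obtain ⟨hbox, P, hP, hmax⟩ := hT c hc
    simp only [mem_union]
    rw [hU1, hU2, hU3, mem_filter, mem_filter, mem_filter]
    by_cases hlarge : ∃ i, ((B * H : ℕ) : ℤ) ^ E < |P i|
    · exact Or.inr ⟨hc, P, hP, hlarge⟩
    push Not at hlarge
    have hle : ∀ i, |(P i : ℝ)| ≤ U := by
      intro i
      have h3 := hlarge i
      have h4 : |(P i : ℝ)| ≤ ((B * H : ℕ) : ℝ) ^ E := by exact_mod_cast h3
      refine h4.trans ?_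
      rw [hU]
      refine pow_le_pow_left₀ (Nat.cast_nonneg _) ?_ _
      exact_mod_cast Nat.mul_le_mul_right H hBD
    have h4 : ev n (ar G) (P 0) (P 1) + ev 1 (co c) (P 0) (P 1) = 0 := by
      have h5 := (zer_iff G c P).1 hP
      have h6 := ar_ev h.deg P
      have hvec : ![P 0, P 1] = P := by
        funext i
        fin_cases i <;> rfl
      rw [h5, h6, hvec]
      ring
    rcases le_total |P 1| |P 0| with h3 | h3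
    · have h3' : |(P 1 : ℝ)| ≤ |(P 0 : ℝ)| := by exact_mod_cast h3
      rw [max_eq_left h3'] at hmax
      exact Or.inl (Or.inl ⟨hc, P 0, P 1, h3, hmax, hle 0, h4⟩)
    · have h3' : |(P 0 : ℝ)| ≤ |(P 1 : ℝ)| := by exact_mod_cast h3
      rw [max_eq_right h3'] at hmax
      exact Or.inl (Or.inr ⟨hc, P 1, P 0, h3, hmax, hle 1, h4⟩)
  have hcT : (T.card : ℝ) ≤ U1.card + U2.card + U3.card := by
    have e1 := card_le_card hsub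
    have e2 := card_union_le (U1 ∪ U2) U3
    have e3 := card_union_le U1 U2
    have e5 : T.card ≤ U1.card + U2.card + U3.card := by omega
    exact_mod_cast e5
  have hc1 : (U1.card : ℝ) ≤ V1 + V2 := by
    refine one (ar G) hb1 hz U1 ?_
    intro c hc
    rw [hU1, mem_filter] at hc
    exact ⟨(hT c hc.1).1, hc.2⟩
  have hinj : Function.Injective (fun (c : Ix 1 → ℤ) (p : Ix 1) => c (sp p)) := by
    intro c c' hcc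
    funext p
    have := congrFun hcc (sp p)
    exact this
  have hc2 : (U2.card : ℝ) ≤ V1 + V2 := by
    have e1 := one (sw (ar G)) hb2 hz2 (U2.image (fun c p => c (sp p))) (by
      intro c' hc'
      obtain ⟨c, hc, rfl⟩ := mem_image.1 hc'
      rw [hU2, mem_filter] at hc
      refine ⟨fun p => (hT c hc.1).1 _, ?_⟩
      obtain ⟨x, y, h4, h5, h6, h7⟩ := hc.2
      refine ⟨x, y, h4, h5, h6, ?_⟩
      have h9 : co (fun p => c (sp p)) = sw (co c) := by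
        funext a b
        rw [co_sp]
        rfl
      rw [h9, ev_sw, ev_sw]
      exact h7)
    rw [card_image_of_injective _ hinj] at e1
    exact e1
  have hc3 : (U3.card : ℝ) ≤ κf * (2 * (H : ℝ) + 1) ^ 2 := by
    have e1 := hf 1 G h B H hB hGB hH U3 (by
      intro c hc
      rw [hU3, mem_filter] at hc
      exact ⟨(hT c hc.1).1, hc.2⟩)
    rw [card_ix, show (1 + 1) * (1 + 2) / 2 - 1 = 2 from rfl] at e1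
    exact e1
  -- the sum
  obtain ⟨Y1, hY1⟩ : ∃ Y1 : ℝ, Y1 = (H : ℝ) ^ 2 * S / T₀ := ⟨_, rfl⟩
  obtain ⟨Y2, hY2⟩ : ∃ Y2 : ℝ, Y2 = (H : ℝ) ^ 2 * (H : ℝ) ^ (1 / (n : ℝ)) * (1 + Real.log H) := ⟨_, rfl⟩
  have hHn : 1 ≤ (H : ℝ) ^ (1 / (n : ℝ)) := Real.one_le_rpow hH' (by positivity)
  have hY10 : 0 ≤ Y1 := by rw [hY1]; positivity
  have hY20 : (H : ℝ) ^ 2 * (1 + Real.log H) ≤ Y2 := by
    rw [hY2]
    have e1 : (H : ℝ) ^ 2 ≤ (H : ℝ) ^ 2 * (H : ℝ) ^ (1 / (n : ℝ)) := le_mul_of_one_le_right (by positivity) hHn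
    exact mul_le_mul_of_nonneg_right e1 (by linarith)
  have hY21 : (H : ℝ) ^ 2 ≤ Y2 := by
    refine le_trans ?_ hY20
    exact le_mul_of_one_le_right (by positivity) (by linarith)
  rw [← hY1] at hV1 ⊢
  rw [← hY2] at hV2 ⊢
  have hDe : (D : ℝ) ^ κe = (B : ℝ) ^ (10 * n ^ 2 * κe) := by rw [hDr, ← pow_mul]
  have hDm : (D : ℝ) ^ κm = (B : ℝ) ^ (10 * n ^ 2 * κm) := by rw [hDr, ← pow_mul]
  obtain ⟨P1, hP1⟩ : ∃ P1 : ℝ, P1 = (B : ℝ) ^ (10 * n ^ 2 * κe) := ⟨_, rfl⟩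
  obtain ⟨P2, hP2⟩ : ∃ P2 : ℝ, P2 = (B : ℝ) ^ (10 * n ^ 2 * κm) := ⟨_, rfl⟩
  have hP11 : 1 ≤ P1 := by rw [hP1]; exact one_le_pow₀ hB1
  have hP21 : 1 ≤ P2 := by rw [hP2]; exact one_le_pow₀ hB1
  rw [hDe, ← hP1] at hV1
  rw [hDm, ← hP2] at hV2
  have hPP1 : P1 ≤ P1 * P2 := le_mul_of_one_le_right (by linarith) hP21
  have hPP2 : P2 ≤ P1 * P2 := le_mul_of_one_le_left (by linarith) hP11
  have hPP : 1 ≤ P1 * P2 := by linarith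
  have hY20' : 0 ≤ Y2 := le_trans (by positivity) hY21
  have hv1 : V1 ≤ P1 * P2 * (Y1 + Y2) := by
    rw [hV1]
    refine mul_le_mul hPP1 (by linarith) ?_ (by linarith)
    have : 0 ≤ (H : ℝ) ^ 2 * (1 + Real.log H) := by positivity
    linarith
  have hv2 : V2 ≤ P1 * P2 * (Y1 + Y2) := by
    rw [hV2]
    exact mul_le_mul hPP2 (by linarith) hY20' (by linarith)
  have hv3 : κf * (2 * (H : ℝ) + 1) ^ 2 ≤ 9 * κf * (P1 * P2 * (Y1 + Y2)) := by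
    have e1 : (2 * (H : ℝ) + 1) ^ 2 ≤ 9 * (H : ℝ) ^ 2 := by nlinarith
    have e2 : (H : ℝ) ^ 2 ≤ P1 * P2 * (Y1 + Y2) := by
      calc (H : ℝ) ^ 2 ≤ 1 * (Y1 + Y2) := by linarith
        _ ≤ P1 * P2 * (Y1 + Y2) := mul_le_mul_of_nonneg_right hPP (by linarith)
    have e3 : (0 : ℝ) ≤ κf := Nat.cast_nonneg _
    nlinarith
  have hfin : 0 ≤ P1 * P2 * (Y1 + Y2) := by positivity
  calc (T.card : ℝ) ≤ (9 * (κf : ℝ) + 6) * (P1 * P2 * (Y1 + Y2)) := by linarith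
    _ ≤ (B : ℝ) ^ κw * (P1 * P2 * (Y1 + Y2)) := mul_le_mul_of_nonneg_right (hκw B hB) hfin
    _ = (B : ℝ) ^ (κw + 10 * n ^ 2 * κe + 10 * n ^ 2 * κm) * (Y1 + Y2) := by
      rw [hP1, hP2, pow_add, pow_add]
      ring

end Pool.Agent.H82.TE
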