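import Pool.Agent.H82.TE.Te1a
import Pool.Agent.H82.TO.Lo
import Pool.Agent.H82.TO.As10

/-! # [H82 TE TE1B] The stratum `j = 1`, effective and uniform in `G` -/

namespace Pool.Agent.H82.TE

open Finset MvPolynomial Pool.Agent.H8.AA Pool.Agent.H88.A2 Pool.Agent.H88.TU Pool.Agent.H82.TO Pool.Agent.H82.A3

/-- the lower bound, `j = 1`, uniform in `G` -/
theorem lo1x (n : ℕ) (hn : 4 ≤ n) : ∃ κ : ℕ, ∀ B : ℕ, 2 ≤ B → ∀ G : MvPolynomial (Fin 2) ℤ, G.totalDegree ≤ n →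
    (∀ m, |G.coeff m| + 1 ≤ (B : ℤ)) → ∀ H : ℕ, (B : ℝ) ^ κ ≤ H →
    (H : ℝ) ^ (2 + 1 / ((n - 1 : ℕ) : ℝ)) ≤ (B : ℝ) ^ κ * cnt 1 G H := by
  obtain ⟨Cp, hCp, hm⟩ := Pool.Agent.H82.TO.mom 1 (le_refl _)
  obtain ⟨κw, hκw⟩ := pw (192 * Cp + 8 * ((n : ℝ) + 1) ^ 2 + 16)
  refine ⟨(κw + 8) * n, ?_⟩
  intro B hB G hG hGB H hHH
  have hBr : (2 : ℝ) ≤ B := by exact_mod_cast hB
  have hB1 : (1 : ℝ) ≤ B := by linarith
  obtain ⟨D, hDd⟩ : ∃ D : ℝ, D = ((n : ℝ) + 1) ^ 2 * B := ⟨_, rfl⟩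
  have hD : 1 ≤ D := by
    rw [hDd]
    have : (1 : ℝ) ≤ ((n : ℝ) + 1) ^ 2 := one_le_pow₀ (by linarith [(Nat.cast_nonneg n : (0 : ℝ) ≤ n)])
    nlinarith
  have hval : ∀ (P : Fin 2 → ℤ) (R : ℝ), 1 ≤ R → |(P 0 : ℝ)| ≤ R → |(P 1 : ℝ)| ≤ R → |((eval P G : ℤ) : ℝ)| ≤ D * R ^ n := by
    intro P R h1 h2 h3
    rw [hDd]
    exact val_lex hG hGB P R h1 h2 h3
  obtain ⟨δ, hδ⟩ : ∃ δ : ℝ, δ = 1 / (192 * Cp + 8 * D + 16) := ⟨_, rfl⟩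
  have hδB : 1 / δ ≤ (B : ℝ) ^ (κw + 1) := by
    rw [hδ, one_div_one_div, hDd, pow_succ]
    calc 192 * Cp + 8 * (((n : ℝ) + 1) ^ 2 * B) + 16 ≤ (192 * Cp + 8 * ((n : ℝ) + 1) ^ 2 + 16) * B := by
          have : 0 ≤ 192 * Cp := by positivity
          nlinarith
      _ ≤ (B : ℝ) ^ κw * B := mul_le_mul_of_nonneg_right (hκw B hB) (by linarith)
  have hδ0 : 0 < δ := by rw [hδ]; positivity
  have hden : δ * (192 * Cp + 8 * D + 16) = 1 := by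
    rw [hδ, one_div, inv_mul_cancel₀ (by positivity)]
  have hδ1 : δ ≤ 1 := by
    rw [hδ, div_le_one (by positivity)]
    linarith
  have hδC : 192 * Cp * δ ≤ 1 := by nlinarith
  have hδD : 8 * D * δ ≤ 1 := by nlinarith
  have hδ16 : 16 * δ ≤ 1 := by nlinarith
  have hHB : (B : ℝ) ^ ((κw + 1) * (n - 1)) ≤ H := by
    refine le_trans (pow_le_pow_right₀ hB1 ?_) hHH
    exact Nat.mul_le_mul (by omega) (by omega)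
  have hH' : (1 : ℝ) ≤ (H : ℝ) := le_trans (one_le_pow₀ hB1) hHB
  have hH : 1 ≤ H := by exact_mod_cast hH'
  have hH0 : (0 : ℝ) < (H : ℝ) := by linarith
  have hnr : (0 : ℝ) < ((n - 1 : ℕ) : ℝ) := by exact_mod_cast (by omega : 0 < n - 1)
  obtain ⟨S, hS⟩ : ∃ S : ℝ, S = (H : ℝ) ^ (1 / ((n - 1 : ℕ) : ℝ)) := ⟨_, rfl⟩
  have hS1 : 1 ≤ S := by rw [hS]; exact Real.one_le_rpow hH' (by positivity)
  have hS0 : 0 < S := by linarith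
  have hSH : S ^ (n - 1) = H := by
    rw [hS, ← Real.rpow_natCast, ← Real.rpow_mul hH0.le, one_div, inv_mul_cancel₀ hnr.ne', Real.rpow_one]
  have hpow : (H : ℝ) ^ (2 + 1 / ((n - 1 : ℕ) : ℝ)) = (H : ℝ) ^ 2 * S := by
    rw [Real.rpow_add hH0, hS]
    norm_num
  have hSle : S ≤ H := by
    rw [← hSH]
    exact le_self_pow₀ hS1 (by omega)
  have hS3 : S ^ 3 ≤ H := by
    rw [← hSH]
    exact pow_le_pow_right₀ hS1 (by omega)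
  have hδS : 1 ≤ δ * S := by
    by_contra hcon
    push Not at hcon
    have h1 : S < 1 / δ := by rw [lt_div_iff₀ hδ0]; linarith
    have h2 : S ^ (n - 1) < (1 / δ) ^ (n - 1) := pow_lt_pow_left₀ h1 hS0.le (by omega)
    rw [hSH] at h2
    have h3 : (1 / δ) ^ (n - 1) ≤ H := by
      refine le_trans (pow_le_pow_left₀ (by positivity) hδB _) ?_
      rw [← pow_mul]
      exact hHB
    linarith
  obtain ⟨X, hX⟩ : ∃ X : ℕ, X = ⌊δ * S⌋₊ := ⟨_, rfl⟩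
  have hXle : (X : ℝ) ≤ δ * S := by rw [hX]; exact Nat.floor_le (by positivity)
  have hX1 : 1 ≤ X := by rw [hX]; exact Nat.floor_pos.2 hδS
  have hXge : δ * S / 2 ≤ X := by
    have h1 : δ * S < (X : ℝ) + 1 := by rw [hX]; exact Nat.lt_floor_add_one _
    have h2 : (1 : ℝ) ≤ X := by exact_mod_cast hX1
    linarith
  have h1 := hm H hH G X (fun x => (H : ℝ) ^ 2 / (32 * x)) (by
    intro p hp
    obtain ⟨hp1, hp2, hp3⟩ := mem_pts hp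
    have hpr : (1 : ℝ) ≤ p.1 := by exact_mod_cast hp1
    have hpX : (p.1 : ℝ) ≤ δ * S := le_trans (by exact_mod_cast hp2) hXle
    have h16 : 16 * (p.1 : ℝ) ≤ H := by nlinarith
    have hv := hval ![(p.1 : ℤ), (p.2 : ℤ)] (p.1 : ℝ) hpr (by simp) (by
      simp only [Matrix.cons_val_one, Matrix.cons_val_fin_one, Int.cast_natCast, Nat.abs_cast]
      exact_mod_cast hp3.le)
    have hN : 8 * |((- eval ![(p.1 : ℤ), (p.2 : ℤ)] G : ℤ) : ℝ)| ≤ H * p.1 := by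
      push_cast
      rw [abs_neg]
      have e1 : (p.1 : ℝ) ^ n = (p.1 : ℝ) ^ (n - 1) * p.1 := by
        rw [← pow_succ]
        congr 1
        omega
      have e2 : (p.1 : ℝ) ^ (n - 1) ≤ δ * H := by
        calc (p.1 : ℝ) ^ (n - 1) ≤ (δ * S) ^ (n - 1) := pow_le_pow_left₀ (by positivity) hpX _
          _ = δ ^ (n - 1) * H := by rw [mul_pow, hSH]
          _ ≤ δ * H := by
              have : δ ^ (n - 1) ≤ δ := pow_le_of_le_one hδ0.le hδ1 (by omega)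
              gcongr
      calc 8 * |((eval ![(p.1 : ℤ), (p.2 : ℤ)] G : ℤ) : ℝ)| ≤ 8 * (D * (p.1 : ℝ) ^ n) := by gcongr
        _ = 8 * D * ((p.1 : ℝ) ^ (n - 1) * p.1) := by rw [e1]; ring
        _ ≤ 8 * D * ((δ * H) * p.1) := by gcongr
        _ = (8 * D * δ) * (H * p.1) := by ring
        _ ≤ 1 * (H * p.1) := by gcongr
        _ = _ := one_mul _
    have h2 := lb1 H (p.1 : ℤ) (p.2 : ℤ) (- eval ![(p.1 : ℤ), (p.2 : ℤ)] G) (by exact_mod_cast hp1) (by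
      rw [Nat.abs_cast]
      exact_mod_cast hp3.le) (by exact_mod_cast h16) (by exact_mod_cast hN)
    simp only [Int.cast_natCast] at h2
    exact h2)
  rw [card_ix, show (1 + 1) * (1 + 2) / 2 - 2 = 1 from rfl, pow_one] at h1
  have h2 : ∑ x ∈ Icc 1 X, (x : ℝ) * ((H : ℝ) ^ 2 / (32 * x)) = X * ((H : ℝ) ^ 2 / 32) := by
    have h3 : ∀ x ∈ Icc 1 X, (x : ℝ) * ((H : ℝ) ^ 2 / (32 * x)) = (H : ℝ) ^ 2 / 32 := by
      intro x hx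
      have hx' : (x : ℝ) ≠ 0 := by
        have := (mem_Icc.1 hx).1
        exact_mod_cast (by omega : x ≠ 0)
      field_simp
    rw [sum_congr rfl h3, sum_const, Nat.card_Icc, nsmul_eq_mul]
    simp
  rw [h2] at h1
  have h3 : (X : ℝ) ^ 4 * (Cp * (2 * (H : ℝ) + 1)) ≤ X * ((H : ℝ) ^ 2 / 64) := by
    have e1 : (X : ℝ) ^ 3 ≤ δ * H := by
      calc (X : ℝ) ^ 3 ≤ (δ * S) ^ 3 := pow_le_pow_left₀ (by positivity) hXle 3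
        _ = δ ^ 3 * S ^ 3 := mul_pow _ _ _
        _ ≤ δ * H := by
            have : δ ^ 3 ≤ δ := pow_le_of_le_one hδ0.le hδ1 (by omega)
            gcongr
    calc (X : ℝ) ^ 4 * (Cp * (2 * (H : ℝ) + 1)) ≤ (X : ℝ) ^ 4 * (Cp * (3 * H)) := by
          have : 2 * (H : ℝ) + 1 ≤ 3 * H := by linarith
          gcongr
      _ = X * ((X : ℝ) ^ 3 * (3 * Cp * H)) := by ring
      _ ≤ X * ((δ * H) * (3 * Cp * H)) := by gcongr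
      _ = X * ((192 * Cp * δ) * ((H : ℝ) ^ 2 / 64)) := by ring
      _ ≤ X * (1 * ((H : ℝ) ^ 2 / 64)) := by gcongr
      _ = _ := by ring
  rw [hpow]
  have h4 : δ * S / 2 * ((H : ℝ) ^ 2 / 64) ≤ X * ((H : ℝ) ^ 2 / 64) := by gcongr
  have h5 : δ / 256 * ((H : ℝ) ^ 2 * S) = δ * S / 2 * ((H : ℝ) ^ 2 / 64) / 2 := by ring
  have h6 : δ / 128 * ((H : ℝ) ^ 2 * S) ≤ (cnt 1 G H : ℝ) := by
    have h7 : δ / 128 * ((H : ℝ) ^ 2 * S) = δ * S / 2 * ((H : ℝ) ^ 2 / 64) := by ring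
    unfold cnt
    rw [h7]
    linarith
  have h8 : (H : ℝ) ^ 2 * S = (128 * (1 / δ)) * (δ / 128 * ((H : ℝ) ^ 2 * S)) := by
    field_simp
  have h9 : 128 * (1 / δ) ≤ (B : ℝ) ^ ((κw + 8) * n) := by
    calc 128 * (1 / δ) ≤ (B : ℝ) ^ 7 * (B : ℝ) ^ (κw + 1) := by
          have : (128 : ℝ) ≤ (B : ℝ) ^ 7 := by
            calc (128 : ℝ) = 2 ^ 7 := by norm_num
              _ ≤ (B : ℝ) ^ 7 := pow_le_pow_left₀ (by norm_num) hBr 7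
          exact mul_le_mul this hδB (by positivity) (by positivity)
      _ = (B : ℝ) ^ (κw + 8) := by rw [← pow_add]; congr 1; omega
      _ ≤ (B : ℝ) ^ ((κw + 8) * n) := pow_le_pow_right₀ hB1 (Nat.le_mul_of_pos_right _ (by omega))
  rw [h8]
  exact mul_le_mul h9 h6 (by positivity) (by positivity)


theorem log_le_pow (n : ℕ) (hn : 4 ≤ n) (H : ℝ) (hH : 1 ≤ H) :
    H ^ (1 / (n : ℝ)) * (1 + Real.log H) ≤ (1 + 2 * (n : ℝ) ^ 2) * (H ^ (-(1 / (4 * (n : ℝ) ^ 2))) * H ^ (1 / ((n - 1 : ℕ) : ℝ))) := by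
  have hH0 : 0 < H := by linarith
  have hnr : (4 : ℝ) ≤ n := by exact_mod_cast hn
  have hn0 : (0 : ℝ) < n := by linarith
  have hn1 : ((n - 1 : ℕ) : ℝ) = (n : ℝ) - 1 := by
    rw [Nat.cast_sub (by omega), Nat.cast_one]
  obtain ⟨ε, hε⟩ : ∃ ε : ℝ, ε = 3 / (4 * (n : ℝ) ^ 2) := ⟨_, rfl⟩
  have hε0 : 0 < ε := by rw [hε]; positivity
  have h1 := Real.log_le_rpow_div hH0.le hε0
  have h2 : 1 ≤ H ^ ε := Real.one_le_rpow hH hε0.le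
  have h3 : H ^ ε / ε = (4 * (n : ℝ) ^ 2 / 3) * H ^ ε := by
    rw [hε]
    field_simp
  have h4 : 1 + Real.log H ≤ (1 + 2 * (n : ℝ) ^ 2) * H ^ ε := by
    rw [h3] at h1
    have h5 : (4 * (n : ℝ) ^ 2 / 3) * H ^ ε ≤ 2 * (n : ℝ) ^ 2 * H ^ ε := by
      refine mul_le_mul_of_nonneg_right ?_ (by linarith)
      have : 0 ≤ (n : ℝ) ^ 2 := by positivity
      linarith
    linarith
  have h5 : H ^ (1 / (n : ℝ)) * H ^ ε ≤ H ^ (-(1 / (4 * (n : ℝ) ^ 2))) * H ^ (1 / ((n - 1 : ℕ) : ℝ)) := by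
    rw [← Real.rpow_add hH0, ← Real.rpow_add hH0]
    refine Real.rpow_le_rpow_of_exponent_le hH ?_
    rw [hε, hn1]
    have h6 : (1 : ℝ) / n + 1 / (n : ℝ) ^ 2 ≤ 1 / ((n : ℝ) - 1) := by
      rw [div_add_div _ _ hn0.ne' (by positivity), div_le_div_iff₀ (by positivity) (by linarith)]
      nlinarith
    have h7 : (3 : ℝ) / (4 * (n : ℝ) ^ 2) + 1 / (4 * (n : ℝ) ^ 2) = 1 / (n : ℝ) ^ 2 := by
      field_simp
      norm_num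
    linarith
  calc H ^ (1 / (n : ℝ)) * (1 + Real.log H) ≤ H ^ (1 / (n : ℝ)) * ((1 + 2 * (n : ℝ) ^ 2) * H ^ ε) :=
        mul_le_mul_of_nonneg_left h4 (Real.rpow_nonneg hH0.le _)
    _ = (1 + 2 * (n : ℝ) ^ 2) * (H ^ (1 / (n : ℝ)) * H ^ ε) := by ring
    _ ≤ _ := mul_le_mul_of_nonneg_left h5 (by positivity)

/-- the bad vectors, `T ≥ B^κ₀` -/
def BadS (n κ₀ κ : ℕ) : Prop :=
    ∀ B : ℕ, 2 ≤ B → ∀ G : MvPolynomial (Fin 2) ℤ, Hyp0 n 1 G → (∀ m, |G.coeff m| + 1 ≤ (B : ℤ)) → ∀ H : ℕ, 1 ≤ H →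
    ∀ T : ℝ, (B : ℝ) ^ κ₀ ≤ T → (bad 1 G H (T * (H : ℝ) ^ (1 / ((n - 1 : ℕ) : ℝ))) : ℝ) ≤
      (B : ℝ) ^ κ * (1 / T + T ^ 4 * (H : ℝ) ^ (-(1 / (4 * (n : ℝ) ^ 2)))) * (H : ℝ) ^ (2 + 1 / ((n - 1 : ℕ) : ℝ))

theorem badx (n : ℕ) (hn : 4 ≤ n) (hfar : ∃ E κ : ℕ, FarS n E κ) : ∃ κ₀ κ : ℕ, BadS n κ₀ κ := by
  obtain ⟨κ₀, κb, hbig⟩ := bigx n hn hfar
  obtain ⟨κw, hκw⟩ := pw (1 + 2 * (n : ℝ) ^ 2 + 1089)
  refine ⟨κ₀, κw + κb, ?_⟩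
  intro B hB G h hGB H hH T hT₀
  have hBr : (2 : ℝ) ≤ B := by exact_mod_cast hB
  have hB1 : (1 : ℝ) ≤ B := by linarith
  have hH' : (1 : ℝ) ≤ (H : ℝ) := by exact_mod_cast hH
  have hH0 : (0 : ℝ) < (H : ℝ) := by linarith
  have hT : 1 ≤ T := le_trans (one_le_pow₀ hB1) hT₀
  have hT0 : (0 : ℝ) < T := by linarith
  have hnr : (0 : ℝ) < ((n - 1 : ℕ) : ℝ) := by exact_mod_cast (by omega : 0 < n - 1)
  have hn4 : (4 : ℝ) ≤ n := by exact_mod_cast hn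
  have hlp := log_le_pow n hn H hH'
  obtain ⟨S, hS⟩ : ∃ S : ℝ, S = (H : ℝ) ^ (1 / ((n - 1 : ℕ) : ℝ)) := ⟨_, rfl⟩
  have hS1 : 1 ≤ S := by rw [hS]; exact Real.one_le_rpow hH' (by positivity)
  have hS0 : 0 < S := by linarith
  have hSH : S ^ (n - 1) = H := by
    rw [hS, ← Real.rpow_natCast, ← Real.rpow_mul hH0.le, one_div, inv_mul_cancel₀ hnr.ne', Real.rpow_one]
  have hS3 : S ^ 3 ≤ H := by
    rw [← hSH]
    exact pow_le_pow_right₀ hS1 (by omega)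
  have hpow : (H : ℝ) ^ (2 + 1 / ((n - 1 : ℕ) : ℝ)) = (H : ℝ) ^ 2 * S := by
    rw [Real.rpow_add hH0, hS]
    norm_num
  obtain ⟨w, hw⟩ : ∃ w : ℝ, w = (H : ℝ) ^ (-(1 / (4 * (n : ℝ) ^ 2))) := ⟨_, rfl⟩
  have hw0 : 0 < w := by rw [hw]; exact Real.rpow_pos_of_pos hH0 _
  have hinv : 1 / √S ≤ w := by
    have e1 : 1 / √S = (H : ℝ) ^ (-(1 / (2 * ((n - 1 : ℕ) : ℝ)))) := by
      rw [Real.rpow_neg hH0.le, ← one_div]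
      congr 1
      rw [Real.sqrt_eq_rpow, hS, ← Real.rpow_mul hH0.le]
      congr 1
      field_simp
    rw [e1, hw]
    refine Real.rpow_le_rpow_of_exponent_le hH' ?_
    rw [neg_le_neg_iff]
    refine one_div_le_one_div_of_le (by positivity) ?_
    have e2 : ((n - 1 : ℕ) : ℝ) ≤ n := by exact_mod_cast Nat.sub_le n 1
    nlinarith
  rw [← hS, ← hw] at hlp
  rw [← hS, ← hw, hpow]
  obtain ⟨Y, hY⟩ : ∃ Y : ℝ, Y = (H : ℝ) ^ 2 * S := ⟨_, rfl⟩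
  have hY0 : 0 < Y := by rw [hY]; positivity
  have hT4 : 1 ≤ T ^ 4 := one_le_pow₀ hT
  obtain ⟨Tb, Tp, hle, hb, hp⟩ := bad_split 1 G H (T * S) (by positivity)
  have hle' : (bad 1 G H (T * S) : ℝ) ≤ Tb.card + Tp.card := by exact_mod_cast hle
  have hc1 := hbig B hB G h hGB H S T hH hS1 hSH hT₀ Tb hb
  have hTS1 : 1 ≤ T * S := by nlinarith
  have hR1 : 1 ≤ ⌊T * S⌋₊ := Nat.floor_pos.2 hTS1
  have hc2 := pairs1 H ⌊T * S⌋₊ hR1 (fun P => - eval ![P.1, P.2] G) Tp hp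
  have hc3 := pair_fin (H : ℝ) ((⌊T * S⌋₊ : ℕ) : ℝ) S T hH' (by exact_mod_cast hR1) hS1 hT hS3 (Nat.floor_le (by positivity))
  rw [← hY] at hc3 ⊢
  have f1 : (Tb.card : ℝ) ≤ (B : ℝ) ^ κb * ((1 + 2 * (n : ℝ) ^ 2) * (1 / T + T ^ 4 * w) * Y) := by
    refine hc1.trans (mul_le_mul_of_nonneg_left ?_ (by positivity))
    have e1 : (H : ℝ) ^ 2 * S / T = 1 / T * Y := by rw [hY]; ring
    have e2 : (H : ℝ) ^ 2 * (H : ℝ) ^ (1 / (n : ℝ)) * (1 + Real.log H) ≤ (1 + 2 * (n : ℝ) ^ 2) * (T ^ 4 * w) * Y := by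
      calc (H : ℝ) ^ 2 * (H : ℝ) ^ (1 / (n : ℝ)) * (1 + Real.log H)
          = (H : ℝ) ^ 2 * ((H : ℝ) ^ (1 / (n : ℝ)) * (1 + Real.log H)) := by ring
        _ ≤ (H : ℝ) ^ 2 * ((1 + 2 * (n : ℝ) ^ 2) * (w * S)) := mul_le_mul_of_nonneg_left hlp (by positivity)
        _ = (1 + 2 * (n : ℝ) ^ 2) * (1 * w) * Y := by rw [hY]; ring
        _ ≤ (1 + 2 * (n : ℝ) ^ 2) * (T ^ 4 * w) * Y := by gcongr
    rw [e1]
    have e3 : 1 / T * Y ≤ (1 + 2 * (n : ℝ) ^ 2) * (1 / T) * Y := by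
      have e4 : 0 ≤ 1 / T * Y := by positivity
      have e5 : 0 ≤ 2 * (n : ℝ) ^ 2 * (1 / T * Y) := by positivity
      nlinarith
    nlinarith
  have f2 : (Tp.card : ℝ) ≤ 1089 * ((1 / T + T ^ 4 * w) * Y) := by
    refine hc2.trans (hc3.trans ?_)
    have e1 : T ^ 4 * (1 / √S) ≤ 1 / T + T ^ 4 * w := by
      have e2 : T ^ 4 * (1 / √S) ≤ T ^ 4 * w := mul_le_mul_of_nonneg_left hinv (by positivity)
      have e3 : 0 ≤ 1 / T := by positivity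
      linarith
    calc 1089 * (T ^ 4 * (1 / √S)) * Y ≤ 1089 * (1 / T + T ^ 4 * w) * Y := by gcongr
      _ = _ := by ring
  obtain ⟨Q, hQ⟩ : ∃ Q : ℝ, Q = (1 / T + T ^ 4 * w) * Y := ⟨_, rfl⟩
  have hQ0 : 0 ≤ Q := by rw [hQ]; positivity
  have f3 : (B : ℝ) ^ κb * ((1 + 2 * (n : ℝ) ^ 2) * (1 / T + T ^ 4 * w) * Y) = (B : ℝ) ^ κb * ((1 + 2 * (n : ℝ) ^ 2) * Q) := by
    rw [hQ]
    ring
  rw [f3] at f1
  rw [← hQ] at f2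
  rw [mul_assoc, ← hQ]
  have hBb : 1 ≤ (B : ℝ) ^ κb := one_le_pow₀ hB1
  calc (bad 1 G H (T * S) : ℝ) ≤ (B : ℝ) ^ κb * ((1 + 2 * (n : ℝ) ^ 2) * Q) + 1089 * Q := by linarith
    _ ≤ (B : ℝ) ^ κb * ((1 + 2 * (n : ℝ) ^ 2) * Q) + (B : ℝ) ^ κb * (1089 * Q) := by
      have : 0 ≤ 1089 * Q := by positivity
      nlinarith
    _ = (1 + 2 * (n : ℝ) ^ 2 + 1089) * ((B : ℝ) ^ κb * Q) := by ring
    _ ≤ (B : ℝ) ^ κw * ((B : ℝ) ^ κb * Q) := mul_le_mul_of_nonneg_right (hκw B hB) (by positivity)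
    _ = (B : ℝ) ^ (κw + κb) * Q := by rw [pow_add]; ring

/-- the upper bound -/
theorem upx (n : ℕ) (hn : 4 ≤ n) (hfar : ∃ E κ : ℕ, FarS n E κ) : ∃ κ : ℕ, ∀ B : ℕ, 2 ≤ B → ∀ G : MvPolynomial (Fin 2) ℤ,
    Hyp0 n 1 G → (∀ m, |G.coeff m| + 1 ≤ (B : ℤ)) → ∀ H : ℕ, 1 ≤ H →
    (cnt 1 G H : ℝ) ≤ (B : ℝ) ^ κ * (H : ℝ) ^ (2 + 1 / ((n - 1 : ℕ) : ℝ)) := by
  obtain ⟨κ₀, κb, hbad⟩ := badx n hn hfar
  obtain ⟨κm, hm⟩ := mom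
  obtain ⟨κw, hκw⟩ := pw (2 * (κm : ℝ) + 2)
  refine ⟨κw + κb + κ₀ * 4, ?_⟩
  intro B hB G h hGB H hH
  have hBr : (2 : ℝ) ≤ B := by exact_mod_cast hB
  have hB1 : (1 : ℝ) ≤ B := by linarith
  have hH' : (1 : ℝ) ≤ (H : ℝ) := by exact_mod_cast hH
  have hH0 : (0 : ℝ) < (H : ℝ) := by linarith
  obtain ⟨T, hTd⟩ : ∃ T : ℝ, T = (B : ℝ) ^ κ₀ := ⟨_, rfl⟩
  have hT : 1 ≤ T := by rw [hTd]; exact one_le_pow₀ hB1
  have hT0 : (0 : ℝ) < T := by linarith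
  have hnr : (0 : ℝ) < ((n - 1 : ℕ) : ℝ) := by exact_mod_cast (by omega : 0 < n - 1)
  have hn4 : (4 : ℝ) ≤ n := by exact_mod_cast hn
  have hb := hbad B hB G h hGB H hH T (le_of_eq hTd.symm)
  obtain ⟨S, hS⟩ : ∃ S : ℝ, S = (H : ℝ) ^ (1 / ((n - 1 : ℕ) : ℝ)) := ⟨_, rfl⟩
  have hS1 : 1 ≤ S := by rw [hS]; exact Real.one_le_rpow hH' (by positivity)
  have hS0 : 0 < S := by linarith
  have hSH : S ^ (n - 1) = H := by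
    rw [hS, ← Real.rpow_natCast, ← Real.rpow_mul hH0.le, one_div, inv_mul_cancel₀ hnr.ne', Real.rpow_one]
  have hSle : S ≤ H := by
    rw [← hSH]
    exact le_self_pow₀ hS1 (by omega)
  have hpow : (H : ℝ) ^ (2 + 1 / ((n - 1 : ℕ) : ℝ)) = (H : ℝ) ^ 2 * S := by
    rw [Real.rpow_add hH0, hS]
    norm_num
  rw [hpow] at hb ⊢
  rw [← hS] at hb
  obtain ⟨Y, hY⟩ : ∃ Y : ℝ, Y = (H : ℝ) ^ 2 * S := ⟨_, rfl⟩
  have hY0 : 0 < Y := by rw [hY]; positivity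
  rw [← hY] at hb ⊢
  have hw : (H : ℝ) ^ (-(1 / (4 * (n : ℝ) ^ 2))) ≤ 1 := by
    refine Real.rpow_le_one_of_one_le_of_nonpos hH' ?_
    have : 0 ≤ 1 / (4 * (n : ℝ) ^ 2) := by positivity
    linarith
  have hT4 : 1 ≤ T ^ 4 := one_le_pow₀ hT
  have hb2 : (bad 1 G H (T * S) : ℝ) ≤ (B : ℝ) ^ κb * (2 * T ^ 4) * Y := by
    refine hb.trans ?_
    have e1 : 1 / T ≤ 1 := by rw [div_le_one hT0]; exact hT
    have e2 : T ^ 4 * (H : ℝ) ^ (-(1 / (4 * (n : ℝ) ^ 2))) ≤ T ^ 4 := mul_le_of_le_one_right (by positivity) hw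
    have e3 : 1 / T + T ^ 4 * (H : ℝ) ^ (-(1 / (4 * (n : ℝ) ^ 2))) ≤ 2 * T ^ 4 := by linarith
    gcongr
  have hup := cnt_up 1 G H (T * S) (by positivity)
  have hTS1 : 1 ≤ T * S := by nlinarith
  have hR1 : 1 ≤ ⌊T * S⌋₊ := Nat.floor_pos.2 hTS1
  have hmo := hm H ⌊T * S⌋₊ hH hR1 (fun P => - eval ![P.1, P.2] G)
  have hRle : ((⌊T * S⌋₊ : ℕ) : ℝ) ≤ T * S := Nat.floor_le (by positivity)
  have hm2 : (κm : ℝ) * H * (H * ((⌊T * S⌋₊ : ℕ) : ℝ) + ((⌊T * S⌋₊ : ℕ) : ℝ) ^ 2) ≤ 2 * κm * T ^ 4 * Y := by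
    have e0 : T ^ 2 ≤ T ^ 4 := pow_le_pow_right₀ hT (by norm_num)
    have e00 : T ≤ T ^ 4 := le_self_pow₀ hT (by norm_num)
    calc (κm : ℝ) * H * (H * ((⌊T * S⌋₊ : ℕ) : ℝ) + ((⌊T * S⌋₊ : ℕ) : ℝ) ^ 2) ≤ κm * H * (H * (T * S) + (T * S) ^ 2) := by gcongr
      _ = κm * (T * (H ^ 2 * S) + T ^ 2 * (H * S * S)) := by ring
      _ ≤ κm * (T ^ 4 * (H ^ 2 * S) + T ^ 4 * (H * S * H)) := by gcongr
      _ = _ := by rw [hY]; ring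
  have h1 : (cnt 1 G H : ℝ) ≤ 2 * κm * T ^ 4 * Y + (B : ℝ) ^ κb * (2 * T ^ 4) * Y := by linarith
  refine h1.trans ?_
  have hBb : 1 ≤ (B : ℝ) ^ κb := one_le_pow₀ hB1
  have hT4e : T ^ 4 = (B : ℝ) ^ (κ₀ * 4) := by rw [hTd, ← pow_mul]
  calc 2 * κm * T ^ 4 * Y + (B : ℝ) ^ κb * (2 * T ^ 4) * Y
      ≤ (B : ℝ) ^ κb * (2 * κm * T ^ 4 * Y) + (B : ℝ) ^ κb * (2 * T ^ 4) * Y := by
        have : 0 ≤ 2 * (κm : ℝ) * T ^ 4 * Y := by positivity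
        nlinarith
    _ = (2 * (κm : ℝ) + 2) * ((B : ℝ) ^ κb * T ^ 4 * Y) := by ring
    _ ≤ (B : ℝ) ^ κw * ((B : ℝ) ^ κb * T ^ 4 * Y) := mul_le_mul_of_nonneg_right (hκw B hB) (by positivity)
    _ = _ := by rw [hT4e, pow_add, pow_add]; ring

/-- THEOREM TE1, given the far range: the stratum `j = 1`, effective and uniform in `G` -/
theorem te1_of (n : ℕ) (hn : 4 ≤ n) (hfar : ∃ E κ : ℕ, FarS n E κ) : ∃ κ : ℕ, ∀ B : ℕ, 2 ≤ B → ∀ G : MvPolynomial (Fin 2) ℤ,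
    Hyp0 n 1 G → (∀ m, |G.coeff m| + 1 ≤ (B : ℤ)) → ∀ H : ℕ, 1 ≤ H →
    (cnt 1 G H : ℝ) ≤ (B : ℝ) ^ κ * (H : ℝ) ^ (2 + 1 / ((n - 1 : ℕ) : ℝ)) ∧
    ((B : ℝ) ^ κ ≤ H → (H : ℝ) ^ (2 + 1 / ((n - 1 : ℕ) : ℝ)) ≤ (B : ℝ) ^ κ * cnt 1 G H) ∧
    ∀ T : ℝ, 1 ≤ T → (bad 1 G H (T * (H : ℝ) ^ (1 / ((n - 1 : ℕ) : ℝ))) : ℝ) ≤
      (B : ℝ) ^ κ * (1 / T + T ^ 4 * (H : ℝ) ^ (-(1 / (4 * (n : ℝ) ^ 2)))) * (H : ℝ) ^ (2 + 1 / ((n - 1 : ℕ) : ℝ)) := by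
  obtain ⟨κ₀, κb, hbad⟩ := badx n hn hfar
  obtain ⟨κu, hup⟩ := upx n hn hfar
  obtain ⟨κl, hlo⟩ := lo1x n hn
  refine ⟨κ₀ + κb + κu + κl, ?_⟩
  intro B hB G h hGB H hH
  have hBr : (2 : ℝ) ≤ B := by exact_mod_cast hB
  have hB1 : (1 : ℝ) ≤ B := by linarith
  have hH' : (1 : ℝ) ≤ (H : ℝ) := by exact_mod_cast hH
  have hH0 : (0 : ℝ) < (H : ℝ) := by linarith
  have hmono : ∀ {i : ℕ}, i ≤ κ₀ + κb + κu + κl → (B : ℝ) ^ i ≤ (B : ℝ) ^ (κ₀ + κb + κu + κl) := fun h => pow_le_pow_right₀ hB1 h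
  obtain ⟨Y, hY⟩ : ∃ Y : ℝ, Y = (H : ℝ) ^ (2 + 1 / ((n - 1 : ℕ) : ℝ)) := ⟨_, rfl⟩
  have hY0 : 0 < Y := by rw [hY]; exact Real.rpow_pos_of_pos hH0 _
  have hu := hup B hB G h hGB H hH
  rw [← hY] at hu ⊢
  refine ⟨?_, ?_, ?_⟩
  · exact hu.trans (mul_le_mul_of_nonneg_right (hmono (by omega)) hY0.le)
  · intro hHB
    have h1 := hlo B hB G h.deg hGB H (le_trans (hmono (by omega)) hHB)
    rw [← hY] at h1
    exact h1.trans (mul_le_mul_of_nonneg_right (hmono (by omega)) (Nat.cast_nonneg _))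
  · intro T hT
    have hT0 : (0 : ℝ) < T := by linarith
    have hw0 : 0 ≤ T ^ 4 * (H : ℝ) ^ (-(1 / (4 * (n : ℝ) ^ 2))) := mul_nonneg (by positivity) (Real.rpow_nonneg hH0.le _)
    have hq0 : 0 ≤ 1 / T + T ^ 4 * (H : ℝ) ^ (-(1 / (4 * (n : ℝ) ^ 2))) := by positivity
    rcases le_or_gt ((B : ℝ) ^ κ₀) T with hTT | hTT
    · have h1 := hbad B hB G h hGB H hH T hTT
      rw [← hY] at h1
      refine h1.trans (mul_le_mul_of_nonneg_right (mul_le_mul_of_nonneg_right (hmono (by omega)) hq0) hY0.le)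
    · have h1 : (bad 1 G H (T * (H : ℝ) ^ (1 / ((n - 1 : ℕ) : ℝ))) : ℝ) ≤ (cnt 1 G H : ℝ) := by exact_mod_cast bad_le_cnt 1 G H _
      refine (h1.trans hu).trans (mul_le_mul_of_nonneg_right ?_ hY0.le)
      have h2 : 1 ≤ (B : ℝ) ^ κ₀ * (1 / T) := by
        rw [mul_one_div, le_div_iff₀ hT0]
        linarith
      calc (B : ℝ) ^ κu ≤ (B : ℝ) ^ κu * ((B : ℝ) ^ κ₀ * (1 / T)) := le_mul_of_one_le_right (by positivity) h2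
        _ = (B : ℝ) ^ (κu + κ₀) * (1 / T) := by rw [pow_add]; ring
        _ ≤ (B : ℝ) ^ (κ₀ + κb + κu + κl) * (1 / T + T ^ 4 * (H : ℝ) ^ (-(1 / (4 * (n : ℝ) ^ 2)))) := by
          refine mul_le_mul (hmono (by omega)) (by linarith) (by positivity) (by positivity)

end Pool.Agent.H82.TE
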