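import Pool.Agent.H82.TE.Te1b
import Pool.Agent.H82.TE.Mide
import Pool.Agent.H82.TE.Neax
import Pool.Agent.H82.TE.Momx
import Pool.Agent.H82.TE.Fre
import Pool.Agent.H82.TE.Dgx

/-! # [H82 TE TE1EA] THEOREM TE1, the parts with explicit exponents -/

namespace Pool.Agent.H82.TE

open Finset MvPolynomial Pool.Agent.H8.AA Pool.Agent.H88.A2 Pool.Agent.H88.TU Pool.Agent.H82.TO Pool.Agent.H82.A3

theorem pwe {w : ℝ} {k : ℕ} (hw : w ≤ 2 ^ k) : ∀ B : ℕ, 2 ≤ B → w ≤ (B : ℝ) ^ k := by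
  intro B hB
  have hBr : (2 : ℝ) ≤ B := by exact_mod_cast hB
  exact hw.trans (pow_le_pow_left₀ (by norm_num) hBr _)

theorem bigx_ex (n κ₀ κ₁ κe κm κw : ℕ) (hn : 4 ≤ n) (hnea : NeaS n κ₀ κ₁ κe)
    (hmid : ∀ B : ℕ, 2 ≤ B → ∀ e : ℕ → ℕ → ℤ, Bas n B e → Nz n e → ∀ H : ℕ, 1 ≤ H →
      ∀ T : Finset (Ix 1 → ℤ), (∀ c ∈ T, (∀ p, |c p| ≤ (H : ℤ)) ∧ ∃ x y : ℤ, |y| ≤ |x| ∧ (B : ℝ) ^ κ₁ * H ≤ |(x : ℝ)| ∧
      |(x : ℝ)| ≤ ((B * H : ℕ) : ℝ) ^ (2500 * n ^ 4) ∧ ev n e x y + ev 1 (co c) x y = 0) →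
      (T.card : ℝ) ≤ (B : ℝ) ^ κm * ((H : ℝ) ^ 2 * (H : ℝ) ^ (1 / (n : ℝ)) * (1 + Real.log H)))
    (hw : 3240 * (n : ℝ) ^ 4 + 4 ≤ 2 ^ κw) :
    BigS n (10 * n ^ 2 * κ₀) (κw + 10 * n ^ 2 * κe + 10 * n ^ 2 * κm) := by
  classical
  have hκw := pwe hw
  obtain ⟨E, hE⟩ : ∃ E : ℕ, E = 2500 * n ^ 4 := ⟨_, rfl⟩
  rw [← hE] at hmid
  intro B hB G h hGB H S T₀ hH hS hSH hT₀ T hT
  have hBr : (2 : ℝ) ≤ B := by exact_mod_cast hB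
  have hB1 : (1 : ℝ) ≤ B := by linarith
  have hB0 : (0 : ℝ) < B := by linarith
  have hH' : (1 : ℝ) ≤ H := by exact_mod_cast hH
  have hH0 : (0 : ℝ) < H := by linarith
  obtain ⟨D, hD⟩ : ∃ D : ℕ, D = B ^ (10 * n ^ 2) := ⟨_, rfl⟩
  have hDr : (D : ℝ) = (B : ℝ) ^ (10 * n ^ 2) := by rw [hD]; push_cast; rfl
  have hBD : B ≤ D := by
    rw [hD]
    exact Nat.le_self_pow (by positivity) _
  have hD2 : 2 ≤ D := by omega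
  obtain ⟨hb1, hb2⟩ := gdx_ex n (by omega) B hB G h.deg h.irr hGB D (le_of_eq hD.symm)
  have hz := nz_of (by omega : 2 ≤ n) h.irr
  have hz2 := nz_sw hz
  have hlog : 0 ≤ Real.log H := Real.log_nonneg hH'
  have hT₀1 : 1 ≤ T₀ := le_trans (one_le_pow₀ hB1) hT₀
  have hT₀0 : 0 < T₀ := by linarith
  have hT₀D : (D : ℝ) ^ κ₀ ≤ T₀ := by
    rw [hDr, ← pow_mul]
    exact hT₀
  obtain ⟨U, hU⟩ : ∃ U : ℝ, U = ((D * H : ℕ) : ℝ) ^ E := ⟨_, rfl⟩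
  obtain ⟨V1, hV1⟩ : ∃ V1 : ℝ, V1 = (D : ℝ) ^ κe * ((H : ℝ) ^ 2 * S / T₀ + (H : ℝ) ^ 2 * (1 + Real.log H)) := ⟨_, rfl⟩
  obtain ⟨V2, hV2⟩ : ∃ V2 : ℝ, V2 = (D : ℝ) ^ κm * ((H : ℝ) ^ 2 * (H : ℝ) ^ (1 / (n : ℝ)) * (1 + Real.log H)) := ⟨_, rfl⟩
  -- one chart
  have one : ∀ e : ℕ → ℕ → ℤ, Bas n D e → Nz n e → ∀ Z : Finset (Ix 1 → ℤ), (∀ c ∈ Z, (∀ p, |c p| ≤ (H : ℤ)) ∧
      ∃ x y : ℤ, |y| ≤ |x| ∧ T₀ * S ≤ |(x : ℝ)| ∧ |(x : ℝ)| ≤ U ∧ ev n e x y + ev 1 (co c) x y = 0) → (Z.card : ℝ) ≤ V1 + V2 := by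
    intro e he hze Z hZ
    obtain ⟨Z1, hZ1⟩ : ∃ Z1, Z1 = Z.filter (fun c => ∃ x y : ℤ, |y| ≤ |x| ∧ T₀ * S ≤ |(x : ℝ)| ∧
      |(x : ℝ)| ≤ (D : ℝ) ^ κ₁ * H ∧ ev n e x y + ev 1 (co c) x y = 0) := ⟨_, rfl⟩
    obtain ⟨Z2, hZ2⟩ : ∃ Z2, Z2 = Z.filter (fun c => ∃ x y : ℤ, |y| ≤ |x| ∧ (D : ℝ) ^ κ₁ * H ≤ |(x : ℝ)| ∧
      |(x : ℝ)| ≤ ((D * H : ℕ) : ℝ) ^ E ∧ ev n e x y + ev 1 (co c) x y = 0) := ⟨_, rfl⟩
    have h1 := hnea D hD2 e he H S T₀ hH hS hSH hT₀D Z1 (by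
      intro c hc
      rw [hZ1, mem_filter] at hc
      exact ⟨(hZ c hc.1).1, hc.2⟩)
    have h2 := hmid D hD2 e he hze H hH Z2 (by
      intro c hc
      rw [hZ2, mem_filter] at hc
      exact ⟨(hZ c hc.1).1, hc.2⟩)
    rw [← hV1] at h1
    rw [← hV2] at h2
    have h3 : Z ⊆ Z1 ∪ Z2 := by
      intro c hc
      obtain ⟨hbx, x, y, q1, q2, q3, q4⟩ := hZ c hc
      rw [mem_union, hZ1, hZ2, mem_filter, mem_filter]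
      rcases le_total |(x : ℝ)| ((D : ℝ) ^ κ₁ * H) with q | q
      · exact Or.inl ⟨hc, x, y, q1, q2, q, q4⟩
      · exact Or.inr ⟨hc, x, y, q1, q, by rw [← hU]; exact q3, q4⟩
    have h4 : (Z.card : ℝ) ≤ Z1.card + Z2.card := by exact_mod_cast (card_le_card h3).trans (card_union_le Z1 Z2)
    linarith
  -- the splitting
  obtain ⟨U1, hU1⟩ : ∃ U1, U1 = T.filter (fun c => ∃ x y : ℤ, |y| ≤ |x| ∧ T₀ * S ≤ |(x : ℝ)| ∧ |(x : ℝ)| ≤ U ∧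
    ev n (ar G) x y + ev 1 (co c) x y = 0) := ⟨_, rfl⟩
  obtain ⟨U2, hU2⟩ : ∃ U2, U2 = T.filter (fun c => ∃ x y : ℤ, |y| ≤ |x| ∧ T₀ * S ≤ |(x : ℝ)| ∧ |(x : ℝ)| ≤ U ∧
    ev n (ar G) y x + ev 1 (co c) y x = 0) := ⟨_, rfl⟩
  obtain ⟨U3, hU3⟩ : ∃ U3, U3 = T.filter (fun c => ∃ P : Fin 2 → ℤ, eval P (G + pol c) = 0 ∧
      ∃ i, ((B * H : ℕ) : ℤ) ^ E < |P i|) := ⟨_, rfl⟩
  have hsub : T ⊆ U1 ∪ U2 ∪ U3 := by
    intro c hc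
    obtain ⟨hbox, P, hP, hmax⟩ := hT c hc
    simp only [mem_union]
    rw [hU1, hU2, hU3, mem_filter, mem_filter, mem_filter]
    by_cases hlarge : ∃ i, ((B * H : ℕ) : ℤ) ^ E < |P i|
    · exact Or.inr ⟨hc, P, hP, hlarge⟩
    push Not at hlarge
    have hle : ∀ i, |(P i : ℝ)| ≤ U := by
      intro i
      have h3 := hlarge i
      have h4 : |(P i : ℝ)| ≤ ((B * H : ℕ) : ℝ) ^ E := by exact_mod_cast h3
      refine h4.trans ?_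
      rw [hU]
      refine pow_le_pow_left₀ (Nat.cast_nonneg _) ?_ _
      exact_mod_cast Nat.mul_le_mul_right H hBD
    have h4 : ev n (ar G) (P 0) (P 1) + ev 1 (co c) (P 0) (P 1) = 0 := by
      have h5 := (zer_iff G c P).1 hP
      have h6 := ar_ev h.deg P
      have hvec : ![P 0, P 1] = P := by
        funext i
        fin_cases i <;> rfl
      rw [h5, h6, hvec]
      ring
    rcases le_total |P 1| |P 0| with h3 | h3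
    · have h3' : |(P 1 : ℝ)| ≤ |(P 0 : ℝ)| := by exact_mod_cast h3
      rw [max_eq_left h3'] at hmax
      exact Or.inl (Or.inl ⟨hc, P 0, P 1, h3, hmax, hle 0, h4⟩)
    · have h3' : |(P 0 : ℝ)| ≤ |(P 1 : ℝ)| := by exact_mod_cast h3
      rw [max_eq_right h3'] at hmax
      exact Or.inl (Or.inr ⟨hc, P 1, P 0, h3, hmax, hle 1, h4⟩)
  have hcT : (T.card : ℝ) ≤ U1.card + U2.card + U3.card := by
    have e1 := card_le_card hsub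
    have e2 := card_union_le (U1 ∪ U2) U3
    have e3 := card_union_le U1 U2
    have e5 : T.card ≤ U1.card + U2.card + U3.card := by omega
    exact_mod_cast e5
  have hc1 : (U1.card : ℝ) ≤ V1 + V2 := by
    refine one (ar G) hb1 hz U1 ?_
    intro c hc
    rw [hU1, mem_filter] at hc
    exact ⟨(hT c hc.1).1, hc.2⟩
  have hinj : Function.Injective (fun (c : Ix 1 → ℤ) (p : Ix 1) => c (sp p)) := by
    intro c c' hcc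
    funext p
    have := congrFun hcc (sp p)
    exact this
  have hc2 : (U2.card : ℝ) ≤ V1 + V2 := by
    have e1 := one (sw (ar G)) hb2 hz2 (U2.image (fun c p => c (sp p))) (by
      intro c' hc'
      obtain ⟨c, hc, rfl⟩ := mem_image.1 hc'
      rw [hU2, mem_filter] at hc
      refine ⟨fun p => (hT c hc.1).1 _, ?_⟩
      obtain ⟨x, y, h4, h5, h6, h7⟩ := hc.2
      refine ⟨x, y, h4, h5, h6, ?_⟩
      have h9 : co (fun p => c (sp p)) = sw (co c) := by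
        funext a b
        rw [co_sp]
        rfl
      rw [h9, ev_sw, ev_sw]
      exact h7)
    rw [card_image_of_injective _ hinj] at e1
    exact e1
  have hc3 : (U3.card : ℝ) ≤ 3240 * (n : ℝ) ^ 4 * ((H : ℝ) ^ 2 * (H : ℝ) ^ (1 / (n : ℝ))) := by
    refine fre n hn G h B H hB hGB hH U3 ?_
    intro c hc
    rw [hU3, hE, mem_filter] at hc
    exact ⟨(hT c hc.1).1, hc.2⟩
  -- the sum
  obtain ⟨Y1, hY1⟩ : ∃ Y1 : ℝ, Y1 = (H : ℝ) ^ 2 * S / T₀ := ⟨_, rfl⟩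
  obtain ⟨Y2, hY2⟩ : ∃ Y2 : ℝ, Y2 = (H : ℝ) ^ 2 * (H : ℝ) ^ (1 / (n : ℝ)) * (1 + Real.log H) := ⟨_, rfl⟩
  have hHn : 1 ≤ (H : ℝ) ^ (1 / (n : ℝ)) := Real.one_le_rpow hH' (by positivity)
  have hY10 : 0 ≤ Y1 := by rw [hY1]; positivity
  have hY20 : (H : ℝ) ^ 2 * (1 + Real.log H) ≤ Y2 := by
    rw [hY2]
    have e1 : (H : ℝ) ^ 2 ≤ (H : ℝ) ^ 2 * (H : ℝ) ^ (1 / (n : ℝ)) := le_mul_of_one_le_right (by positivity) hHn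
    exact mul_le_mul_of_nonneg_right e1 (by linarith)
  have hY21 : (H : ℝ) ^ 2 ≤ Y2 := by
    refine le_trans ?_ hY20
    exact le_mul_of_one_le_right (by positivity) (by linarith)
  rw [← hY1] at hV1 ⊢
  rw [← hY2] at hV2 ⊢
  have hDe : (D : ℝ) ^ κe = (B : ℝ) ^ (10 * n ^ 2 * κe) := by rw [hDr, ← pow_mul]
  have hDm : (D : ℝ) ^ κm = (B : ℝ) ^ (10 * n ^ 2 * κm) := by rw [hDr, ← pow_mul]
  obtain ⟨P1, hP1⟩ : ∃ P1 : ℝ, P1 = (B : ℝ) ^ (10 * n ^ 2 * κe) := ⟨_, rfl⟩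
  obtain ⟨P2, hP2⟩ : ∃ P2 : ℝ, P2 = (B : ℝ) ^ (10 * n ^ 2 * κm) := ⟨_, rfl⟩
  have hP11 : 1 ≤ P1 := by rw [hP1]; exact one_le_pow₀ hB1
  have hP21 : 1 ≤ P2 := by rw [hP2]; exact one_le_pow₀ hB1
  rw [hDe, ← hP1] at hV1
  rw [hDm, ← hP2] at hV2
  have hPP1 : P1 ≤ P1 * P2 := le_mul_of_one_le_right (by linarith) hP21
  have hPP2 : P2 ≤ P1 * P2 := le_mul_of_one_le_left (by linarith) hP11
  have hPP : 1 ≤ P1 * P2 := by linarith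
  have hY20' : 0 ≤ Y2 := le_trans (by positivity) hY21
  have hv1 : V1 ≤ P1 * P2 * (Y1 + Y2) := by
    rw [hV1]
    refine mul_le_mul hPP1 (by linarith) ?_ (by linarith)
    have : 0 ≤ (H : ℝ) ^ 2 * (1 + Real.log H) := by positivity
    linarith
  have hv2 : V2 ≤ P1 * P2 * (Y1 + Y2) := by
    rw [hV2]
    exact mul_le_mul hPP2 (by linarith) hY20' (by linarith)
  have hv3 : 3240 * (n : ℝ) ^ 4 * ((H : ℝ) ^ 2 * (H : ℝ) ^ (1 / (n : ℝ))) ≤ 3240 * (n : ℝ) ^ 4 * (P1 * P2 * (Y1 + Y2)) := by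
    have e0 : (H : ℝ) ^ 2 * (H : ℝ) ^ (1 / (n : ℝ)) ≤ Y2 := by
      rw [hY2]
      exact le_mul_of_one_le_right (by positivity) (by linarith)
    have e2 : (H : ℝ) ^ 2 * (H : ℝ) ^ (1 / (n : ℝ)) ≤ P1 * P2 * (Y1 + Y2) := by
      calc (H : ℝ) ^ 2 * (H : ℝ) ^ (1 / (n : ℝ)) ≤ 1 * (Y1 + Y2) := by linarith
        _ ≤ P1 * P2 * (Y1 + Y2) := mul_le_mul_of_nonneg_right hPP (by linarith)
    exact mul_le_mul_of_nonneg_left e2 (by positivity)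
  have hfin : 0 ≤ P1 * P2 * (Y1 + Y2) := by positivity
  calc (T.card : ℝ) ≤ (3240 * (n : ℝ) ^ 4 + 4) * (P1 * P2 * (Y1 + Y2)) := by linarith
    _ ≤ (B : ℝ) ^ κw * (P1 * P2 * (Y1 + Y2)) := mul_le_mul_of_nonneg_right (hκw B hB) hfin
    _ = (B : ℝ) ^ (κw + 10 * n ^ 2 * κe + 10 * n ^ 2 * κm) * (Y1 + Y2) := by
      rw [hP1, hP2, pow_add, pow_add]
      ring


theorem badx_ex (n κ₀ κb κw : ℕ) (hn : 4 ≤ n) (hbig : BigS n κ₀ κb) (hw : 1 + 2 * (n : ℝ) ^ 2 + 1089 ≤ 2 ^ κw) :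
    BadS n κ₀ (κw + κb) := by
  have hκw := pwe hw
  intro B hB G h hGB H hH T hT₀
  have hBr : (2 : ℝ) ≤ B := by exact_mod_cast hB
  have hB1 : (1 : ℝ) ≤ B := by linarith
  have hH' : (1 : ℝ) ≤ (H : ℝ) := by exact_mod_cast hH
  have hH0 : (0 : ℝ) < (H : ℝ) := by linarith
  have hT : 1 ≤ T := le_trans (one_le_pow₀ hB1) hT₀
  have hT0 : (0 : ℝ) < T := by linarith
  have hnr : (0 : ℝ) < ((n - 1 : ℕ) : ℝ) := by exact_mod_cast (by omega : 0 < n - 1)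
  have hn4 : (4 : ℝ) ≤ n := by exact_mod_cast hn
  have hlp := log_le_pow n hn H hH'
  obtain ⟨S, hS⟩ : ∃ S : ℝ, S = (H : ℝ) ^ (1 / ((n - 1 : ℕ) : ℝ)) := ⟨_, rfl⟩
  have hS1 : 1 ≤ S := by rw [hS]; exact Real.one_le_rpow hH' (by positivity)
  have hS0 : 0 < S := by linarith
  have hSH : S ^ (n - 1) = H := by
    rw [hS, ← Real.rpow_natCast, ← Real.rpow_mul hH0.le, one_div, inv_mul_cancel₀ hnr.ne', Real.rpow_one]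
  have hS3 : S ^ 3 ≤ H := by
    rw [← hSH]
    exact pow_le_pow_right₀ hS1 (by omega)
  have hpow : (H : ℝ) ^ (2 + 1 / ((n - 1 : ℕ) : ℝ)) = (H : ℝ) ^ 2 * S := by
    rw [Real.rpow_add hH0, hS]
    norm_num
  obtain ⟨w, hw⟩ : ∃ w : ℝ, w = (H : ℝ) ^ (-(1 / (4 * (n : ℝ) ^ 2))) := ⟨_, rfl⟩
  have hw0 : 0 < w := by rw [hw]; exact Real.rpow_pos_of_pos hH0 _
  have hinv : 1 / √S ≤ w := by
    have e1 : 1 / √S = (H : ℝ) ^ (-(1 / (2 * ((n - 1 : ℕ) : ℝ)))) := by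
      rw [Real.rpow_neg hH0.le, ← one_div]
      congr 1
      rw [Real.sqrt_eq_rpow, hS, ← Real.rpow_mul hH0.le]
      congr 1
      field_simp
    rw [e1, hw]
    refine Real.rpow_le_rpow_of_exponent_le hH' ?_
    rw [neg_le_neg_iff]
    refine one_div_le_one_div_of_le (by positivity) ?_
    have e2 : ((n - 1 : ℕ) : ℝ) ≤ n := by exact_mod_cast Nat.sub_le n 1
    nlinarith
  rw [← hS, ← hw] at hlp
  rw [← hS, ← hw, hpow]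
  obtain ⟨Y, hY⟩ : ∃ Y : ℝ, Y = (H : ℝ) ^ 2 * S := ⟨_, rfl⟩
  have hY0 : 0 < Y := by rw [hY]; positivity
  have hT4 : 1 ≤ T ^ 4 := one_le_pow₀ hT
  obtain ⟨Tb, Tp, hle, hb, hp⟩ := bad_split 1 G H (T * S) (by positivity)
  have hle' : (bad 1 G H (T * S) : ℝ) ≤ Tb.card + Tp.card := by exact_mod_cast hle
  have hc1 := hbig B hB G h hGB H S T hH hS1 hSH hT₀ Tb hb
  have hTS1 : 1 ≤ T * S := by nlinarith
  have hR1 : 1 ≤ ⌊T * S⌋₊ := Nat.floor_pos.2 hTS1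
  have hc2 := pairs1 H ⌊T * S⌋₊ hR1 (fun P => - eval ![P.1, P.2] G) Tp hp
  have hc3 := pair_fin (H : ℝ) ((⌊T * S⌋₊ : ℕ) : ℝ) S T hH' (by exact_mod_cast hR1) hS1 hT hS3 (Nat.floor_le (by positivity))
  rw [← hY] at hc3 ⊢
  have f1 : (Tb.card : ℝ) ≤ (B : ℝ) ^ κb * ((1 + 2 * (n : ℝ) ^ 2) * (1 / T + T ^ 4 * w) * Y) := by
    refine hc1.trans (mul_le_mul_of_nonneg_left ?_ (by positivity))
    have e1 : (H : ℝ) ^ 2 * S / T = 1 / T * Y := by rw [hY]; ring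
    have e2 : (H : ℝ) ^ 2 * (H : ℝ) ^ (1 / (n : ℝ)) * (1 + Real.log H) ≤ (1 + 2 * (n : ℝ) ^ 2) * (T ^ 4 * w) * Y := by
      calc (H : ℝ) ^ 2 * (H : ℝ) ^ (1 / (n : ℝ)) * (1 + Real.log H)
          = (H : ℝ) ^ 2 * ((H : ℝ) ^ (1 / (n : ℝ)) * (1 + Real.log H)) := by ring
        _ ≤ (H : ℝ) ^ 2 * ((1 + 2 * (n : ℝ) ^ 2) * (w * S)) := mul_le_mul_of_nonneg_left hlp (by positivity)
        _ = (1 + 2 * (n : ℝ) ^ 2) * (1 * w) * Y := by rw [hY]; ring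
        _ ≤ (1 + 2 * (n : ℝ) ^ 2) * (T ^ 4 * w) * Y := by gcongr
    rw [e1]
    have e3 : 1 / T * Y ≤ (1 + 2 * (n : ℝ) ^ 2) * (1 / T) * Y := by
      have e4 : 0 ≤ 1 / T * Y := by positivity
      have e5 : 0 ≤ 2 * (n : ℝ) ^ 2 * (1 / T * Y) := by positivity
      nlinarith
    nlinarith
  have f2 : (Tp.card : ℝ) ≤ 1089 * ((1 / T + T ^ 4 * w) * Y) := by
    refine hc2.trans (hc3.trans ?_)
    have e1 : T ^ 4 * (1 / √S) ≤ 1 / T + T ^ 4 * w := by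
      have e2 : T ^ 4 * (1 / √S) ≤ T ^ 4 * w := mul_le_mul_of_nonneg_left hinv (by positivity)
      have e3 : 0 ≤ 1 / T := by positivity
      linarith
    calc 1089 * (T ^ 4 * (1 / √S)) * Y ≤ 1089 * (1 / T + T ^ 4 * w) * Y := by gcongr
      _ = _ := by ring
  obtain ⟨Q, hQ⟩ : ∃ Q : ℝ, Q = (1 / T + T ^ 4 * w) * Y := ⟨_, rfl⟩
  have hQ0 : 0 ≤ Q := by rw [hQ]; positivity
  have f3 : (B : ℝ) ^ κb * ((1 + 2 * (n : ℝ) ^ 2) * (1 / T + T ^ 4 * w) * Y) = (B : ℝ) ^ κb * ((1 + 2 * (n : ℝ) ^ 2) * Q) := by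
    rw [hQ]
    ring
  rw [f3] at f1
  rw [← hQ] at f2
  rw [mul_assoc, ← hQ]
  have hBb : 1 ≤ (B : ℝ) ^ κb := one_le_pow₀ hB1
  calc (bad 1 G H (T * S) : ℝ) ≤ (B : ℝ) ^ κb * ((1 + 2 * (n : ℝ) ^ 2) * Q) + 1089 * Q := by linarith
    _ ≤ (B : ℝ) ^ κb * ((1 + 2 * (n : ℝ) ^ 2) * Q) + (B : ℝ) ^ κb * (1089 * Q) := by
      have : 0 ≤ 1089 * Q := by positivity
      nlinarith
    _ = (1 + 2 * (n : ℝ) ^ 2 + 1089) * ((B : ℝ) ^ κb * Q) := by ring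
    _ ≤ (B : ℝ) ^ κw * ((B : ℝ) ^ κb * Q) := mul_le_mul_of_nonneg_right (hκw B hB) (by positivity)
    _ = (B : ℝ) ^ (κw + κb) * Q := by rw [pow_add]; ring


theorem upx_ex (n κ₀ κb κm κw : ℕ) (hn : 4 ≤ n) (hbad : BadS n κ₀ κb) (hm : MomS κm) (hw : 2 * (κm : ℝ) + 2 ≤ 2 ^ κw) :
    ∀ B : ℕ, 2 ≤ B → ∀ G : MvPolynomial (Fin 2) ℤ,
    Hyp0 n 1 G → (∀ m, |G.coeff m| + 1 ≤ (B : ℤ)) → ∀ H : ℕ, 1 ≤ H →
    (cnt 1 G H : ℝ) ≤ (B : ℝ) ^ (κw + κb + κ₀ * 4) * (H : ℝ) ^ (2 + 1 / ((n - 1 : ℕ) : ℝ)) := by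
  have hκw := pwe hw
  intro B hB G h hGB H hH
  have hBr : (2 : ℝ) ≤ B := by exact_mod_cast hB
  have hB1 : (1 : ℝ) ≤ B := by linarith
  have hH' : (1 : ℝ) ≤ (H : ℝ) := by exact_mod_cast hH
  have hH0 : (0 : ℝ) < (H : ℝ) := by linarith
  obtain ⟨T, hTd⟩ : ∃ T : ℝ, T = (B : ℝ) ^ κ₀ := ⟨_, rfl⟩
  have hT : 1 ≤ T := by rw [hTd]; exact one_le_pow₀ hB1
  have hT0 : (0 : ℝ) < T := by linarith
  have hnr : (0 : ℝ) < ((n - 1 : ℕ) : ℝ) := by exact_mod_cast (by omega : 0 < n - 1)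
  have hn4 : (4 : ℝ) ≤ n := by exact_mod_cast hn
  have hb := hbad B hB G h hGB H hH T (le_of_eq hTd.symm)
  obtain ⟨S, hS⟩ : ∃ S : ℝ, S = (H : ℝ) ^ (1 / ((n - 1 : ℕ) : ℝ)) := ⟨_, rfl⟩
  have hS1 : 1 ≤ S := by rw [hS]; exact Real.one_le_rpow hH' (by positivity)
  have hS0 : 0 < S := by linarith
  have hSH : S ^ (n - 1) = H := by
    rw [hS, ← Real.rpow_natCast, ← Real.rpow_mul hH0.le, one_div, inv_mul_cancel₀ hnr.ne', Real.rpow_one]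
  have hSle : S ≤ H := by
    rw [← hSH]
    exact le_self_pow₀ hS1 (by omega)
  have hpow : (H : ℝ) ^ (2 + 1 / ((n - 1 : ℕ) : ℝ)) = (H : ℝ) ^ 2 * S := by
    rw [Real.rpow_add hH0, hS]
    norm_num
  rw [hpow] at hb ⊢
  rw [← hS] at hb
  obtain ⟨Y, hY⟩ : ∃ Y : ℝ, Y = (H : ℝ) ^ 2 * S := ⟨_, rfl⟩
  have hY0 : 0 < Y := by rw [hY]; positivity
  rw [← hY] at hb ⊢
  have hw : (H : ℝ) ^ (-(1 / (4 * (n : ℝ) ^ 2))) ≤ 1 := by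
    refine Real.rpow_le_one_of_one_le_of_nonpos hH' ?_
    have : 0 ≤ 1 / (4 * (n : ℝ) ^ 2) := by positivity
    linarith
  have hT4 : 1 ≤ T ^ 4 := one_le_pow₀ hT
  have hb2 : (bad 1 G H (T * S) : ℝ) ≤ (B : ℝ) ^ κb * (2 * T ^ 4) * Y := by
    refine hb.trans ?_
    have e1 : 1 / T ≤ 1 := by rw [div_le_one hT0]; exact hT
    have e2 : T ^ 4 * (H : ℝ) ^ (-(1 / (4 * (n : ℝ) ^ 2))) ≤ T ^ 4 := mul_le_of_le_one_right (by positivity) hw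
    have e3 : 1 / T + T ^ 4 * (H : ℝ) ^ (-(1 / (4 * (n : ℝ) ^ 2))) ≤ 2 * T ^ 4 := by linarith
    gcongr
  have hup := cnt_up 1 G H (T * S) (by positivity)
  have hTS1 : 1 ≤ T * S := by nlinarith
  have hR1 : 1 ≤ ⌊T * S⌋₊ := Nat.floor_pos.2 hTS1
  have hmo := hm H ⌊T * S⌋₊ hH hR1 (fun P => - eval ![P.1, P.2] G)
  have hRle : ((⌊T * S⌋₊ : ℕ) : ℝ) ≤ T * S := Nat.floor_le (by positivity)
  have hm2 : (κm : ℝ) * H * (H * ((⌊T * S⌋₊ : ℕ) : ℝ) + ((⌊T * S⌋₊ : ℕ) : ℝ) ^ 2) ≤ 2 * κm * T ^ 4 * Y := by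
    have e0 : T ^ 2 ≤ T ^ 4 := pow_le_pow_right₀ hT (by norm_num)
    have e00 : T ≤ T ^ 4 := le_self_pow₀ hT (by norm_num)
    calc (κm : ℝ) * H * (H * ((⌊T * S⌋₊ : ℕ) : ℝ) + ((⌊T * S⌋₊ : ℕ) : ℝ) ^ 2) ≤ κm * H * (H * (T * S) + (T * S) ^ 2) := by gcongr
      _ = κm * (T * (H ^ 2 * S) + T ^ 2 * (H * S * S)) := by ring
      _ ≤ κm * (T ^ 4 * (H ^ 2 * S) + T ^ 4 * (H * S * H)) := by gcongr
      _ = _ := by rw [hY]; ring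
  have h1 : (cnt 1 G H : ℝ) ≤ 2 * κm * T ^ 4 * Y + (B : ℝ) ^ κb * (2 * T ^ 4) * Y := by linarith
  refine h1.trans ?_
  have hBb : 1 ≤ (B : ℝ) ^ κb := one_le_pow₀ hB1
  have hT4e : T ^ 4 = (B : ℝ) ^ (κ₀ * 4) := by rw [hTd, ← pow_mul]
  calc 2 * κm * T ^ 4 * Y + (B : ℝ) ^ κb * (2 * T ^ 4) * Y
      ≤ (B : ℝ) ^ κb * (2 * κm * T ^ 4 * Y) + (B : ℝ) ^ κb * (2 * T ^ 4) * Y := by
        have : 0 ≤ 2 * (κm : ℝ) * T ^ 4 * Y := by positivity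
        nlinarith
    _ = (2 * (κm : ℝ) + 2) * ((B : ℝ) ^ κb * T ^ 4 * Y) := by ring
    _ ≤ (B : ℝ) ^ κw * ((B : ℝ) ^ κb * T ^ 4 * Y) := mul_le_mul_of_nonneg_right (hκw B hB) (by positivity)
    _ = _ := by rw [hT4e, pow_add, pow_add]; ring


theorem lo1x_ex (n κw : ℕ) (hn : 4 ≤ n) (hw : 192 * 8 + 8 * ((n : ℝ) + 1) ^ 2 + 16 ≤ 2 ^ κw) :
    ∀ B : ℕ, 2 ≤ B → ∀ G : MvPolynomial (Fin 2) ℤ, G.totalDegree ≤ n →
    (∀ m, |G.coeff m| + 1 ≤ (B : ℤ)) → ∀ H : ℕ, (B : ℝ) ^ ((κw + 8) * n) ≤ H →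
    (H : ℝ) ^ (2 + 1 / ((n - 1 : ℕ) : ℝ)) ≤ (B : ℝ) ^ ((κw + 8) * n) * cnt 1 G H := by
  obtain ⟨Cp, hCp8⟩ : ∃ Cp : ℝ, Cp = 8 := ⟨_, rfl⟩
  have hCp : 0 ≤ Cp := by rw [hCp8]; norm_num
  have hw' : 192 * Cp + 8 * ((n : ℝ) + 1) ^ 2 + 16 ≤ 2 ^ κw := by
    rw [hCp8]
    exact hw
  have hκw := pwe hw'
  intro B hB G hG hGB H hHH
  have hBr : (2 : ℝ) ≤ B := by exact_mod_cast hB
  have hB1 : (1 : ℝ) ≤ B := by linarith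
  obtain ⟨D, hDd⟩ : ∃ D : ℝ, D = ((n : ℝ) + 1) ^ 2 * B := ⟨_, rfl⟩
  have hD : 1 ≤ D := by
    rw [hDd]
    have : (1 : ℝ) ≤ ((n : ℝ) + 1) ^ 2 := one_le_pow₀ (by linarith [(Nat.cast_nonneg n : (0 : ℝ) ≤ n)])
    nlinarith
  have hval : ∀ (P : Fin 2 → ℤ) (R : ℝ), 1 ≤ R → |(P 0 : ℝ)| ≤ R → |(P 1 : ℝ)| ≤ R → |((eval P G : ℤ) : ℝ)| ≤ D * R ^ n := by
    intro P R h1 h2 h3
    rw [hDd]
    exact val_lex hG hGB P R h1 h2 h3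
  obtain ⟨δ, hδ⟩ : ∃ δ : ℝ, δ = 1 / (192 * Cp + 8 * D + 16) := ⟨_, rfl⟩
  have hδB : 1 / δ ≤ (B : ℝ) ^ (κw + 1) := by
    rw [hδ, one_div_one_div, hDd, pow_succ]
    calc 192 * Cp + 8 * (((n : ℝ) + 1) ^ 2 * B) + 16 ≤ (192 * Cp + 8 * ((n : ℝ) + 1) ^ 2 + 16) * B := by
          have : 0 ≤ 192 * Cp := by positivity
          nlinarith
      _ ≤ (B : ℝ) ^ κw * B := mul_le_mul_of_nonneg_right (hκw B hB) (by linarith)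
  have hδ0 : 0 < δ := by rw [hδ]; positivity
  have hden : δ * (192 * Cp + 8 * D + 16) = 1 := by
    rw [hδ, one_div, inv_mul_cancel₀ (by positivity)]
  have hδ1 : δ ≤ 1 := by
    rw [hδ, div_le_one (by positivity)]
    linarith
  have hδC : 192 * Cp * δ ≤ 1 := by nlinarith
  have hδD : 8 * D * δ ≤ 1 := by nlinarith
  have hδ16 : 16 * δ ≤ 1 := by nlinarith
  have hHB : (B : ℝ) ^ ((κw + 1) * (n - 1)) ≤ H := by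
    refine le_trans (pow_le_pow_right₀ hB1 ?_) hHH
    exact Nat.mul_le_mul (by omega) (by omega)
  have hH' : (1 : ℝ) ≤ (H : ℝ) := le_trans (one_le_pow₀ hB1) hHB
  have hH : 1 ≤ H := by exact_mod_cast hH'
  have hH0 : (0 : ℝ) < (H : ℝ) := by linarith
  have hnr : (0 : ℝ) < ((n - 1 : ℕ) : ℝ) := by exact_mod_cast (by omega : 0 < n - 1)
  obtain ⟨S, hS⟩ : ∃ S : ℝ, S = (H : ℝ) ^ (1 / ((n - 1 : ℕ) : ℝ)) := ⟨_, rfl⟩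
  have hS1 : 1 ≤ S := by rw [hS]; exact Real.one_le_rpow hH' (by positivity)
  have hS0 : 0 < S := by linarith
  have hSH : S ^ (n - 1) = H := by
    rw [hS, ← Real.rpow_natCast, ← Real.rpow_mul hH0.le, one_div, inv_mul_cancel₀ hnr.ne', Real.rpow_one]
  have hpow : (H : ℝ) ^ (2 + 1 / ((n - 1 : ℕ) : ℝ)) = (H : ℝ) ^ 2 * S := by
    rw [Real.rpow_add hH0, hS]
    norm_num
  have hSle : S ≤ H := by
    rw [← hSH]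
    exact le_self_pow₀ hS1 (by omega)
  have hS3 : S ^ 3 ≤ H := by
    rw [← hSH]
    exact pow_le_pow_right₀ hS1 (by omega)
  have hδS : 1 ≤ δ * S := by
    by_contra hcon
    push Not at hcon
    have h1 : S < 1 / δ := by rw [lt_div_iff₀ hδ0]; linarith
    have h2 : S ^ (n - 1) < (1 / δ) ^ (n - 1) := pow_lt_pow_left₀ h1 hS0.le (by omega)
    rw [hSH] at h2
    have h3 : (1 / δ) ^ (n - 1) ≤ H := by
      refine le_trans (pow_le_pow_left₀ (by positivity) hδB _) ?_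
      rw [← pow_mul]
      exact hHB
    linarith
  obtain ⟨X, hX⟩ : ∃ X : ℕ, X = ⌊δ * S⌋₊ := ⟨_, rfl⟩
  have hXle : (X : ℝ) ≤ δ * S := by rw [hX]; exact Nat.floor_le (by positivity)
  have hX1 : 1 ≤ X := by rw [hX]; exact Nat.floor_pos.2 hδS
  have hXge : δ * S / 2 ≤ X := by
    have h1 : δ * S < (X : ℝ) + 1 := by rw [hX]; exact Nat.lt_floor_add_one _
    have h2 : (1 : ℝ) ≤ X := by exact_mod_cast hX1
    linarith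
  have h1 := momx 1 (le_refl _) H hH G X (fun x => (H : ℝ) ^ 2 / (32 * x)) (by
    intro p hp
    obtain ⟨hp1, hp2, hp3⟩ := mem_pts hp
    have hpr : (1 : ℝ) ≤ p.1 := by exact_mod_cast hp1
    have hpX : (p.1 : ℝ) ≤ δ * S := le_trans (by exact_mod_cast hp2) hXle
    have h16 : 16 * (p.1 : ℝ) ≤ H := by nlinarith
    have hv := hval ![(p.1 : ℤ), (p.2 : ℤ)] (p.1 : ℝ) hpr (by simp) (by
      simp only [Matrix.cons_val_one, Matrix.cons_val_fin_one, Int.cast_natCast, Nat.abs_cast]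
      exact_mod_cast hp3.le)
    have hN : 8 * |((- eval ![(p.1 : ℤ), (p.2 : ℤ)] G : ℤ) : ℝ)| ≤ H * p.1 := by
      push_cast
      rw [abs_neg]
      have e1 : (p.1 : ℝ) ^ n = (p.1 : ℝ) ^ (n - 1) * p.1 := by
        rw [← pow_succ]
        congr 1
        omega
      have e2 : (p.1 : ℝ) ^ (n - 1) ≤ δ * H := by
        calc (p.1 : ℝ) ^ (n - 1) ≤ (δ * S) ^ (n - 1) := pow_le_pow_left₀ (by positivity) hpX _
          _ = δ ^ (n - 1) * H := by rw [mul_pow, hSH]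
          _ ≤ δ * H := by
              have : δ ^ (n - 1) ≤ δ := pow_le_of_le_one hδ0.le hδ1 (by omega)
              gcongr
      calc 8 * |((eval ![(p.1 : ℤ), (p.2 : ℤ)] G : ℤ) : ℝ)| ≤ 8 * (D * (p.1 : ℝ) ^ n) := by gcongr
        _ = 8 * D * ((p.1 : ℝ) ^ (n - 1) * p.1) := by rw [e1]; ring
        _ ≤ 8 * D * ((δ * H) * p.1) := by gcongr
        _ = (8 * D * δ) * (H * p.1) := by ring
        _ ≤ 1 * (H * p.1) := by gcongr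
        _ = _ := one_mul _
    have h2 := lb1 H (p.1 : ℤ) (p.2 : ℤ) (- eval ![(p.1 : ℤ), (p.2 : ℤ)] G) (by exact_mod_cast hp1) (by
      rw [Nat.abs_cast]
      exact_mod_cast hp3.le) (by exact_mod_cast h16) (by exact_mod_cast hN)
    simp only [Int.cast_natCast] at h2
    exact h2)
  rw [card_ix, show (1 + 1) * (1 + 2) / 2 - 2 = 1 from rfl, show (1 + 1) * (1 + 2) / 2 = 3 from rfl, pow_one,
    show (2 : ℝ) ^ 3 = Cp by rw [hCp8]; norm_num] at h1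
  have h2 : ∑ x ∈ Icc 1 X, (x : ℝ) * ((H : ℝ) ^ 2 / (32 * x)) = X * ((H : ℝ) ^ 2 / 32) := by
    have h3 : ∀ x ∈ Icc 1 X, (x : ℝ) * ((H : ℝ) ^ 2 / (32 * x)) = (H : ℝ) ^ 2 / 32 := by
      intro x hx
      have hx' : (x : ℝ) ≠ 0 := by
        have := (mem_Icc.1 hx).1
        exact_mod_cast (by omega : x ≠ 0)
      field_simp
    rw [sum_congr rfl h3, sum_const, Nat.card_Icc, nsmul_eq_mul]
    simp
  rw [h2] at h1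
  have h3 : (X : ℝ) ^ 4 * (Cp * (2 * (H : ℝ) + 1)) ≤ X * ((H : ℝ) ^ 2 / 64) := by
    have e1 : (X : ℝ) ^ 3 ≤ δ * H := by
      calc (X : ℝ) ^ 3 ≤ (δ * S) ^ 3 := pow_le_pow_left₀ (by positivity) hXle 3
        _ = δ ^ 3 * S ^ 3 := mul_pow _ _ _
        _ ≤ δ * H := by
            have : δ ^ 3 ≤ δ := pow_le_of_le_one hδ0.le hδ1 (by omega)
            gcongr
    calc (X : ℝ) ^ 4 * (Cp * (2 * (H : ℝ) + 1)) ≤ (X : ℝ) ^ 4 * (Cp * (3 * H)) := by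
          have : 2 * (H : ℝ) + 1 ≤ 3 * H := by linarith
          gcongr
      _ = X * ((X : ℝ) ^ 3 * (3 * Cp * H)) := by ring
      _ ≤ X * ((δ * H) * (3 * Cp * H)) := by gcongr
      _ = X * ((192 * Cp * δ) * ((H : ℝ) ^ 2 / 64)) := by ring
      _ ≤ X * (1 * ((H : ℝ) ^ 2 / 64)) := by gcongr
      _ = _ := by ring
  rw [hpow]
  have h4 : δ * S / 2 * ((H : ℝ) ^ 2 / 64) ≤ X * ((H : ℝ) ^ 2 / 64) := by gcongr
  have h5 : δ / 256 * ((H : ℝ) ^ 2 * S) = δ * S / 2 * ((H : ℝ) ^ 2 / 64) / 2 := by ring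
  have h6 : δ / 128 * ((H : ℝ) ^ 2 * S) ≤ (cnt 1 G H : ℝ) := by
    have h7 : δ / 128 * ((H : ℝ) ^ 2 * S) = δ * S / 2 * ((H : ℝ) ^ 2 / 64) := by ring
    unfold cnt
    rw [h7]
    linarith
  have h8 : (H : ℝ) ^ 2 * S = (128 * (1 / δ)) * (δ / 128 * ((H : ℝ) ^ 2 * S)) := by
    field_simp
  have h9 : 128 * (1 / δ) ≤ (B : ℝ) ^ ((κw + 8) * n) := by
    calc 128 * (1 / δ) ≤ (B : ℝ) ^ 7 * (B : ℝ) ^ (κw + 1) := by
          have : (128 : ℝ) ≤ (B : ℝ) ^ 7 := by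
            calc (128 : ℝ) = 2 ^ 7 := by norm_num
              _ ≤ (B : ℝ) ^ 7 := pow_le_pow_left₀ (by norm_num) hBr 7
          exact mul_le_mul this hδB (by positivity) (by positivity)
      _ = (B : ℝ) ^ (κw + 8) := by rw [← pow_add]; congr 1; omega
      _ ≤ (B : ℝ) ^ ((κw + 8) * n) := pow_le_pow_right₀ hB1 (Nat.le_mul_of_pos_right _ (by omega))
  rw [h8]
  exact mul_le_mul h9 h6 (by positivity) (by positivity)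



theorem te1_gen (n κ₀ κb κu κl : ℕ) (hn : 4 ≤ n) (hbad : BadS n κ₀ κb)
    (hup : ∀ B : ℕ, 2 ≤ B → ∀ G : MvPolynomial (Fin 2) ℤ, Hyp0 n 1 G → (∀ m, |G.coeff m| + 1 ≤ (B : ℤ)) → ∀ H : ℕ, 1 ≤ H →
      (cnt 1 G H : ℝ) ≤ (B : ℝ) ^ κu * (H : ℝ) ^ (2 + 1 / ((n - 1 : ℕ) : ℝ)))
    (hlo : ∀ B : ℕ, 2 ≤ B → ∀ G : MvPolynomial (Fin 2) ℤ, G.totalDegree ≤ n →
      (∀ m, |G.coeff m| + 1 ≤ (B : ℤ)) → ∀ H : ℕ, (B : ℝ) ^ κl ≤ H →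
      (H : ℝ) ^ (2 + 1 / ((n - 1 : ℕ) : ℝ)) ≤ (B : ℝ) ^ κl * cnt 1 G H) :
    ∀ B : ℕ, 2 ≤ B → ∀ G : MvPolynomial (Fin 2) ℤ,
    Hyp0 n 1 G → (∀ m, |G.coeff m| + 1 ≤ (B : ℤ)) → ∀ H : ℕ, 1 ≤ H →
    (cnt 1 G H : ℝ) ≤ (B : ℝ) ^ (κ₀ + κb + κu + κl) * (H : ℝ) ^ (2 + 1 / ((n - 1 : ℕ) : ℝ)) ∧
    ((B : ℝ) ^ (κ₀ + κb + κu + κl) ≤ H → (H : ℝ) ^ (2 + 1 / ((n - 1 : ℕ) : ℝ)) ≤ (B : ℝ) ^ (κ₀ + κb + κu + κl) * cnt 1 G H) ∧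
    ∀ T : ℝ, 1 ≤ T → (bad 1 G H (T * (H : ℝ) ^ (1 / ((n - 1 : ℕ) : ℝ))) : ℝ) ≤
      (B : ℝ) ^ (κ₀ + κb + κu + κl) * (1 / T + T ^ 4 * (H : ℝ) ^ (-(1 / (4 * (n : ℝ) ^ 2)))) * (H : ℝ) ^ (2 + 1 / ((n - 1 : ℕ) : ℝ)) := by
  intro B hB G h hGB H hH
  have hBr : (2 : ℝ) ≤ B := by exact_mod_cast hB
  have hB1 : (1 : ℝ) ≤ B := by linarith
  have hH' : (1 : ℝ) ≤ (H : ℝ) := by exact_mod_cast hH
  have hH0 : (0 : ℝ) < (H : ℝ) := by linarith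
  have hmono : ∀ {i : ℕ}, i ≤ κ₀ + κb + κu + κl → (B : ℝ) ^ i ≤ (B : ℝ) ^ (κ₀ + κb + κu + κl) := fun h => pow_le_pow_right₀ hB1 h
  obtain ⟨Y, hY⟩ : ∃ Y : ℝ, Y = (H : ℝ) ^ (2 + 1 / ((n - 1 : ℕ) : ℝ)) := ⟨_, rfl⟩
  have hY0 : 0 < Y := by rw [hY]; exact Real.rpow_pos_of_pos hH0 _
  have hu := hup B hB G h hGB H hH
  rw [← hY] at hu ⊢
  refine ⟨?_, ?_, ?_⟩
  · exact hu.trans (mul_le_mul_of_nonneg_right (hmono (by omega)) hY0.le)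
  · intro hHB
    have h1 := hlo B hB G h.deg hGB H (le_trans (hmono (by omega)) hHB)
    rw [← hY] at h1
    exact h1.trans (mul_le_mul_of_nonneg_right (hmono (by omega)) (Nat.cast_nonneg _))
  · intro T hT
    have hT0 : (0 : ℝ) < T := by linarith
    have hw0 : 0 ≤ T ^ 4 * (H : ℝ) ^ (-(1 / (4 * (n : ℝ) ^ 2))) := mul_nonneg (by positivity) (Real.rpow_nonneg hH0.le _)
    have hq0 : 0 ≤ 1 / T + T ^ 4 * (H : ℝ) ^ (-(1 / (4 * (n : ℝ) ^ 2))) := by positivity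
    rcases le_or_gt ((B : ℝ) ^ κ₀) T with hTT | hTT
    · have h1 := hbad B hB G h hGB H hH T hTT
      rw [← hY] at h1
      refine h1.trans (mul_le_mul_of_nonneg_right (mul_le_mul_of_nonneg_right (hmono (by omega)) hq0) hY0.le)
    · have h1 : (bad 1 G H (T * (H : ℝ) ^ (1 / ((n - 1 : ℕ) : ℝ))) : ℝ) ≤ (cnt 1 G H : ℝ) := by exact_mod_cast bad_le_cnt 1 G H _
      refine (h1.trans hu).trans (mul_le_mul_of_nonneg_right ?_ hY0.le)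
      have h2 : 1 ≤ (B : ℝ) ^ κ₀ * (1 / T) := by
        rw [mul_one_div, le_div_iff₀ hT0]
        linarith
      calc (B : ℝ) ^ κu ≤ (B : ℝ) ^ κu * ((B : ℝ) ^ κ₀ * (1 / T)) := le_mul_of_one_le_right (by positivity) h2
        _ = (B : ℝ) ^ (κu + κ₀) * (1 / T) := by rw [pow_add]; ring
        _ ≤ (B : ℝ) ^ (κ₀ + κb + κu + κl) * (1 / T + T ^ 4 * (H : ℝ) ^ (-(1 / (4 * (n : ℝ) ^ 2)))) := by
          refine mul_le_mul (hmono (by omega)) (by linarith) (by positivity) (by positivity)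


end Pool.Agent.H82.TE
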